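import Mathlib

/-!
Clubs in a well-order of type `ω₁`.
-/

namespace Pool.Agent.H80Z.Aro

open Set

/-- The order is uncountable and all its proper initial segments are countable. -/
class Om1 (Ω : Type*) [LinearOrder Ω] : Prop where
  ctbl : ∀ a : Ω, (Iio a).Countable
  unc : ¬ (univ : Set Ω).Countable

variable {Ω : Type*} [LinearOrder Ω] [Om1 Ω]

theorem cIic (a : Ω) : (Iic a).Countable := by
  rw [← Iio_insert]
  exact (Om1.ctbl a).insert a

theorem bdd {s : Set Ω} (hs : s.Countable) : ∃ b, ∀ a ∈ s, a < b := by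
  by_contra h
  push Not at h
  apply Om1.unc (Ω := Ω)
  refine (hs.biUnion (fun a _ => cIic a)).mono ?_
  intro b _
  obtain ⟨a, ha, hb⟩ := h b
  exact mem_biUnion ha hb

theorem exists_above (a : Ω) : ∃ b, a < b := by
  obtain ⟨b, hb⟩ := bdd (countable_singleton a)
  exact ⟨b, hb a rfl⟩

theorem om_nonempty : Nonempty Ω := by
  by_contra h
  rw [not_nonempty_iff] at h
  exact Om1.unc (Ω := Ω) (Set.to_countable _)

theorem cof_ne : Order.cof Ω ≠ Cardinal.aleph0 := by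
  intro h
  obtain ⟨s, hs, hc⟩ := Order.exists_cof_eq Ω
  have : s.Countable := by
    rw [← Cardinal.le_aleph0_iff_set_countable, hc, h]
  obtain ⟨b, hb⟩ := bdd this
  obtain ⟨a, ha, hab⟩ := hs b
  exact (hb a ha).not_ge hab

theorem club_Ioi (a : Ω) : IsClub (Ioi a) := by
  refine ⟨?_, fun x => ?_⟩
  · rintro d hd ⟨y, hy⟩ _ x hx
    exact lt_of_lt_of_le (hd hy) (hx.1 hy)
  · obtain ⟨b, hb⟩ := exists_above (max a x)
    exact ⟨b, (le_max_left _ _).trans_lt hb, ((le_max_right _ _).trans_lt hb).le⟩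

theorem club_above {C : Set Ω} (hC : IsClub C) (a : Ω) : ∃ c ∈ C, a < c := by
  obtain ⟨b, hb⟩ := exists_above a
  obtain ⟨c, hc, hbc⟩ := hC.isCofinal b
  exact ⟨c, hc, hb.trans_le hbc⟩

theorem club_unc {C : Set Ω} (hC : IsClub C) : ¬ C.Countable := by
  intro h
  obtain ⟨b, hb⟩ := bdd h
  obtain ⟨c, hc, hbc⟩ := hC.isCofinal b
  exact (hb c hc).not_ge hbc

variable [WellFoundedLT Ω]

theorem club_inter {C D : Set Ω} (hC : IsClub C) (hD : IsClub D) : IsClub (C ∩ D) :=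
  hC.inter cof_ne hD

theorem stat_inter {S C : Set Ω} (hS : IsStationary S) (hC : IsClub C) :
    IsStationary (S ∩ C) := by
  intro D hD
  obtain ⟨x, hx⟩ := hS (club_inter hC hD)
  exact ⟨x, ⟨hx.1, hx.2.1⟩, hx.2.2⟩

omit [WellFoundedLT Ω] in
theorem stat_above {S : Set Ω} (hS : IsStationary S) (a : Ω) : ∃ s ∈ S, a < s := by
  obtain ⟨x, hx⟩ := hS (club_Ioi a)
  exact ⟨x, hx.1, hx.2⟩

theorem club_closure (g : Ω → Ω) : IsClub {d | ∀ a < d, g a < d} := by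
  refine ⟨?_, fun x => ?_⟩
  · rintro d hd - - x hx a ha
    obtain ⟨y, hy, hay, hyx⟩ := hx.exists_between ha
    exact (hd hy a hay).trans_le hyx
  · have hstep : ∀ b : Ω, ∃ c, b < c ∧ ∀ a ≤ b, g a < c := by
      intro b
      obtain ⟨c, hc⟩ := bdd (((cIic b).image g).insert b)
      exact ⟨c, hc b (mem_insert _ _), fun a ha => hc _ (mem_insert_of_mem _ ⟨a, ha, rfl⟩)⟩
    choose F hF1 hF2 using hstep
    let b : ℕ → Ω := fun n => F^[n] x
    have hb : ∀ n, b (n + 1) = F (b n) := fun n => Function.iterate_succ_apply' F n x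
    obtain ⟨c, hc⟩ := bdd (countable_range b)
    have hne : {c | ∀ n, b n < c}.Nonempty := ⟨c, fun n => hc _ ⟨n, rfl⟩⟩
    let m := wellFounded_lt.min _ hne
    have hm : ∀ n, b n < m := wellFounded_lt.min_mem _ hne
    refine ⟨m, fun a ha => ?_, (hm 0).le⟩
    have : ∃ n, a ≤ b n := by
      by_contra h
      push Not at h
      exact wellFounded_lt.not_lt_min _ (show a ∈ {c | ∀ n, b n < c} from h) ha
    obtain ⟨n, hn⟩ := this
    have h1 := hF2 (b n) a hn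
    rw [← hb] at h1
    exact h1.trans (hm _)

omit [Om1 Ω] [WellFoundedLT Ω] in
theorem mem_club_of_lim {C : Set Ω} (hC : IsClub C) {d : Ω} (h0 : ∃ a, a < d)
    (h : ∀ a < d, ∃ c ∈ C, a < c ∧ c < d) : d ∈ C := by
  obtain ⟨a0, ha0⟩ := h0
  obtain ⟨c0, hc0, -, hc0d⟩ := h a0 ha0
  refine hC.isLUB_mem (t := C ∩ Iio d) inter_subset_left ⟨c0, hc0, hc0d⟩
    ⟨fun y hy => hy.2.le, ?_⟩
  intro y hy
  by_contra hlt
  push Not at hlt
  obtain ⟨c, hc, hyc, hcd⟩ := h y hlt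
  exact (hy ⟨hc, hcd⟩).not_gt hyc

/-- limit points of a club -/
theorem club_lim {C : Set Ω} (hC : IsClub C) :
    ∃ D : Set Ω, IsClub D ∧ ∀ d ∈ D, d ∈ C ∧ ∀ a < d, ∃ c ∈ C, a < c ∧ c < d := by
  choose g hg1 hg2 using club_above hC
  refine ⟨C ∩ {d | ∀ a < d, g a < d}, club_inter hC (club_closure g), ?_⟩
  rintro d ⟨h1, h2⟩
  exact ⟨h1, fun a ha => ⟨g a, hg1 a, hg2 a, h2 a ha⟩⟩

/-- diagonal intersection -/
theorem club_diag {T : Type*} (ht : T → Ω) (hc : ∀ a, {t | ht t ≤ a}.Countable)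
    (C : T → Set Ω) (hC : ∀ t, IsClub (C t)) :
    ∃ D : Set Ω, IsClub D ∧ ∀ d ∈ D, ∀ t, ht t < d → d ∈ C t := by
  choose g hg1 hg2 using fun t => club_above (hC t)
  have : ∀ a, ∃ b, ∀ t, ht t ≤ a → g t a < b := by
    intro a
    obtain ⟨b, hb⟩ := bdd ((hc a).image (fun t => g t a))
    exact ⟨b, fun t h => hb _ ⟨t, h, rfl⟩⟩
  choose k hk using this
  refine ⟨_, club_closure k, fun d hd t htd => ?_⟩
  refine mem_club_of_lim (hC t) ⟨_, htd⟩ (fun a ha => ?_)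
  refine ⟨g t (max a (ht t)), hg1 _ _, (le_max_left _ _).trans_lt (hg2 _ _), ?_⟩
  exact (hk _ t (le_max_right _ _)).trans (hd _ (max_lt ha htd))

omit [Om1 Ω] in
/-- the largest element of a club below a point -/
theorem exists_lev {C : Set Ω} (hC : IsClub C) {a : Ω} (h : ∃ c ∈ C, c ≤ a) :
    ∃ d ∈ C, d ≤ a ∧ ∀ e ∈ C, e ≤ a → e ≤ d := by
  obtain ⟨c, hc, hca⟩ := h
  have hne : (upperBounds (C ∩ Iic a)).Nonempty := ⟨a, fun y hy => hy.2⟩
  let m := wellFounded_lt.min _ hne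
  have hm : m ∈ upperBounds (C ∩ Iic a) := wellFounded_lt.min_mem _ hne
  have hm2 : ∀ y ∈ upperBounds (C ∩ Iic a), m ≤ y := fun y hy =>
    not_lt.1 (wellFounded_lt.not_lt_min _ hy)
  exact ⟨m, hC.isLUB_mem (t := C ∩ Iic a) inter_subset_left ⟨c, hc, hca⟩ ⟨hm, hm2⟩,
    hm2 a (fun y hy => hy.2), fun e he hea => hm ⟨he, hea⟩⟩

/-- the next element of a club -/
theorem exists_next {C : Set Ω} (hC : IsClub C) (a : Ω) :
    ∃ d ∈ C, a < d ∧ ∀ e ∈ C, a < e → d ≤ e := by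
  obtain ⟨c, hc, hac⟩ := club_above hC a
  have hne : (C ∩ Ioi a).Nonempty := ⟨c, hc, hac⟩
  have hm := wellFounded_lt.min_mem _ hne
  exact ⟨_, hm.1, hm.2, fun e he hae => not_lt.1 (wellFounded_lt.not_lt_min _
    (show e ∈ C ∩ Ioi a from ⟨he, hae⟩))⟩

omit [Om1 Ω] [WellFoundedLT Ω] in
theorem fin_bdd {T : Type*} (ht : T → Ω) {s : Set T} (hs : s.Finite) {d : Ω} (h0 : ∃ a, a < d)
    (h : ∀ t ∈ s, ht t < d) : ∃ b < d, ∀ t ∈ s, ht t ≤ b := by
  rcases s.eq_empty_or_nonempty with rfl | hne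
  · obtain ⟨a, ha⟩ := h0
    exact ⟨a, ha, by simp⟩
  · obtain ⟨t, ht1, ht2⟩ := Set.exists_max_image s ht hs hne
    exact ⟨ht t, h t ht1, ht2⟩

end Pool.Agent.H80Z.Aro
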