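import Mathlib

/-!
Definitions for the question on Aronszajn tree graphs and their minors.
-/

namespace Pool.Agent.H80Z.Aro

universe u v

/-- `H` is a minor of `G`: pairwise disjoint connected branch sets (of any size), joined by an
edge of `G` whenever the two vertices are adjacent in `H`. -/
def IsMinor {W : Type u} {V : Type v} (H : SimpleGraph W) (G : SimpleGraph V) : Prop :=
  ∃ B : W → Set V, (∀ x, (G.induce (B x)).Connected) ∧
    (∀ x y, x ≠ y → Disjoint (B x) (B y)) ∧
    ∀ x y, H.Adj x y → ∃ a ∈ B x, ∃ b ∈ B y, G.Adj a b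

/-- An order tree: a poset with a least element in which every set `{s | s ≤ t}` is
well-ordered. -/
def IsOrderTree (T : Type u) [PartialOrder T] : Prop :=
  (∃ r : T, ∀ t, r ≤ t) ∧ ∀ t : T, IsWellOrder (Set.Iic t) (fun a b => a < b)

/-- An Aronszajn tree: an order tree of size `ℵ₁` all of whose levels and branches are countable.
Two points lie on the same level when the sets of points strictly below them have the same order
type; branches are maximal chains. -/
def IsAronszajn (T : Type u) [PartialOrder T] : Prop :=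
  IsOrderTree T ∧ Cardinal.mk T = Cardinal.aleph 1 ∧
    (∀ t : T, {s : T | Nonempty (Set.Iio s ≃o Set.Iio t)}.Countable) ∧
    ∀ B : Set T, IsMaxChain (fun a b => a ≤ b) B → B.Countable

/-- `G` is a `T`-graph for the strict tree order `lt` on `T`: edges join comparable points, and
the neighbours of `t` below `t` are cofinal in the set of points below `t`. -/
def IsTGraph {T : Type u} (lt : T → T → Prop) (G : SimpleGraph T) : Prop :=
  (∀ s t, G.Adj s t → lt s t ∨ lt t s) ∧
    ∀ s t, lt s t → ∃ x, (s = x ∨ lt s x) ∧ lt x t ∧ G.Adj x t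

/-- An `(ℵ₀, ℵ₁)`-graph: bipartite with sides `A`, `B` of sizes `ℵ₀`, `ℵ₁`, every vertex of `B`
of infinite degree. -/
def IsAleph01Graph {W : Type u} (H : SimpleGraph W) : Prop :=
  ∃ A B : Set W, Disjoint A B ∧ A ∪ B = Set.univ ∧
    Cardinal.mk A = Cardinal.aleph0 ∧ Cardinal.mk B = Cardinal.aleph 1 ∧
    (∀ x y, H.Adj x y → (x ∈ A ∧ y ∈ B) ∨ (x ∈ B ∧ y ∈ A)) ∧
    ∀ b ∈ B, (H.neighborSet b).Infinite

/-- The countable ordinals. -/
abbrev Om : Type 1 := Set.Iio (Ordinal.omega.{0} 1)

/-- Sequences of length at most `ω`: finite ones (lists) and infinite ones. -/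
abbrev Seq (α : Type u) : Type u := List α ⊕ (ℕ → α)

/-- Proper initial segment. -/
def SeqLT {α : Type u} : Seq α → Seq α → Prop
  | Sum.inl l, Sum.inl m => l.length < m.length ∧ l = m.take l.length
  | Sum.inl l, Sum.inr f => l = (List.range l.length).map f
  | Sum.inr _, _ => False

/-- `H` is a graph `G_{ω₁}(S)` with `S` stationary: there are a `T`-graph `K` on the tree of all
sequences of countable ordinals of length at most `ω`, a stationary set `S` of countable limit
ordinals and for `s ∈ S` a sequence `f s` with values below `s` and cofinal in `s`, such that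
`U` is the set of all finite sequences and all `f s` (`s ∈ S`) and `H` is the subgraph of `K`
induced by `U`. -/
def IsStatGraph (U : Set (Seq Om)) (H : SimpleGraph U) : Prop :=
  ∃ (K : SimpleGraph (Seq Om)) (S : Set Om) (f : Om → ℕ → Om),
    IsTGraph SeqLT K ∧ IsStationary S ∧
    (∀ s ∈ S, Order.IsSuccLimit (s : Ordinal.{0}) ∧ (∀ n, f s n < s) ∧ ∀ a < s, ∃ n, a ≤ f s n) ∧
    U = {x | (∃ l, x = Sum.inl l) ∨ ∃ s ∈ S, x = Sum.inr (f s)} ∧ H = K.induce U

end Pool.Agent.H80Z.Aro
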