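import Mathlib
import Pool.Agent.H80Z.AroDefs
import Pool.Agent.H80Z.AroClub

/-!
A forest of finite depth with tops over stationarily many rays yields a `G_{ω₁}(S)` minor.
-/

namespace Pool.Agent.H80Z.Aro

open Set Function

section conn
variable {T : Type*} (G : SimpleGraph T)

/-- reachability inside a set -/
def Rch (X : Set T) : T → T → Prop :=
  Relation.ReflTransGen (fun a b => G.Adj a b ∧ a ∈ X ∧ b ∈ X)

/-- connected vertex set -/
def Conn (X : Set T) : Prop := X.Nonempty ∧ ∀ a ∈ X, ∀ b ∈ X, Rch G X a b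

variable {G}

theorem Rch.mono {X Y : Set T} (h : X ⊆ Y) {a b : T} (hab : Rch G X a b) : Rch G Y a b := by
  induction hab with
  | refl => exact Relation.ReflTransGen.refl
  | tail _ hh ih => exact Relation.ReflTransGen.tail ih ⟨hh.1, h hh.2.1, h hh.2.2⟩

theorem Rch.symm {X : Set T} {a b : T} (hab : Rch G X a b) : Rch G X b a := by
  induction hab with
  | refl => exact Relation.ReflTransGen.refl
  | tail _ h ih => exact Relation.ReflTransGen.head ⟨h.1.symm, h.2.2, h.2.1⟩ ih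

theorem Rch.trans {X : Set T} {a b c : T} (hab : Rch G X a b) (hbc : Rch G X b c) :
    Rch G X a c := Relation.ReflTransGen.trans hab hbc

theorem Rch.step {X : Set T} {a b c : T} (hab : Rch G X a b) (hb : b ∈ X) (hc : c ∈ X)
    (h : G.Adj b c) : Rch G X a c := Relation.ReflTransGen.tail hab ⟨h, hb, hc⟩

theorem conn_of_root {X : Set T} {m : T} (hm : m ∈ X) (h : ∀ x ∈ X, Rch G X m x) : Conn G X :=
  ⟨⟨m, hm⟩, fun a ha b hb => (h a ha).symm.trans (h b hb)⟩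

theorem Conn.connected {X : Set T} (h : Conn G X) : (G.induce X).Connected := by
  obtain ⟨⟨m, hm⟩, h⟩ := h
  have : Nonempty X := ⟨⟨m, hm⟩⟩
  refine ⟨fun a b => ?_⟩
  have key : ∀ b, Rch G X a b → ∀ hb : b ∈ X, (G.induce X).Reachable a ⟨b, hb⟩ := by
    intro b hb
    induction hb with
    | refl => intro _; exact SimpleGraph.Reachable.refl _
    | tail _ h ih =>
      intro hb
      exact (ih h.2.1).trans (SimpleGraph.Adj.reachable (by simpa using h.1))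
  exact key b (h a a.2 b b.2) b.2

end conn

variable {Ω : Type*} [LinearOrder Ω] [Om1 Ω] [WellFoundedLT Ω]

/-- The data of a forest with tops. -/
structure Tops {T : Type*} (G : SimpleGraph T) (ht : T → Ω) where
  Y : Set T
  X : T → Set T
  p : T → T
  S : Set Ω
  Z : Ω → Set T
  R : Ω → Set T
  hXc : ∀ y ∈ Y, Conn G (X y)
  hXd : ∀ y ∈ Y, ∀ z ∈ Y, y ≠ z → Disjoint (X y) (X z)
  hp : ∀ y ∈ Y, p y = y ∨ (ht (p y) < ht y ∧ ∃ a ∈ X (p y), ∃ b ∈ X y, G.Adj a b)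
  hS : IsStationary S
  hZc : ∀ s ∈ S, Conn G (Z s)
  hZX : ∀ s ∈ S, ∀ y ∈ Y, Disjoint (Z s) (X y)
  hZZ : ∀ s ∈ S, ∀ s' ∈ S, s ≠ s' → Disjoint (Z s) (Z s')
  hR0 : ∀ s ∈ S, (R s).Nonempty
  hR1 : ∀ s ∈ S, ∀ y ∈ R s, y ∈ Y ∧ ht y < s ∧ p y ∈ R s
  hR2 : ∀ s ∈ S, ∀ y ∈ R s, ∀ z ∈ R s, ∃ n, p^[n] y = z ∨ p^[n] z = y
  hR3 : ∀ s ∈ S, ∀ a < s, ∃ y ∈ R s, a < ht y ∧ ∃ u ∈ Z s, ∃ v ∈ X y, G.Adj u v

namespace Tops

variable {T : Type*} {G : SimpleGraph T} {ht : T → Ω} (F : Tops G ht)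

/-- nodes on stationarily many rays -/
def Good (y : T) : Prop := IsStationary {s | s ∈ F.S ∧ y ∈ F.R s}

variable {F}

omit [Om1 Ω] [WellFoundedLT Ω] in
theorem Good.mem {y : T} (h : F.Good y) : y ∈ F.Y := by
  obtain ⟨s, hs, hy⟩ := h.nonempty
  exact (F.hR1 s hs y hy).1

omit [Om1 Ω] [WellFoundedLT Ω] in
theorem Good.par {y : T} (h : F.Good y) : F.Good (F.p y) :=
  IsStationary.mono h (fun s hs => ⟨hs.1, (F.hR1 s hs.1 y hs.2).2.2⟩)

omit [Om1 Ω] [WellFoundedLT Ω] in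
theorem Good.iter {y : T} (h : F.Good y) (n : ℕ) : F.Good (F.p^[n] y) := by
  induction n with
  | zero => exact h
  | succ n ih => rw [iterate_succ_apply']; exact ih.par

omit [Om1 Ω] [WellFoundedLT Ω] in
theorem Good.ht_par {y : T} (h : F.Good y) : ht (F.p y) ≤ ht y := by
  rcases F.hp y h.mem with h1 | h1
  · rw [h1]
  · exact h1.1.le

omit [Om1 Ω] [WellFoundedLT Ω] in
theorem Good.ht_iter {y : T} (h : F.Good y) (n : ℕ) : ht (F.p^[n] y) ≤ ht y := by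
  induction n with
  | zero => exact le_rfl
  | succ n ih => rw [iterate_succ_apply']; exact (h.iter n).ht_par.trans ih

variable (F)

theorem exists_allGood (hc : ∀ a, {t | ht t ≤ a}.Countable) :
    ∃ D : Set Ω, IsClub D ∧ ∀ s ∈ F.S, s ∈ D → ∀ y ∈ F.R s, F.Good y := by
  have : ∀ y, ∃ C : Set Ω, IsClub C ∧ (¬ F.Good y → ∀ s ∈ F.S, y ∈ F.R s → s ∉ C) := by
    intro y
    by_cases h : F.Good y
    · exact ⟨univ, IsClub.univ, fun h' => absurd h h'⟩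
    · obtain ⟨C, hC, hd⟩ := not_isStationary_iff.1 h
      exact ⟨C, hC, fun _ s hs hy hsC => Set.disjoint_left.1 hd ⟨hs, hy⟩ hsC⟩
  choose C hC1 hC2 using this
  obtain ⟨D, hD, hD2⟩ := club_diag ht hc C hC1
  refine ⟨D, hD, fun s hs hsD y hy => ?_⟩
  by_contra h
  exact hC2 y h s hs hy (hD2 s hsD y (F.hR1 s hs y hy).2.1)

theorem exists_root (hc : ∀ a, {t | ht t ≤ a}.Countable) : ∃ y, F.Good y ∧ F.p y = y := by
  obtain ⟨D, hD, hD2⟩ := F.exists_allGood hc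
  obtain ⟨s, hs, hsD⟩ := F.hS hD
  have hwf : WellFounded (InvImage (· < ·) ht) := InvImage.wf ht wellFounded_lt
  have hm := hwf.min_mem _ (F.hR0 s hs)
  refine ⟨_, hD2 s hs hsD _ hm, ?_⟩
  rcases F.hp _ (F.hR1 s hs _ hm).1 with h | h
  · exact h
  · exact absurd h.1 (hwf.not_lt_min _ (F.hR1 s hs _ hm).2.2)

theorem exists_split (hc : ∀ a, {t | ht t ≤ a}.Countable) {y : T} (hy : F.Good y) :
    ∃ z, F.Good z ∧ (∃ n, F.p^[n] z = y) ∧ ¬ {v | F.Good v ∧ F.p v = z}.Countable := by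
  by_contra h
  push Not at h
  have h1 : ∀ n, {z | F.Good z ∧ F.p^[n] z = y}.Countable := by
    intro n
    induction n with
    | zero => exact (countable_singleton y).mono (fun z hz => hz.2)
    | succ n ih =>
      refine (ih.biUnion (t := fun w _ => {v | F.Good v ∧ F.p v = w})
        (fun w hw => h w hw.1 ⟨n, hw.2⟩)).mono ?_
      intro z hz
      exact mem_iUnion₂.2 ⟨F.p z, ⟨hz.1.par, hz.2⟩, hz.1, rfl⟩
  obtain ⟨b, hb⟩ := bdd ((countable_iUnion h1).image ht)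
  obtain ⟨D, hD, hD2⟩ := F.exists_allGood hc
  obtain ⟨s, ⟨⟨hs, hys⟩, hsD⟩, hbs⟩ := stat_above (stat_inter hy hD) (max b (ht y))
  obtain ⟨z, hz, hbz, -⟩ := F.hR3 s hs _ hbs
  obtain ⟨n, hn | hn⟩ := F.hR2 s hs y hys z hz
  · have := hy.ht_iter n
    rw [hn] at this
    exact (lt_of_le_of_lt (le_max_right _ _) hbz).not_ge this
  · have := hb (ht z) ⟨z, mem_iUnion.2 ⟨n, hD2 s hs hsD z hz, hn⟩, rfl⟩
    exact (lt_of_le_of_lt (le_max_left _ _) hbz).not_gt this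

/-- the block of `u` with respect to the club `D` -/
def Blk (D : Set Ω) (u : T) : Set T :=
  {z | F.Good z ∧ (∃ n, F.p^[n] z = u) ∧ ∀ d ∈ D, ht u < d → ht z < d}

/-- first nodes of blocks -/
def St (D : Set Ω) (y0 u : T) : Prop :=
  F.Good u ∧ (u = y0 ∨ ∃ d ∈ D, ht (F.p u) < d ∧ d ≤ ht u)

/-- first nodes of the blocks attached to the block of `u` -/
def Ch (D : Set Ω) (u : T) : Set T := {v | F.Good v ∧ F.p v ∈ F.Blk D u ∧ v ∉ F.Blk D u}

variable {F}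

omit [Om1 Ω] [WellFoundedLT Ω] in
theorem self_mem_blk {D : Set Ω} {u : T} (h : F.Good u) : u ∈ F.Blk D u :=
  ⟨h, ⟨0, rfl⟩, fun _ _ h => h⟩

omit [Om1 Ω] [WellFoundedLT Ω] in
theorem st_of_ch {D : Set Ω} {y0 u v : T} (h : v ∈ F.Ch D u) : F.St D y0 v := by
  obtain ⟨hv, ⟨_, ⟨n, hn⟩, h2⟩, h3⟩ := h
  refine ⟨hv, Or.inr ?_⟩
  by_contra hc
  push Not at hc
  exact h3 ⟨hv, ⟨n + 1, hn⟩, fun d hd hud => hc d hd (h2 d hd hud)⟩

omit [Om1 Ω] [WellFoundedLT Ω] in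
theorem blk_aux {D : Set Ω} {y0 u u' z : T} (h0 : F.p y0 = y0) (hu : F.St D y0 u)
    (hz' : z ∈ F.Blk D u') {n k : ℕ} (hn : F.p^[n] z = u) (hk : F.p^[k] u = u') : u = u' := by
  cases k with
  | zero => exact hk
  | succ k =>
    rcases hu.2 with rfl | ⟨d, hd, h1, h2⟩
    · rw [← hk, iterate_fixed h0]
    · exfalso
      have h3 := hu.1.par.ht_iter k
      rw [iterate_succ_apply] at hk
      rw [hk] at h3
      have h4 := hz'.2.2 d hd (h3.trans_lt h1)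
      have h5 := hz'.1.ht_iter n
      rw [hn] at h5
      exact (h2.trans h5).not_gt h4

omit [Om1 Ω] [WellFoundedLT Ω] in
theorem blk_unique {D : Set Ω} {y0 u u' z : T} (h0 : F.p y0 = y0) (hu : F.St D y0 u)
    (hu' : F.St D y0 u') (hz : z ∈ F.Blk D u) (hz' : z ∈ F.Blk D u') : u = u' := by
  obtain ⟨n, hn⟩ := hz.2.1
  obtain ⟨m, hm⟩ := hz'.2.1
  rcases le_total n m with h | h
  · obtain ⟨k, rfl⟩ := Nat.exists_eq_add_of_le' h
    rw [iterate_add_apply, hn] at hm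
    exact blk_aux h0 hu hz' hn hm
  · obtain ⟨k, rfl⟩ := Nat.exists_eq_add_of_le' h
    rw [iterate_add_apply, hm] at hn
    exact (blk_aux h0 hu' hz hm hn).symm

omit [Om1 Ω] [WellFoundedLT Ω] in
theorem blk_conn {D : Set Ω} {u : T} (hu : F.Good u) : Conn G (⋃ y ∈ F.Blk D u, F.X y) := by
  obtain ⟨m, hm⟩ := (F.hXc u hu.mem).1
  have hsub : ∀ y ∈ F.Blk D u, F.X y ⊆ ⋃ y ∈ F.Blk D u, F.X y :=
    fun y hy => subset_biUnion_of_mem (u := F.X) hy
  refine conn_of_root (hsub u (self_mem_blk hu) hm) ?_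
  have key : ∀ n z, F.p^[n] z = u → z ∈ F.Blk D u → ∀ x ∈ F.X z,
      Rch G (⋃ y ∈ F.Blk D u, F.X y) m x := by
    intro n
    induction n with
    | zero =>
      rintro z rfl hz x hx
      exact ((F.hXc z hz.1.mem).2 m hm x hx).mono (hsub z hz)
    | succ n ih =>
      intro z hn hz x hx
      have hpz : F.p z ∈ F.Blk D u :=
        ⟨hz.1.par, ⟨n, hn⟩, fun d hd h => hz.1.ht_par.trans_lt (hz.2.2 d hd h)⟩
      rcases F.hp z hz.1.mem with h | ⟨-, a, ha, b, hb, hab⟩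
      · exact ih (F.p z) hn hpz x (by rw [h]; exact hx)
      · exact ((ih (F.p z) hn hpz a ha).step (hsub _ hpz ha) (hsub _ hz hb) hab).trans
          (((F.hXc z hz.1.mem).2 b hb x hx).mono (hsub z hz))
  intro x hx
  obtain ⟨z, hz, hx⟩ := mem_iUnion₂.1 hx
  obtain ⟨n, hn⟩ := hz.2.1
  exact key n z hn hz x hx

omit [Om1 Ω] [WellFoundedLT Ω] in
theorem exit_blk {D : Set Ω} {u : T} {s : Ω} (hs : s ∈ F.S) (hg : ∀ y ∈ F.R s, F.Good y) :
    ∀ n y, F.p^[n] y = u → y ∈ F.R s → y ∉ F.Blk D u → ∃ v ∈ F.R s, v ∈ F.Ch D u := by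
  intro n
  induction n with
  | zero =>
    rintro y rfl hy h
    exact absurd (self_mem_blk (hg y hy)) h
  | succ n ih =>
    intro y hn hy h
    by_cases hp : F.p y ∈ F.Blk D u
    · exact ⟨y, hy, hg y hy, hp, h⟩
    · exact ih (F.p y) hn (F.hR1 s hs y hy).2.2 hp

omit [Om1 Ω] [WellFoundedLT Ω] in
theorem ch_aux {D : Set Ω} {u v v' : T} (hv : v ∈ F.Ch D u) (hv' : v' ∈ F.Ch D u) {n : ℕ}
    (hn : F.p^[n] v' = v) : v = v' := by
  cases n with
  | zero => exact hn.symm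
  | succ n =>
    exfalso
    obtain ⟨k, hk⟩ := hv.2.1.2.1
    refine hv.2.2 ⟨hv.1, ⟨k + 1, hk⟩, fun d hd h => ?_⟩
    have h1 := hv'.1.par.ht_iter n
    rw [iterate_succ_apply] at hn
    rw [hn] at h1
    exact h1.trans_lt (hv'.2.1.2.2 d hd h)

omit [Om1 Ω] [WellFoundedLT Ω] in
theorem ch_unique {D : Set Ω} {u v v' : T} {s : Ω} (hs : s ∈ F.S) (h : v ∈ F.R s)
    (h' : v' ∈ F.R s) (hv : v ∈ F.Ch D u) (hv' : v' ∈ F.Ch D u) : v = v' := by
  obtain ⟨n, hn | hn⟩ := F.hR2 s hs v h v' h'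
  · exact (ch_aux hv' hv hn).symm
  · exact ch_aux hv hv' hn

variable (F)

theorem exists_fat (hc : ∀ a, {t | ht t ≤ a}.Countable) :
    ∃ D : Set Ω, IsClub D ∧ ∀ u, F.Good u → ¬ (F.Ch D u).Countable := by
  have h1 : ∀ y, ∃ z, F.Good y → (F.Good z ∧ (∃ n, F.p^[n] z = y) ∧
      ¬ {v | F.Good v ∧ F.p v = z}.Countable) := by
    intro y
    by_cases hy : F.Good y
    · obtain ⟨z, hz⟩ := F.exists_split hc hy
      exact ⟨z, fun _ => hz⟩
    · exact ⟨y, fun h => absurd h hy⟩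
  choose sp hsp using h1
  have h2 : ∀ a, ∃ b, ∀ y, ht y ≤ a → ht (sp y) < b := by
    intro a
    obtain ⟨b, hb⟩ := bdd ((hc a).image (fun y => ht (sp y)))
    exact ⟨b, fun y hy => hb _ ⟨y, hy, rfl⟩⟩
  choose g hg using h2
  refine ⟨_, club_closure g, fun u hu hcu => ?_⟩
  obtain ⟨h3, h4, h5⟩ := hsp u hu
  obtain ⟨d, hd, hud⟩ := club_above (club_closure g) (ht u)
  refine h5 ((hcu.union (hc d)).mono ?_)
  rintro v ⟨hv, hpv⟩
  by_cases hvd : ht v ≤ d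
  · exact Or.inr hvd
  · refine Or.inl ⟨hv, ?_, fun hb => hvd (hb.2.2 d hd hud).le⟩
    rw [hpv]
    exact ⟨h3, h4, fun e he hue => (hg _ u le_rfl).trans (he _ hue)⟩

end Tops

end Pool.Agent.H80Z.Aro
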