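import Mathlib
import Pool.Agent.H80Z.AroTops

/-!
From the forest with tops to the minor.
-/

namespace Pool.Agent.H80Z.Aro

open Set Function

theorem lists_countable {α : Type*} {s : Set α} (hs : s.Countable) :
    {l : List α | ∀ a ∈ l, a ∈ s}.Countable := by
  have : Countable s := hs.to_subtype
  refine (countable_range (fun l : List s => l.map Subtype.val)).mono ?_
  intro l hl
  refine ⟨l.pmap Subtype.mk hl, ?_⟩
  simp [List.map_pmap]

theorem seqLT_snoc {α : Type*} (l : List α) (a : α) :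
    SeqLT (Sum.inl l) (Sum.inl (l ++ [a])) := by
  simp [SeqLT]

theorem seqLT_init {α : Type*} (h : ℕ → α) (k : ℕ) :
    SeqLT (Sum.inl ((List.range k).map h)) (Sum.inr h) := by
  simp [SeqLT]

theorem seqLT_init2 {α : Type*} {h : ℕ → α} {l : List α} (hl : SeqLT (Sum.inl l) (Sum.inr h))
    {k : ℕ} (hk : l.length < k) : SeqLT (Sum.inl l) (Sum.inl ((List.range k).map h)) := by
  simp only [SeqLT] at hl ⊢
  refine ⟨by simpa using hk, ?_⟩
  rw [← List.map_take, List.take_range, min_eq_left hk.le]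
  exact hl

theorem seqLT_split {α : Type*} {l m : List α} (h : SeqLT (Sum.inl l) (Sum.inl m)) :
    ∃ m' a, m = m' ++ [a] ∧ (l = m' ∨ SeqLT (Sum.inl l) (Sum.inl m')) := by
  simp only [SeqLT] at h ⊢
  obtain ⟨h1, h2⟩ := h
  rcases List.eq_nil_or_concat m with rfl | ⟨m', a, rfl⟩
  · simp at h1
  · refine ⟨m', a, by simp, ?_⟩
    have h3 : l.length ≤ m'.length := by simpa [Nat.lt_succ_iff] using h1
    rw [List.concat_eq_append, List.take_append_of_le_length h3] at h2
    rcases h3.eq_or_lt with h4 | h4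
    · left
      rw [h2, h4, List.take_length]
    · exact Or.inr ⟨h4, h2⟩

variable {Ω : Type*} [LinearOrder Ω] [Om1 Ω] [WellFoundedLT Ω]

theorem Tops.minor {T : Type*} {G : SimpleGraph T} {ht : T → Ω} (F : Tops G ht)
    (hc : ∀ a, {t | ht t ≤ a}.Countable)
    (hcard : ∀ E : Set T, ¬ E.Countable → ∃ e : Ω → T, Injective e ∧ range e = E) :
    ∃ (K : SimpleGraph (Seq Ω)) (S : Set Ω) (f : Ω → ℕ → Ω),
      IsTGraph SeqLT K ∧ IsStationary S ∧
      (∀ s ∈ S, ((∃ a, a < s) ∧ ∀ a < s, ∃ c, a < c ∧ c < s) ∧ (∀ n, f s n < s) ∧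
        ∀ a < s, ∃ n, a ≤ f s n) ∧
      IsMinor (K.induce {x | (∃ l, x = Sum.inl l) ∨ ∃ s ∈ S, x = Sum.inr (f s)}) G := by
  classical
  obtain ⟨D0, hD0, hall⟩ := F.exists_allGood hc
  obtain ⟨y0, hy0, hroot⟩ := F.exists_root hc
  obtain ⟨D, hD, hfat⟩ := F.exists_fat hc
  obtain ⟨L, hL, hlim⟩ := club_lim hD
  have h1 : ∀ u, ∃ e : Ω → T, F.Good u → (Injective e ∧ range e = F.Ch D u) := by
    intro u
    by_cases hu : F.Good u
    · obtain ⟨e, he⟩ := hcard _ (hfat u hu)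
      exact ⟨e, fun _ => he⟩
    · exact ⟨fun _ => u, fun h => absurd h hu⟩
  choose e he using h1
  have hech : ∀ u, F.Good u → ∀ a, e u a ∈ F.Ch D u := fun u hu a =>
    (he u hu).2 ▸ mem_range_self a
  let φ : List Ω → T := fun l => l.foldl e y0
  have hφ0 : φ [] = y0 := rfl
  have hφs : ∀ l a, φ (l ++ [a]) = e (φ l) a := fun l a => by simp [φ, List.foldl_append]
  have hφst : ∀ l, F.St D y0 (φ l) := by
    intro l
    induction l using List.reverseRecOn with
    | nil => exact ⟨hy0, Or.inl rfl⟩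
    | append_singleton l a ih => rw [hφs]; exact Tops.st_of_ch (hech _ ih.1 a)
  have hne0 : ∀ l a, φ (l ++ [a]) ≠ y0 := by
    intro l a h
    have h2 := hech _ (hφst l).1 a
    rw [← hφs, h] at h2
    exact h2.2.2 (hroot ▸ h2.2.1)
  have hφinj : ∀ l m, φ l = φ m → l = m := by
    intro l
    induction l using List.reverseRecOn with
    | nil =>
      intro m hm
      rcases List.eq_nil_or_concat m with rfl | ⟨m', a, rfl⟩
      · rfl
      · rw [List.concat_eq_append] at hm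
        exact absurd hm.symm (hne0 _ _)
    | append_singleton l a ih =>
      intro m hm
      rcases List.eq_nil_or_concat m with rfl | ⟨m', b, rfl⟩
      · exact absurd hm (hne0 _ _)
      · rw [List.concat_eq_append] at hm ⊢
        have h2 := hech _ (hφst l).1 a
        have h3 := hech _ (hφst m').1 b
        rw [hφs, hφs] at hm
        rw [← hm] at h3
        have h4 := Tops.blk_unique hroot (hφst l) (hφst m') h2.2.1 h3.2.1
        have h5 := ih m' h4
        subst h5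
        rw [(he _ (hφst l).1).1 hm]
  -- the two closure clubs
  have h2 : ∀ b, ∃ c, ∀ u a, F.Good u → ht u ≤ b → ht (e u a) ≤ b → a < c := by
    intro b
    have : (⋃ u ∈ {u | F.Good u ∧ ht u ≤ b}, (e u) ⁻¹' {t | ht t ≤ b}).Countable :=
      ((hc b).mono (fun u hu => hu.2)).biUnion
        (fun u hu => (hc b).preimage_of_injOn (he u hu.1).1.injOn)
    obtain ⟨c, hc⟩ := bdd this
    exact ⟨c, fun u a h1 h2 h3 => hc a (mem_iUnion₂.2 ⟨u, ⟨h1, h2⟩, h3⟩)⟩
  choose g1 hg1 using h2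
  have h3 : ∀ b, ∃ c, ∀ l : List Ω, (∀ a ∈ l, a ≤ b) → ht (φ l) < c := by
    intro b
    obtain ⟨c, hc⟩ := bdd ((lists_countable (cIic b)).image (fun l => ht (φ l)))
    exact ⟨c, fun l hl => hc _ ⟨l, hl, rfl⟩⟩
  choose g2 hg2 using h3
  let S : Set Ω := {s | s ∈ F.S ∧ y0 ∈ F.R s} ∩
    (D0 ∩ (L ∩ ({d | ∀ a < d, g1 a < d} ∩ {d | ∀ a < d, g2 a < d})))
  have hSst : IsStationary S := stat_inter hy0
    (club_inter hD0 (club_inter hL (club_inter (club_closure g1) (club_closure g2))))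
  obtain ⟨a0⟩ := om_nonempty (Ω := Ω)
  let c : Ω → T → Ω := fun s u => if h : ∃ a, e u a ∈ F.R s then h.choose else a0
  let w : Ω → ℕ → T := fun s k => Nat.rec y0 (fun _ u => e u (c s u)) k
  let f : Ω → ℕ → Ω := fun s k => c s (w s k)
  have hw0 : ∀ s, w s 0 = y0 := fun s => rfl
  have hws : ∀ s k, w s (k + 1) = e (w s k) (f s k) := fun s k => rfl
  have hφw : ∀ s k, φ ((List.range k).map (f s)) = w s k := by
    intro s k
    induction k with
    | zero => rfl
    | succ k ih => rw [List.range_succ, List.map_append, List.map_singleton, hφs, ih, hws]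
  have hwg : ∀ s k, F.Good (w s k) := fun s k => hφw s k ▸ (hφst _).1
  have hwmono : ∀ s, Monotone (fun k => ht (w s k)) := by
    intro s
    refine monotone_nat_of_le_succ (fun k => ?_)
    have h := hech _ (hwg s k) (f s k)
    rw [← hws] at h
    obtain ⟨n, hn⟩ := h.2.1.2.1
    have := h.1.ht_iter (n + 1)
    rw [iterate_succ_apply, hn] at this
    exact this
  have hhigh : ∀ s ∈ S, ∀ a < s, ∃ d ∈ D, a < d ∧ ∃ y ∈ F.R s, d < ht y ∧
      ∃ u ∈ F.Z s, ∃ v ∈ F.X y, G.Adj u v := by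
    intro s hs a ha
    obtain ⟨d, hd, had, hds⟩ := (hlim s hs.2.2.1).2 a ha
    exact ⟨d, hd, had, F.hR3 s hs.1.1 d hds⟩
  have hwR : ∀ s ∈ S, ∀ k, w s k ∈ F.R s := by
    intro s hs k
    induction k with
    | zero => exact hs.1.2
    | succ k ih =>
      obtain ⟨d, hd, had, y, hy, hdy, -⟩ := hhigh s hs _ (F.hR1 s hs.1.1 _ ih).2.1
      have hyb : y ∉ F.Blk D (w s k) := fun h => (h.2.2 d hd had).not_gt hdy
      obtain ⟨n, hn | hn⟩ := F.hR2 s hs.1.1 _ ih y hy
      · have := (hwg s k).ht_iter n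
        rw [hn] at this
        exact absurd (had.trans hdy) this.not_gt
      · obtain ⟨v, hv, hv2⟩ := Tops.exit_blk hs.1.1 (hall s hs.1.1 hs.2.1) n y hn hy hyb
        rw [← (he _ (hwg s k)).2] at hv2
        obtain ⟨a, rfl⟩ := hv2
        have hex : ∃ a, e (w s k) a ∈ F.R s := ⟨a, hv⟩
        have : f s k = hex.choose := dif_pos hex
        rw [hws, this]
        exact hex.choose_spec
  have hcover : ∀ s ∈ S, ∀ y ∈ F.R s, ∃ k, y ∈ F.Blk D (w s k) := by
    intro s hs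
    have key : ∀ n y, F.p^[n] y = y0 → y ∈ F.R s → ∃ k, y ∈ F.Blk D (w s k) := by
      intro n
      induction n with
      | zero =>
        rintro y rfl _
        exact ⟨0, Tops.self_mem_blk hy0⟩
      | succ n ih =>
        intro y hn hy
        obtain ⟨k, hk⟩ := ih (F.p y) hn (F.hR1 s hs.1.1 y hy).2.2
        by_cases hyk : y ∈ F.Blk D (w s k)
        · exact ⟨k, hyk⟩
        · have h := hech _ (hwg s k) (f s k)
          rw [← hws] at h
          have := Tops.ch_unique hs.1.1 hy (hwR s hs (k + 1))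
            ⟨hall s hs.1.1 hs.2.1 y hy, hk, hyk⟩ h
          exact ⟨k + 1, this ▸ Tops.self_mem_blk (hall s hs.1.1 hs.2.1 y hy)⟩
    intro y hy
    obtain ⟨n, hn | hn⟩ := F.hR2 s hs.1.1 y hy y0 hs.1.2
    · exact key n y hn hy
    · rw [iterate_fixed hroot] at hn
      exact key 0 y hn.symm hy
  have hflt : ∀ s ∈ S, ∀ n, f s n < s := by
    intro s hs n
    have h1 := (F.hR1 s hs.1.1 _ (hwR s hs (n + 1))).2.1
    refine (hg1 (ht (w s (n + 1))) (w s n) _ (hwg s n) (hwmono s n.le_succ) le_rfl).trans ?_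
    exact hs.2.2.2.1 _ h1
  have hfcof : ∀ s ∈ S, ∀ a < s, ∃ n, a ≤ f s n := by
    intro s hs a ha
    by_contra h
    push Not at h
    obtain ⟨d, hd, had, y, hy, hdy, -⟩ := hhigh s hs _ (hs.2.2.2.2 a ha)
    obtain ⟨k, hk⟩ := hcover s hs y hy
    have h4 := hg2 a ((List.range k).map (f s)) (by
      intro b hb
      obtain ⟨n, -, rfl⟩ := List.mem_map.1 hb
      exact (h n).le)
    rw [hφw] at h4
    exact (hk.2.2 d hd (h4.trans had)).not_gt hdy
  have hfinj : ∀ s ∈ S, ∀ s' ∈ S, f s = f s' → s = s' := by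
    intro s hs s' hs' h
    rcases lt_trichotomy s s' with h1 | h1 | h1
    · obtain ⟨n, hn⟩ := hfcof s' hs' s h1
      exact absurd (h ▸ hflt s hs n) hn.not_gt
    · exact h1
    · obtain ⟨n, hn⟩ := hfcof s hs s' h1
      exact absurd (h ▸ hflt s' hs' n) hn.not_gt
  let V : List Ω → Set T := fun l => ⋃ y ∈ F.Blk D (φ l), F.X y
  let rel : Seq Ω → Seq Ω → Prop := fun x y =>
    (∃ l a, x = Sum.inl l ∧ y = Sum.inl (l ++ [a])) ∨
    (∃ h k, x = Sum.inl ((List.range k).map h) ∧ y = Sum.inr h ∧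
      ∀ s ∈ S, h = f s → ∃ u ∈ V ((List.range k).map h), ∃ v ∈ F.Z s, G.Adj u v)
  have hrel : ∀ x y, rel x y → SeqLT x y := by
    rintro x y (⟨l, a, rfl, rfl⟩ | ⟨h, k, rfl, rfl, -⟩)
    · exact seqLT_snoc l a
    · exact seqLT_init h k
  refine ⟨SimpleGraph.fromRel rel, S, f, ⟨?_, ?_⟩, hSst, ?_, ?_⟩
  · intro x y hxy
    rw [SimpleGraph.fromRel_adj] at hxy
    exact hxy.2.imp (hrel _ _) (hrel _ _)
  · rintro (l | h) (m | h') hlt
    · obtain ⟨m', a, rfl, h⟩ := seqLT_split hlt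
      refine ⟨Sum.inl m', h.imp (fun h => by rw [h]) id, seqLT_snoc _ _, ?_⟩
      rw [SimpleGraph.fromRel_adj]
      exact ⟨by simp, Or.inl (Or.inl ⟨m', a, rfl, rfl⟩)⟩
    · have : ∃ k, l.length < k ∧ ∀ s ∈ S, h' = f s →
          ∃ u ∈ V ((List.range k).map h'), ∃ v ∈ F.Z s, G.Adj u v := by
        by_cases hex : ∃ s ∈ S, h' = f s
        · obtain ⟨s, hs, rfl⟩ := hex
          obtain ⟨d, hd, had, y, hy, hdy, u, hu, v, hv, huv⟩ :=
            hhigh s hs _ (F.hR1 s hs.1.1 _ (hwR s hs l.length)).2.1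
          obtain ⟨k, hk⟩ := hcover s hs y hy
          refine ⟨k, ?_, fun s' hs' h => ?_⟩
          · by_contra hkl
            push Not at hkl
            exact (hk.2.2 d hd ((hwmono s hkl).trans_lt had)).not_gt hdy
          · rw [← hfinj s hs s' hs' h]
            refine ⟨v, mem_iUnion₂.2 ⟨y, ?_, hv⟩, u, hu, huv.symm⟩
            rw [hφw]
            exact hk
        · exact ⟨l.length + 1, Nat.lt_succ_self _, fun s hs h => absurd ⟨s, hs, h⟩ hex⟩
      obtain ⟨k, hk, hk2⟩ := this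
      refine ⟨Sum.inl ((List.range k).map h'), Or.inr (seqLT_init2 hlt hk), seqLT_init _ _, ?_⟩
      rw [SimpleGraph.fromRel_adj]
      exact ⟨by simp, Or.inl (Or.inr ⟨h', k, rfl, rfl, hk2⟩)⟩
    · exact hlt.elim
    · exact hlt.elim
  · intro s hs
    refine ⟨⟨⟨_, (F.hR1 s hs.1.1 _ hs.1.2).2.1⟩, fun a ha => ?_⟩, hflt s hs, hfcof s hs⟩
    obtain ⟨d, -, h⟩ := (hlim s hs.2.2.1).2 a ha
    exact ⟨d, h⟩
  · let B : Seq Ω → Set T := Sum.elim V (fun h => {t | ∃ s ∈ S, h = f s ∧ t ∈ F.Z s})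
    have hBZ : ∀ s ∈ S, B (Sum.inr (f s)) = F.Z s := by
      intro s hs
      ext t
      constructor
      · rintro ⟨s', hs', h, h'⟩
        rw [hfinj s hs s' hs' h]
        exact h'
      · intro h
        exact ⟨s, hs, rfl, h⟩
    have hVZ : ∀ l, ∀ s ∈ S, Disjoint (V l) (F.Z s) := by
      intro l s hs
      refine Set.disjoint_left.2 (fun x hx hx' => ?_)
      obtain ⟨y, hy, hx⟩ := mem_iUnion₂.1 hx
      exact Set.disjoint_left.1 (F.hZX s hs.1.1 y hy.1.mem) hx' hx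
    have hadj : ∀ x y, rel x y → (∀ h, y = Sum.inr h → ∃ s ∈ S, h = f s) →
        ∃ a ∈ B x, ∃ b ∈ B y, G.Adj a b := by
      rintro x y (⟨l, a, rfl, rfl⟩ | ⟨h, k, rfl, rfl, h2⟩) hy
      · have h := hech _ (hφst l).1 a
        rw [← hφs] at h
        rcases F.hp _ h.1.mem with h4 | ⟨-, u, hu, v, hv, huv⟩
        · exact absurd (h4 ▸ h.2.1) h.2.2
        · exact ⟨u, mem_iUnion₂.2 ⟨_, h.2.1, hu⟩, v,
            mem_iUnion₂.2 ⟨_, Tops.self_mem_blk h.1, hv⟩, huv⟩
      · obtain ⟨s, hs, rfl⟩ := hy h rfl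
        rw [hBZ s hs]
        exact h2 s hs rfl
    refine ⟨fun x => B x.1, ?_, ?_, ?_⟩
    · rintro ⟨x, ⟨l, rfl⟩ | ⟨s, hs, rfl⟩⟩
      · exact (Tops.blk_conn (hφst l).1).connected
      · show (G.induce (B (Sum.inr (f s)))).Connected
        rw [hBZ s hs]
        exact (F.hZc s hs.1.1).connected
    · rintro ⟨x, ⟨l, rfl⟩ | ⟨s, hs, rfl⟩⟩ ⟨y, ⟨m, rfl⟩ | ⟨s', hs', rfl⟩⟩ hne
      · refine Set.disjoint_left.2 (fun t h1 h2 => hne ?_)
        obtain ⟨y, hy, h1⟩ := mem_iUnion₂.1 h1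
        obtain ⟨z, hz, h2⟩ := mem_iUnion₂.1 h2
        have hyz : y = z := by
          by_contra h
          exact Set.disjoint_left.1 (F.hXd y hy.1.mem z hz.1.mem h) h1 h2
        subst hyz
        have := hφinj l m (Tops.blk_unique hroot (hφst l) (hφst m) hy hz)
        subst this
        rfl
      · show Disjoint (V l) (B (Sum.inr (f s')))
        rw [hBZ s' hs']
        exact hVZ l s' hs'
      · show Disjoint (B (Sum.inr (f s))) (V m)
        rw [hBZ s hs]
        exact (hVZ m s hs).symm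
      · show Disjoint (B (Sum.inr (f s))) (B (Sum.inr (f s')))
        rw [hBZ s hs, hBZ s' hs']
        refine F.hZZ s hs.1.1 s' hs'.1.1 ?_
        rintro rfl
        exact hne rfl
    · rintro ⟨x, hx⟩ ⟨y, hy⟩ hxy
      have hxy' : (SimpleGraph.fromRel rel).Adj x y := hxy
      rw [SimpleGraph.fromRel_adj] at hxy'
      have hU : ∀ z : Seq Ω, ((∃ l, z = Sum.inl l) ∨ ∃ s ∈ S, z = Sum.inr (f s)) →
          ∀ h, z = Sum.inr h → ∃ s ∈ S, h = f s := by
        rintro z (⟨l, rfl⟩ | ⟨s, hs, rfl⟩) h hz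
        · cases hz
        · exact ⟨s, hs, (Sum.inr.inj hz).symm⟩
      rcases hxy'.2 with h | h
      · exact hadj x y h (hU y hy)
      · obtain ⟨a, ha, b, hb, hab⟩ := hadj y x h (hU x hx)
        exact ⟨b, hb, a, ha, hab.symm⟩

end Pool.Agent.H80Z.Aro
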