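import Mathlib
import Pool.Agent.H80Z.AroTops2

/-!
Contracting a `T`-graph along a club.
-/

namespace Pool.Agent.H80Z.Aro

open Set Function

variable {Ω : Type*} [LinearOrder Ω] [Om1 Ω] [WellFoundedLT Ω]
variable {T : Type*} [PartialOrder T]

/-- A tree graph with a height function. -/
structure HT (G : SimpleGraph T) (ht : T → Ω) : Prop where
  chain : ∀ {s s' t : T}, s ≤ t → s' ≤ t → s ≤ s' ∨ s' ≤ s
  mono : ∀ {s t : T}, s < t → ht s < ht t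
  anc : ∀ {a : Ω} {t : T}, a ≤ ht t → ∃ s ≤ t, ht s = a
  lev : ∀ a, {t | ht t ≤ a}.Countable
  unc : ¬ (univ : Set T).Countable
  adj : ∀ {s t : T}, G.Adj s t → s < t ∨ t < s
  cof : ∀ {s t : T}, s < t → ∃ x, s ≤ x ∧ x < t ∧ G.Adj x t

/-- neighbours of the cone above `t` -/
def Nb (G : SimpleGraph T) (t : T) : Set T := {x | x < t ∧ ∃ y, t ≤ y ∧ G.Adj x y}

/-- blocks -/
def XB (ht : T → Ω) (C : Set Ω) (t : T) : Set T := {x | t ≤ x ∧ ∀ d ∈ C, ht t < d → ht x < d}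

/-- lower neighbours in the contracted graph -/
def AB (G : SimpleGraph T) (ht : T → Ω) (C : Set Ω) (t : T) : Set T :=
  {r | ht r ∈ C ∧ r < t ∧ ∃ x ∈ XB ht C r, ∃ y, t ≤ y ∧ G.Adj x y}

/-- good clubs -/
structure GoodClub (G : SimpleGraph T) (ht : T → Ω) (C : Set Ω) : Prop where
  club : IsClub C
  low : ∀ a, ∃ c ∈ C, c ≤ a
  fin : ∀ t, ht t ∈ C → ∀ a < ht t, (Nb G t ∩ {x | ht x < a}).Finite
  near : ∀ d ∈ C, ∀ t, ht t < d → ∀ x ∈ Nb G t, ∃ y, t ≤ y ∧ G.Adj x y ∧ ht y < d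

variable {G : SimpleGraph T} {ht : T → Ω}

omit [Om1 Ω] [WellFoundedLT Ω] in
theorem GoodClub.sub {C D : Set Ω} (h : GoodClub G ht C) (hD : IsClub D) (hs : D ⊆ C)
    (hl : ∀ a, ∃ c ∈ D, c ≤ a) : GoodClub G ht D :=
  ⟨hD, hl, fun t h1 => h.fin t (hs h1), fun d hd => h.near d (hs hd)⟩

namespace HT

variable (H : HT G ht)
include H

omit [Om1 Ω] [WellFoundedLT Ω] in
theorem mono' {s t : T} (h : s ≤ t) : ht s ≤ ht t := by
  rcases h.eq_or_lt with rfl | h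
  · exact le_rfl
  · exact (H.mono h).le

omit [Om1 Ω] [WellFoundedLT Ω] in
theorem lt_of_ht {s t y : T} (hs : s ≤ y) (h : t ≤ y) (hst : ht s < ht t) : s < t := by
  rcases H.chain hs h with h1 | h1
  · exact lt_of_le_of_ne h1 (fun h2 => by rw [h2] at hst; exact lt_irrefl _ hst)
  · exact absurd (H.mono' h1) hst.not_ge

omit [Om1 Ω] [WellFoundedLT Ω] in
theorem le_of_ht {s t y : T} (hs : s ≤ y) (h : t ≤ y) (hst : ht s ≤ ht t) : s ≤ t := by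
  rcases H.chain hs h with h1 | h1
  · exact h1
  · rcases h1.eq_or_lt with rfl | h1
    · exact le_rfl
    · exact absurd (H.mono h1) hst.not_gt

omit [Om1 Ω] in
theorem wf : WellFounded (fun a b : T => a < b) :=
  Subrelation.wf (fun h => H.mono h) (InvImage.wf ht wellFounded_lt)

omit [Om1 Ω] in
theorem conn_cone {m : T} {P : T → Prop} (hm : P m) (hP : ∀ x y, y ≤ x → P x → P y) :
    Conn G {x | m ≤ x ∧ P x} := by
  refine conn_of_root (m := m) ⟨le_rfl, hm⟩ (fun x => ?_)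
  induction x using H.wf.induction with
  | _ x ih =>
    intro hx
    rcases hx.1.eq_or_lt with rfl | h
    · exact Relation.ReflTransGen.refl
    · obtain ⟨u, hmu, hux, hadj⟩ := H.cof h
      have hu : u ∈ {x | m ≤ x ∧ P x} := ⟨hmu, hP x u hux.le hx.2⟩
      exact (ih u hux hu).step hu hx hadj

omit [Om1 Ω] [WellFoundedLT Ω] in
theorem level_ne (a : Ω) : ∃ t, ht t = a := by
  by_contra h
  push Not at h
  refine H.unc ((H.lev a).mono (fun t _ => ?_))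
  by_contra h2
  obtain ⟨s, -, hs⟩ := H.anc (not_le.1 h2).le
  exact h s hs

omit [Om1 Ω] [WellFoundedLT Ω] in
theorem mem_nb {x y t : T} (hty : t ≤ y) (hxy : G.Adj x y) (hx : ht x < ht t) : x ∈ Nb G t := by
  refine ⟨?_, y, hty, hxy⟩
  rcases H.adj hxy with h | h
  · exact H.lt_of_ht h.le hty hx
  · exact absurd (hx.trans_le (H.mono' hty)) (H.mono h).not_gt

omit [WellFoundedLT Ω] in
theorem exists_near : ∃ g : Ω → Ω, ∀ a, a < g a ∧
    ∀ t, ht t ≤ a → ∀ x ∈ Nb G t, ∃ y, t ≤ y ∧ G.Adj x y ∧ ht y < g a := by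
  have h1 : ∀ q : T × T, ∃ y, q.2 ∈ Nb G q.1 → (q.1 ≤ y ∧ G.Adj q.2 y) := by
    intro q
    by_cases h : q.2 ∈ Nb G q.1
    · obtain ⟨y, hy⟩ := h.2
      exact ⟨y, fun _ => hy⟩
    · exact ⟨q.1, fun h' => absurd h' h⟩
  choose k hk using h1
  have h2 : ∀ a, ∃ b, a < b ∧
      ∀ t, ht t ≤ a → ∀ x ∈ Nb G t, ∃ y, t ≤ y ∧ G.Adj x y ∧ ht y < b := by
    intro a
    obtain ⟨b, hb⟩ := bdd ((((H.lev a).prod (H.lev a)).image (fun q => ht (k q))).insert a)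
    refine ⟨b, hb a (mem_insert _ _), fun t h x hx => ⟨k (t, x), (hk (t, x) hx).1, (hk (t, x) hx).2, ?_⟩⟩
    exact hb _ (mem_insert_of_mem _ ⟨(t, x), ⟨h, (H.mono hx.1).le.trans h⟩, rfl⟩)
  choose g hg using h2
  exact ⟨g, hg⟩

theorem exists_good (hfin : ∀ a, ∃ b, ∀ t, b ≤ ht t → (Nb G t ∩ {x | ht x < a}).Finite) :
    ∃ C, GoodClub G ht C := by
  choose k hk using hfin
  obtain ⟨g, hg⟩ := H.exists_near
  refine ⟨{d | ∀ a < d, k a < d} ∩ {d | ∀ a < d, g a < d},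
    club_inter (club_closure k) (club_closure g), fun a => ?_, fun t h a ha => ?_,
    fun d hd t htd x hx => ?_⟩
  · have hne : (univ : Set Ω).Nonempty := ⟨a, trivial⟩
    have hm : ∀ b, ¬ b < wellFounded_lt.min _ hne := fun b =>
      wellFounded_lt.not_lt_min _ (mem_univ b)
    exact ⟨_, ⟨fun b hb => absurd hb (hm b), fun b hb => absurd hb (hm b)⟩, not_lt.1 (hm a)⟩
  · exact hk a t (h.1 a ha).le
  · obtain ⟨y, h1, h2, h3⟩ := (hg (ht t)).2 t le_rfl x hx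
    exact ⟨y, h1, h2, h3.trans (hd.2 _ htd)⟩

omit [Om1 Ω] in
theorem xb_conn (C : Set Ω) (t : T) : Conn G (XB ht C t) :=
  H.conn_cone (P := fun x => ∀ d ∈ C, ht t < d → ht x < d) (fun _ _ h => h)
    (fun _ _ hyx hx d hd h => (H.mono' hyx).trans_lt (hx d hd h))

omit [Om1 Ω] [WellFoundedLT Ω] in
theorem xb_unique {C : Set Ω} {s t x : T} (hs : ht s ∈ C) (h : ht t ∈ C) (h1 : x ∈ XB ht C s)
    (h2 : x ∈ XB ht C t) : s = t := by
  have a1 : ht t ≤ ht s := not_lt.1 (fun h3 => (h1.2 _ h h3).not_ge (H.mono' h2.1))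
  have a2 : ht s ≤ ht t := not_lt.1 (fun h3 => (h2.2 _ hs h3).not_ge (H.mono' h1.1))
  exact le_antisymm (H.le_of_ht h1.1 h2.1 a2) (H.le_of_ht h2.1 h1.1 a1)

omit [Om1 Ω] in
theorem xb_cover {C : Set Ω} (hC : GoodClub G ht C) (x : T) :
    ∃ r, ht r ∈ C ∧ x ∈ XB ht C r := by
  obtain ⟨d, hd, hdx, hmax⟩ := exists_lev hC.club (hC.low (ht x))
  obtain ⟨r, hr, rfl⟩ := H.anc hdx
  exact ⟨r, hd, hr, fun e he h => not_le.1 (fun h2 => (hmax e he h2).not_gt h)⟩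

omit H [Om1 Ω] [WellFoundedLT Ω] in
theorem ab_down {C : Set Ω} {r u t : T} (h : r ∈ AB G ht C t) (hru : r < u) (hut : u ≤ t) :
    r ∈ AB G ht C u := by
  obtain ⟨h1, -, x, hx, y, hy, hxy⟩ := h
  exact ⟨h1, hru, x, hx, y, hut.trans hy, hxy⟩

theorem ab_adj {C : Set Ω} (hC : GoodClub G ht C) {r t : T} (htC : ht t ∈ C)
    (h : r ∈ AB G ht C t) : ∃ a ∈ XB ht C r, ∃ b ∈ XB ht C t, G.Adj a b := by
  obtain ⟨-, hrt, x, hx, y, hy, hxy⟩ := h
  have hnb := H.mem_nb hy hxy (hx.2 _ htC (H.mono hrt))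
  obtain ⟨d, hd, htd, hmin⟩ := exists_next hC.club (ht t)
  obtain ⟨z, h1, h2, h3⟩ := hC.near d hd t htd x hnb
  exact ⟨x, hx, z, ⟨h1, fun e he h => h3.trans_le (hmin e he h)⟩, h2⟩

omit [Om1 Ω] in
theorem ab_fin {C : Set Ω} (hC : GoodClub G ht C) {t : T} (htC : ht t ∈ C) {a : Ω}
    (ha : a < ht t) : {r | r ∈ AB G ht C t ∧ ht r ≤ a}.Finite := by
  obtain ⟨d, hd, hda, hmax⟩ := exists_lev hC.club (hC.low a)
  have h1 : (⋃ x ∈ Nb G t ∩ {x | ht x < d}, {r | ht r ∈ C ∧ x ∈ XB ht C r}).Finite :=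
    (hC.fin t htC d (hda.trans_lt ha)).biUnion (fun x _ => Set.Subsingleton.finite
      (fun r hr s hs => H.xb_unique hr.1 hs.1 hr.2 hs.2))
  have h2 : {r | r < t ∧ ht r = d}.Finite := Set.Subsingleton.finite (fun r hr s hs =>
    le_antisymm (H.le_of_ht hr.1.le hs.1.le (by rw [hr.2, hs.2]))
      (H.le_of_ht hs.1.le hr.1.le (by rw [hr.2, hs.2])))
  refine (h1.union h2).subset ?_
  rintro r ⟨⟨hr, hrt, x, hx, y, hy, hxy⟩, hra⟩
  rcases (hmax _ hr hra).eq_or_lt with h | h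
  · exact Or.inr ⟨hrt, h⟩
  · exact Or.inl (mem_iUnion₂.2 ⟨x, ⟨H.mem_nb hy hxy (hx.2 _ htC (H.mono hrt)), hx.2 d hd h⟩,
      hr, hx⟩)

omit [Om1 Ω] in
theorem ab_cof {C : Set Ω} (hC : GoodClub G ht C) {t : T} {d : Ω} (hd : d ∈ C)
    (hdt : d < ht t) : ∃ r ∈ AB G ht C t, d ≤ ht r := by
  obtain ⟨s, hs, rfl⟩ := H.anc hdt.le
  have hst : s < t := H.lt_of_ht hs le_rfl hdt
  obtain ⟨u, hsu, hut, hadj⟩ := H.cof hst
  obtain ⟨r, hr, hu⟩ := H.xb_cover hC u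
  refine ⟨r, ⟨hr, hu.1.trans_lt hut, u, hu, t, le_rfl, hadj⟩, not_lt.1 (fun h => ?_)⟩
  exact (hu.2 _ hd h).not_ge (H.mono' hsu)

theorem core {C : Set Ω} (hC : GoodClub G ht C) {Y : Set T} (hY : ∀ y ∈ Y, ht y ∈ C)
    (hYf : ∀ y ∈ Y, (AB G ht C y ∩ Y).Finite) {S : Set Ω} (hS : IsStationary S) (τ : Ω → T)
    (hτ : ∀ s ∈ S, ht (τ s) = s ∧ s ∈ C ∧ τ s ∉ Y ∧ (AB G ht C (τ s) ∩ Y).Infinite) :
    Nonempty (Tops G ht) := by
  classical
  have h1 : ∀ y, ∃ z, (y ∈ Y → (AB G ht C y ∩ Y).Nonempty →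
      (z ∈ AB G ht C y ∩ Y ∧ ∀ x ∈ AB G ht C y ∩ Y, x ≤ z)) ∧
      (¬ (AB G ht C y ∩ Y).Nonempty → z = y) := by
    intro y
    by_cases hne : (AB G ht C y ∩ Y).Nonempty
    · by_cases hy : y ∈ Y
      · obtain ⟨z, hz, hmax⟩ := Set.exists_max_image _ ht (hYf y hy) hne
        exact ⟨z, fun _ _ => ⟨hz, fun x hx => H.le_of_ht hx.1.2.1.le hz.1.2.1.le (hmax x hx)⟩,
          fun h => absurd hne h⟩
      · exact ⟨y, fun h => absurd h hy, fun _ => rfl⟩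
    · exact ⟨y, fun _ h => absurd h hne, fun _ => rfl⟩
  choose p hp1 hp2 using h1
  have hpY : ∀ y ∈ Y, p y ∈ Y ∧ p y ≤ y := by
    intro y hy
    by_cases hne : (AB G ht C y ∩ Y).Nonempty
    · exact ⟨(hp1 y hy hne).1.2, (hp1 y hy hne).1.1.2.1.le⟩
    · rw [hp2 y hne]
      exact ⟨hy, le_rfl⟩
  have hpn : ∀ y ∈ Y, ∀ n, p^[n] y ∈ Y ∧ p^[n] y ≤ y := by
    intro y hy n
    induction n with
    | zero => exact ⟨hy, le_rfl⟩
    | succ n ih =>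
      rw [iterate_succ_apply']
      exact ⟨(hpY _ ih.1).1, (hpY _ ih.1).2.trans ih.2⟩
  have hanc : ∀ y ∈ Y, ∀ x ∈ AB G ht C y ∩ Y, ∃ n, p^[n] y = x := by
    intro y
    induction y using H.wf.induction with
    | _ y ih =>
      intro hy x hx
      obtain ⟨hz, hmax⟩ := hp1 y hy ⟨x, hx⟩
      rcases (hmax x hx).eq_or_lt with h | h
      · exact ⟨1, h.symm⟩
      · obtain ⟨n, hn⟩ := ih (p y) hz.1.2.1 hz.2 x ⟨ab_down hx.1 h hz.1.2.1.le, hx.2⟩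
        exact ⟨n + 1, hn⟩
  have hcomp : ∀ (x : T) (n m : ℕ), ∃ k, p^[k] (p^[n] x) = p^[m] x ∨ p^[k] (p^[m] x) = p^[n] x := by
    intro x n m
    rcases le_total n m with h | h
    · obtain ⟨k, rfl⟩ := Nat.exists_eq_add_of_le' h
      exact ⟨k, Or.inl (iterate_add_apply p k n x).symm⟩
    · obtain ⟨k, rfl⟩ := Nat.exists_eq_add_of_le' h
      exact ⟨k, Or.inr (iterate_add_apply p k m x).symm⟩
  have hτC : ∀ s ∈ S, ht (τ s) ∈ C := fun s hs => by rw [(hτ s hs).1]; exact (hτ s hs).2.1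
  refine ⟨{
    Y := Y, X := XB ht C, p := p, S := S, Z := fun s => XB ht C (τ s)
    R := fun s => {y | ∃ x ∈ AB G ht C (τ s) ∩ Y, ∃ n, p^[n] x = y}
    hXc := fun y _ => H.xb_conn C y
    hXd := fun y hy z hz hne => Set.disjoint_left.2
      (fun x h1 h2 => hne (H.xb_unique (hY y hy) (hY z hz) h1 h2))
    hp := ?_
    hS := hS
    hZc := fun s _ => H.xb_conn C _
    hZX := fun s hs y hy => Set.disjoint_left.2 (fun x h1 h2 =>
      (hτ s hs).2.2.1 (H.xb_unique (hτC s hs) (hY y hy) h1 h2 ▸ hy))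
    hZZ := fun s hs s' hs' hne => Set.disjoint_left.2 (fun x h1 h2 => hne (by
      rw [← (hτ s hs).1, ← (hτ s' hs').1, H.xb_unique (hτC s hs) (hτC s' hs') h1 h2]))
    hR0 := ?_
    hR1 := ?_
    hR2 := ?_
    hR3 := ?_ }⟩
  · intro y hy
    by_cases hne : (AB G ht C y ∩ Y).Nonempty
    · exact Or.inr ⟨H.mono (hp1 y hy hne).1.1.2.1, H.ab_adj hC (hY y hy) (hp1 y hy hne).1.1⟩
    · exact Or.inl (hp2 y hne)
  · intro s hs
    obtain ⟨x, hx⟩ := (hτ s hs).2.2.2.nonempty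
    exact ⟨x, x, hx, 0, rfl⟩
  · rintro s hs y ⟨x, hx, n, rfl⟩
    refine ⟨(hpn x hx.2 n).1, ?_, x, hx, n + 1, iterate_succ_apply' p n x⟩
    rw [← (hτ s hs).1]
    exact H.mono ((hpn x hx.2 n).2.trans_lt hx.1.2.1)
  · rintro s hs y ⟨x, hx, n, rfl⟩ z ⟨x', hx', m, rfl⟩
    rcases H.chain hx.1.2.1.le hx'.1.2.1.le with h | h
    · rcases h.eq_or_lt with rfl | h
      · exact hcomp x n m
      · obtain ⟨k, rfl⟩ := hanc x' hx'.2 x ⟨ab_down hx.1 h hx'.1.2.1.le, hx.2⟩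
        rw [← iterate_add_apply]
        exact hcomp x' _ m
    · rcases h.eq_or_lt with rfl | h
      · exact hcomp x' n m
      · obtain ⟨k, rfl⟩ := hanc x hx.2 x' ⟨ab_down hx'.1 h hx.1.2.1.le, hx'.2⟩
        rw [← iterate_add_apply p m k]
        exact hcomp x n _
  · intro s hs a ha
    have hfin := H.ab_fin hC (hτC s hs) (a := a) (by rw [(hτ s hs).1]; exact ha)
    obtain ⟨y, hy, hy2⟩ := ((hτ s hs).2.2.2.sdiff hfin).nonempty
    refine ⟨y, ⟨y, hy, 0, rfl⟩, not_le.1 (fun h => hy2 ⟨hy.1, h⟩), ?_⟩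
    obtain ⟨u, hu, v, hv, huv⟩ := H.ab_adj hC (hτC s hs) hy.1
    exact ⟨v, hv, u, hu, huv.symm⟩

omit [Om1 Ω] in
theorem exists_kernel (C : Set Ω) :
    ∃ Y : Set T, ∀ y, y ∈ Y ↔ ht y ∈ C ∧ (AB G ht C y ∩ Y).Finite := by
  let K : T → Prop := H.wf.fix (C := fun _ => Prop)
    (fun y ih => ht y ∈ C ∧ {x | ∃ h : x < y, x ∈ AB G ht C y ∧ ih x h}.Finite)
  refine ⟨{y | K y}, fun y => ?_⟩
  have : K y = (ht y ∈ C ∧ {x | ∃ _ : x < y, x ∈ AB G ht C y ∧ K x}.Finite) :=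
    H.wf.fix_eq _ y
  have h2 : {x | ∃ _ : x < y, x ∈ AB G ht C y ∧ K x} = AB G ht C y ∩ {y | K y} := by
    ext x
    exact ⟨fun ⟨_, h⟩ => h, fun h => ⟨h.1.2.1, h⟩⟩
  rw [mem_ofPred_eq, this, h2]

theorem tops_of_good {C : Set Ω} (hC : GoodClub G ht C) : Nonempty (Tops G ht) := by
  obtain ⟨Y, hY⟩ := H.exists_kernel C
  by_cases hst : IsStationary {s | s ∈ C ∧ ∃ t, ht t = s ∧ t ∉ Y}
  · have : ∀ s, ∃ t, s ∈ {s | s ∈ C ∧ ∃ t, ht t = s ∧ t ∉ Y} → ht t = s ∧ t ∉ Y := by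
      intro s
      by_cases h : s ∈ {s | s ∈ C ∧ ∃ t, ht t = s ∧ t ∉ Y}
      · obtain ⟨t, h⟩ := h.2
        exact ⟨t, fun _ => h⟩
      · obtain ⟨t, -⟩ := H.level_ne s
        exact ⟨t, fun h' => absurd h' h⟩
    choose τ hτ using this
    refine H.core hC (fun y hy => ((hY y).1 hy).1) (fun y hy => ((hY y).1 hy).2) hst τ ?_
    intro s hs
    refine ⟨(hτ s hs).1, hs.1, (hτ s hs).2, fun h => (hτ s hs).2 ((hY _).2 ⟨?_, h⟩)⟩
    rw [(hτ s hs).1]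
    exact hs.1
  obtain ⟨C', hC', hdisj⟩ := not_isStationary_iff.1 hst
  set C1 := C ∩ C' with hC1def
  have hC1 : IsClub C1 := club_inter hC.club hC'
  have hin : ∀ t, ht t ∈ C1 → t ∈ Y := by
    intro t h
    by_contra h2
    exact Set.disjoint_left.1 hdisj ⟨h.1, t, rfl, h2⟩ h.2
  choose nx hnx1 hnx2 hnx3 using exists_next hC.club
  obtain ⟨a0⟩ := om_nonempty (Ω := Ω)
  have hne : (univ : Set Ω).Nonempty := ⟨a0, trivial⟩
  set o := wellFounded_lt.min _ hne with ho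
  have hm : ∀ b, o ≤ b := fun b => not_lt.1 (wellFounded_lt.not_lt_min _ (mem_univ b))
  have hoC : o ∈ C := by
    obtain ⟨c, hc, hco⟩ := hC.low o
    rwa [← le_antisymm hco (hm c)]
  let C2 : Set Ω := {e | e = o ∨ e ∈ C1 ∨ ∃ d ∈ C1, e = nx d}
  have hC2 : IsClub C2 := by
    refine ⟨?_, fun x => ?_⟩
    · rintro s hs ⟨x0, hx0⟩ - x hx
      by_cases hxs : x ∈ s
      · exact hs hxs
      have hbt : ∀ a < x, ∃ c ∈ s, a < c ∧ c < x := by
        intro a ha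
        obtain ⟨c, hc, h1, h2⟩ := hx.exists_between ha
        exact ⟨c, hc, h1, lt_of_le_of_ne h2 (fun h => hxs (h ▸ hc))⟩
      have hx0x : x0 < x := lt_of_le_of_ne (hx.1 hx0) (fun h => hxs (h ▸ hx0))
      refine Or.inr (Or.inl (mem_club_of_lim hC1 ⟨x0, hx0x⟩ (fun a ha => ?_)))
      obtain ⟨s1, hs1, h1, h2⟩ := hbt a ha
      obtain ⟨s2, hs2, h3, h4⟩ := hbt s1 h2
      have hs1C : s1 ∈ C := by
        rcases hs hs1 with h | h | ⟨d, -, h⟩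
        · rw [h]; exact hoC
        · exact h.1
        · rw [h]; exact hnx1 d
      rcases hs hs2 with h | h | ⟨d, hd, h⟩
      · rw [h] at h3
        exact absurd (hm s1) h3.not_ge
      · exact ⟨s2, h, h1.trans h3, h4⟩
      · refine ⟨d, hd, h1.trans_le (not_lt.1 (fun h5 => ?_)), ?_⟩
        · rw [h] at h3
          exact (hnx3 d s1 hs1C h5).not_gt h3
        · rw [h] at h4
          exact (hnx2 d).trans h4
    · obtain ⟨c, hc, hxc⟩ := hC1.isCofinal x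
      exact ⟨c, Or.inr (Or.inl hc), hxc⟩
  have hsub : C2 ⊆ C := by
    rintro e (h | h | ⟨d, -, h⟩)
    · rw [h]; exact hoC
    · exact h.1
    · rw [h]; exact hnx1 d
  have hG2 : GoodClub G ht C2 := hC.sub hC2 hsub (fun a => ⟨o, Or.inl rfl, hm a⟩)
  obtain ⟨L, hL, hlim⟩ := club_lim hC1
  choose τ hτ using H.level_ne
  have := om_nonempty (Ω := Ω)
  refine H.core hG2 (Y := {y | ∃ d ∈ C1, ht y = nx d}) (fun y hy => Or.inr (Or.inr hy)) ?_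
    (S := L ∩ Ioi o) ((club_inter hL (club_Ioi o)).isStationary cof_ne) τ ?_
  · rintro y ⟨d, hd, hy⟩
    refine (H.ab_fin hG2 (t := y) (Or.inr (Or.inr ⟨d, hd, hy⟩)) (a := d)
      (by rw [hy]; exact hnx2 d)).subset ?_
    rintro r ⟨hr, -⟩
    refine ⟨hr, not_lt.1 (fun h => ?_)⟩
    have := H.mono hr.2.1
    rw [hy] at this
    exact (hnx3 d _ (hsub hr.1) h).not_gt this
  · rintro s ⟨hsL, hso⟩
    obtain ⟨hs1, hs2⟩ := hlim s hsL
    refine ⟨hτ s, Or.inr (Or.inl hs1), ?_, fun hfin => ?_⟩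
    · rintro ⟨d, hd, h⟩
      rw [hτ s] at h
      obtain ⟨c, hc, h1, h2⟩ := hs2 d (by rw [h]; exact hnx2 d)
      rw [h] at h2
      exact (hnx3 d c hc.1 h1).not_gt h2
    have hf1 : (AB G ht C (τ s) ∩ Y).Finite := ((hY _).1 (hin _ (by rw [hτ]; exact hs1))).2
    obtain ⟨b, hb, hb2⟩ := fin_bdd ht (hfin.union hf1) (d := s) ⟨o, hso⟩ (by
      rintro t (h | h)
      · rw [← hτ s]; exact H.mono h.1.2.1
      · rw [← hτ s]; exact H.mono h.1.2.1)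
    obtain ⟨d0, hd0, hbd, hds⟩ := hs2 b hb
    obtain ⟨r0, hr0, hdr⟩ := H.ab_cof hC (t := τ s) hd0.1 (by rw [hτ]; exact hds)
    have hr0C : ht r0 ∉ C1 := fun h =>
      (hb2 r0 (Or.inr ⟨hr0, hin _ h⟩)).not_gt (hbd.trans_le hdr)
    obtain ⟨d, hd, hdr0, hmax⟩ := exists_lev hC1 ⟨d0, hd0, hdr⟩
    have hdlt : d < ht r0 := lt_of_le_of_ne hdr0 (fun h => hr0C (h ▸ hd))
    obtain ⟨r, hr, hrd⟩ := H.anc (hnx3 d _ hr0.1 hdlt)
    obtain ⟨-, hr0t, x, hx, y, hy, hxy⟩ := hr0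
    have hrA : r ∈ AB G ht C2 (τ s) := by
      refine ⟨Or.inr (Or.inr ⟨d, hd, hrd⟩), hr.trans_lt hr0t, x, ⟨hr.trans hx.1, ?_⟩, y, hy, hxy⟩
      intro e he hre
      refine hx.2 e (hsub he) ?_
      rw [hrd] at hre
      rcases he with h | h | ⟨d', hd', h⟩
      · rw [h] at hre
        exact absurd (hm _) hre.not_ge
      · exact not_le.1 (fun h2 => (hmax e h h2).not_gt ((hnx2 d).trans hre))
      · rw [h] at hre ⊢
        have h3 : d < d' := not_le.1 (fun h4 =>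
          (hnx3 d' _ (hnx1 d) (h4.trans_lt (hnx2 d))).not_gt hre)
        exact (not_le.1 (fun h2 => (hmax d' hd' h2).not_gt h3)).trans (hnx2 d')
    have := hb2 r (Or.inl ⟨hrA, d, hd, hrd⟩)
    rw [hrd] at this
    exact this.not_gt ((hbd.trans_le (hmax d0 hd0 hdr)).trans (hnx2 d))

end HT

end Pool.Agent.H80Z.Aro
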