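import Mathlib
import Pool.Agent.H80Z.AroTree

/-!
Every Aronszajn tree graph has an `(ℵ₀, ℵ₁)`-graph or a graph `G_{ω₁}(S)` as a minor.
-/

namespace Pool.Agent.H80Z.Aro

open Set Function

universe u

section
variable {Ω : Type*} [LinearOrder Ω] [Om1 Ω] [WellFoundedLT Ω]
variable {T : Type u} [PartialOrder T] {G : SimpleGraph T} {ht : T → Ω}

omit [PartialOrder T] in
theorem card_of_unc (hT : Cardinal.mk T = Cardinal.aleph 1) {E : Set T} (hE : ¬ E.Countable) :
    Cardinal.mk E = Cardinal.aleph 1 := by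
  apply le_antisymm
  · rw [← hT]
    exact Cardinal.mk_set_le E
  · exact not_lt.1 (fun h => hE (Cardinal.le_aleph0_iff_set_countable.1 (Cardinal.lt_aleph_one_iff.1 h)))

theorem HT.bip_minor (H : HT G ht) (hT : Cardinal.mk T = Cardinal.aleph 1) {a : Ω}
    (hbad : ∀ b, ∃ t, b ≤ ht t ∧ (Nb G t ∩ {x | ht x < a}).Infinite) :
    ∃ (W : Type u) (K : SimpleGraph W), IsAleph01Graph K ∧ IsMinor K G := by
  classical
  have h1 : ∀ b, ∃ t, ht t = b ∧ (a ≤ b → (Nb G t ∩ {x | ht x < a}).Infinite) := by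
    intro b
    obtain ⟨t, hbt, hinf⟩ := hbad b
    obtain ⟨u, hu, rfl⟩ := H.anc hbt
    refine ⟨u, rfl, fun hab => hinf.mono ?_⟩
    rintro x ⟨⟨-, y, hy, hxy⟩, hx⟩
    exact ⟨H.mem_nb (hu.trans hy) hxy (lt_of_lt_of_le hx hab), hx⟩
  choose τ hτ hτ2 using h1
  obtain ⟨g, hg⟩ := H.exists_near
  let D : Set Ω := {d | ∀ b < d, g b < d} ∩ Ioi a
  have hD : IsClub D := club_inter (club_closure g) (club_Ioi a)
  let W : Set T := {x | ht x < a ∨ ∃ d ∈ D, x = τ d}
  let A : Set W := {x | ht x.1 < a}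
  let rel : W → W → Prop := fun x y => x ∈ A ∧ y ∉ A ∧ x.1 ∈ Nb G y.1
  have hnA : ∀ y : W, y ∉ A → ∃ d ∈ D, y.1 = τ d := fun y hy => y.2.resolve_left hy
  have hcA : {x | ht x < a}.Countable := (H.lev a).mono (fun x hx => le_of_lt hx)
  have hnb : ∀ y : W, y ∉ A → ((SimpleGraph.fromRel rel).neighborSet y ∩ A).Infinite := by
    intro y hy
    obtain ⟨d, hd, hyd⟩ := hnA y hy
    refine Set.Infinite.of_image Subtype.val ((hτ2 d hd.2.le).mono ?_)
    rintro x ⟨hx1, hx2⟩
    refine ⟨⟨x, Or.inl hx2⟩, ⟨?_, hx2⟩, rfl⟩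
    rw [SimpleGraph.mem_neighborSet, SimpleGraph.fromRel_adj]
    refine ⟨fun h => hy (h ▸ hx2), Or.inr ⟨hx2, hy, ?_⟩⟩
    rw [hyd]
    exact hx1
  have hτW : ∀ d ∈ D, τ d ∈ W := fun d hd => Or.inr ⟨d, hd, rfl⟩
  have hτA : ∀ d (hd : d ∈ D), (⟨τ d, hτW d hd⟩ : W) ∉ A := by
    intro d hd h
    have h' : ht (τ d) < a := h
    rw [hτ d] at h'
    exact h'.not_gt hd.2
  refine ⟨W, SimpleGraph.fromRel rel, ⟨A, Aᶜ, disjoint_compl_right, union_compl_self A,
    ?_, ?_, ?_, fun y hy => (hnb y hy).mono inter_subset_left⟩, ?_⟩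
  · obtain ⟨d, hd, -⟩ := hD.isCofinal a
    have : Infinite A := ((hnb _ (hτA d hd)).mono inter_subset_right).to_subtype
    have : Countable A :=
      (hcA.preimage_of_injOn (f := (Subtype.val : W → T)) Subtype.val_injective.injOn).to_subtype
    exact Cardinal.mk_eq_aleph0 A
  · rw [← Cardinal.mk_image_eq Subtype.val_injective]
    refine card_of_unc hT (fun h => club_unc hD ((h.image ht).mono ?_))
    intro d hd
    exact ⟨τ d, ⟨⟨τ d, hτW d hd⟩, hτA d hd, rfl⟩, hτ d⟩
  · intro x y hxy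
    rw [SimpleGraph.fromRel_adj] at hxy
    rcases hxy.2 with h | h
    · exact Or.inl ⟨h.1, h.2.1⟩
    · exact Or.inr ⟨h.2.1, h.1⟩
  · let B : W → Set T := fun x => if x ∈ A then {x.1} else {y | x.1 ≤ y ∧ ht y < g (ht x.1)}
    have hBA : ∀ x ∈ A, B x = {x.1} := fun x hx => if_pos hx
    have hBn : ∀ x ∉ A, B x = {y | x.1 ≤ y ∧ ht y < g (ht x.1)} := fun x hx => if_neg hx
    have hd1 : ∀ x ∈ A, ∀ y ∉ A, Disjoint (B x) (B y) := by
      intro x hx y hy
      rw [hBA x hx, hBn y hy, Set.disjoint_singleton_left]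
      intro h
      exact hy ((H.mono' h.1).trans_lt hx)
    have hd2 : ∀ x ∉ A, ∀ y ∉ A, ht x.1 < ht y.1 → Disjoint (B x) (B y) := by
      intro x hx y hy hxy
      rw [hBn x hx, hBn y hy]
      obtain ⟨d, hd, hyd⟩ := hnA y hy
      refine Set.disjoint_left.2 (fun z h1 h2 => ?_)
      have h3 := H.mono' h2.1
      rw [hyd, hτ] at hxy h3
      exact (h1.2.trans (hd.1 _ hxy)).not_ge h3
    have hadj : ∀ x y, rel x y → ∃ a ∈ B x, ∃ b ∈ B y, G.Adj a b := by
      rintro x y ⟨hx, hy, h⟩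
      obtain ⟨z, h1, h2, h3⟩ := (hg _).2 y.1 le_rfl x.1 h
      rw [hBA x hx, hBn y hy]
      exact ⟨x.1, rfl, z, ⟨h1, h3⟩, h2⟩
    refine ⟨B, fun x => Conn.connected ?_, fun x y hne => ?_, fun x y hxy => ?_⟩
    · by_cases hx : x ∈ A
      · rw [hBA x hx]
        refine conn_of_root (m := x.1) rfl ?_
        rintro _ rfl
        exact Relation.ReflTransGen.refl
      · rw [hBn x hx]
        exact H.conn_cone (P := fun y => ht y < g (ht x.1)) (hg _).1
          (fun _ _ h h' => (H.mono' h).trans_lt h')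
    · by_cases hx : x ∈ A <;> by_cases hy : y ∈ A
      · rw [hBA x hx, hBA y hy, Set.disjoint_singleton]
        exact fun h => hne (Subtype.ext h)
      · exact hd1 x hx y hy
      · exact (hd1 y hy x hx).symm
      · rcases lt_trichotomy (ht x.1) (ht y.1) with h | h | h
        · exact hd2 x hx y hy h
        · obtain ⟨d, -, h1⟩ := hnA x hx
          obtain ⟨e, -, h2⟩ := hnA y hy
          refine absurd (Subtype.ext ?_) hne
          rw [h1, h2, hτ, hτ] at h
          rw [h1, h2, h]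
        · exact (hd2 y hy x hx h).symm
    · rw [SimpleGraph.fromRel_adj] at hxy
      rcases hxy.2 with h | h
      · exact hadj x y h
      · obtain ⟨a, ha, b, hb, hab⟩ := hadj y x h
        exact ⟨b, hb, a, ha, hab.symm⟩

theorem exists_HT (hT : IsAronszajn T) (hG : IsTGraph (· < ·) G) : ∃ ht : T → Ω, HT G ht := by
  obtain ⟨⟨-, hwo⟩, hcard, hlev, hbr⟩ := hT
  have hchain : ∀ {s s' t : T}, s ≤ t → s' ≤ t → s ≤ s' ∨ s' ≤ s := by
    intro s s' t h h'
    have := hwo t
    rcases trichotomous_of (fun a b : Iic t => a < b) ⟨s, h⟩ ⟨s', h'⟩ with h1 | h1 | h1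
    · exact Or.inl (le_of_lt h1)
    · exact Or.inl (le_of_eq (congrArg Subtype.val h1))
    · exact Or.inr (le_of_lt h1)
  have hwf : WellFounded (fun a b : T => a < b) := by
    refine ⟨fun t => ?_⟩
    have key : ∀ s : Iic t, Acc (fun a b : T => a < b) s.1 := by
      intro s
      induction s using (hwo t).wf.induction with
      | _ s ih => exact ⟨_, fun y hy => ih ⟨y, hy.le.trans s.2⟩ hy⟩
    exact key ⟨t, le_rfl⟩
  have hctbl : ∀ t : T, (Iio t).Countable := by
    intro t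
    have : IsChain (fun a b : T => a ≤ b) (Iio t) := fun a ha b hb _ => hchain ha.le hb.le
    obtain ⟨M, hM, hsub⟩ := this.exists_maxChain
    exact (hbr M hM).mono hsub
  have hne : ∀ (t : T) (k : ∀ s, s < t → Ω), {b | ∀ s h, k s h < b}.Nonempty := by
    intro t k
    have : Countable (Iio t) := (hctbl t).to_subtype
    obtain ⟨b, hb⟩ := bdd (countable_range (fun s : Iio t => k s.1 s.2))
    exact ⟨b, fun s h => hb _ ⟨⟨s, h⟩, rfl⟩⟩
  let ht : T → Ω := hwf.fix (C := fun _ => Ω) (fun t k => wellFounded_lt.min _ (hne t k))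
  have hfix : ∀ t, ht t = wellFounded_lt.min _ (hne t (fun s _ => ht s)) := fun t =>
    hwf.fix_eq _ t
  have hmono : ∀ {s t : T}, s < t → ht s < ht t := by
    intro s t h
    rw [hfix t]
    exact wellFounded_lt.min_mem _ (hne t (fun s _ => ht s)) s h
  have hanc : ∀ (t : T) (a : Ω), a < ht t → ∃ s < t, ht s = a := by
    intro t
    induction t using hwf.induction with
    | _ t ih =>
      intro a ha
      have : ∃ s < t, a ≤ ht s := by
        by_contra h
        push Not at h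
        rw [hfix t] at ha
        exact wellFounded_lt.not_lt_min _ (show a ∈ {b | ∀ s (_ : s < t), ht s < b} from h) ha
      obtain ⟨s, hs, has⟩ := this
      rcases has.eq_or_lt with h | h
      · exact ⟨s, hs, h.symm⟩
      · obtain ⟨s', h1, h2⟩ := ih s hs a h
        exact ⟨s', h1.trans hs, h2⟩
  have hle : ∀ {s s' t : T}, s < t → s' < t → (ht s ≤ ht s' ↔ s ≤ s') := by
    intro s s' t h h'
    constructor
    · intro h1
      rcases hchain h.le h'.le with h2 | h2
      · exact h2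
      · rcases h2.eq_or_lt with rfl | h2
        · exact le_rfl
        · exact absurd (hmono h2) h1.not_gt
    · intro h1
      rcases h1.eq_or_lt with rfl | h1
      · exact le_rfl
      · exact (hmono h1).le
  have hiso : ∀ t, Nonempty (Iio t ≃o Iio (ht t)) := by
    intro t
    let k : Iio t → Iio (ht t) := fun s => ⟨ht s.1, hmono s.2⟩
    have hk : Bijective k := by
      constructor
      · intro s s' h
        have h' : ht s.1 = ht s'.1 := congrArg Subtype.val h
        exact Subtype.ext (le_antisymm ((hle s.2 s'.2).1 h'.le) ((hle s'.2 s.2).1 h'.ge))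
      · intro a
        obtain ⟨s, hs, h⟩ := hanc t a.1 a.2
        exact ⟨⟨s, hs⟩, Subtype.ext h⟩
    exact ⟨⟨Equiv.ofBijective k hk, fun {s s'} => hle s.2 s'.2⟩⟩
  have hlev1 : ∀ a, {t | ht t = a}.Countable := by
    intro a
    rcases {t | ht t = a}.eq_empty_or_nonempty with h | ⟨t, h⟩
    · rw [h]
      exact countable_empty
    · refine (hlev t).mono (fun s hs => ?_)
      obtain ⟨i⟩ := hiso s
      obtain ⟨j⟩ := hiso t
      have h1 : ht s = a := hs
      have h2 : ht t = a := h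
      rw [h1] at i
      rw [h2] at j
      exact ⟨i.trans j.symm⟩
  refine ⟨ht, hchain, hmono, ?_, fun a => ?_, ?_, fun h => hG.1 _ _ h, fun h => ?_⟩
  · intro a t h
    rcases h.eq_or_lt with rfl | h
    · exact ⟨t, le_rfl, rfl⟩
    · obtain ⟨s, hs, h⟩ := hanc t a h
      exact ⟨s, hs.le, h⟩
  · refine ((cIic a).biUnion (fun b _ => hlev1 b)).mono (fun t h => ?_)
    exact mem_biUnion (show ht t ∈ Iic a from h) rfl
  · rw [← Cardinal.le_aleph0_iff_set_countable, ← Cardinal.lt_aleph_one_iff, Cardinal.mk_univ, hcard]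
    exact lt_irrefl _
  · obtain ⟨x, h1, h2, h3⟩ := hG.2 _ _ h
    exact ⟨x, h1.elim le_of_eq le_of_lt, h2, h3⟩

end

theorem card_om : Cardinal.mk Om = Cardinal.aleph 1 := by
  simp [Om]

instance instOm1Om : Om1 Om where
  ctbl := by
    intro a
    have h : (Iio (a : Ordinal.{0})).Countable := by
      rw [← Cardinal.le_aleph0_iff_set_countable, ← Cardinal.lt_aleph_one_iff]
      have := Cardinal.lt_omega_iff_card_lt.1 a.2
      simpa [← Ordinal.lift_card] using this
    exact h.preimage_of_injOn (f := (Subtype.val : Om → Ordinal.{0}))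
      Subtype.val_injective.injOn
  unc := by
    rw [← Cardinal.le_aleph0_iff_set_countable, ← Cardinal.lt_aleph_one_iff, Cardinal.mk_univ, card_om]
    exact lt_irrefl _

theorem main {T : Type u} [PartialOrder T] (hT : IsAronszajn T) (G : SimpleGraph T)
    (hG : IsTGraph (· < ·) G) :
    (∃ (W : Type u) (H : SimpleGraph W), IsAleph01Graph H ∧ IsMinor H G) ∨
    (∃ (U : Set (Seq Om)) (H : SimpleGraph U), IsStatGraph U H ∧ IsMinor H G) := by
  obtain ⟨ht, H⟩ := exists_HT (Ω := Om) hT hG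
  by_cases hfin : ∀ a, ∃ b, ∀ t, b ≤ ht t → (Nb G t ∩ {x | ht x < a}).Finite
  · right
    obtain ⟨C, hC⟩ := H.exists_good hfin
    obtain ⟨F⟩ := H.tops_of_good hC
    obtain ⟨K, S, f, h1, h2, h3, h4⟩ := F.minor H.lev (by
      intro E hE
      have h := card_of_unc hT.2.1 hE
      obtain ⟨e⟩ : Nonempty (Om ≃ E) := by
        rw [← Cardinal.lift_mk_eq', h, card_om]
        simp
      refine ⟨fun a => (e a).1, Subtype.val_injective.comp e.injective, ?_⟩
      ext x
      exact ⟨fun ⟨a, h⟩ => h ▸ (e a).2, fun hx => ⟨e.symm ⟨x, hx⟩, by simp⟩⟩)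
    refine ⟨_, _, ⟨K, S, f, h1, h2, fun s hs => ⟨?_, (h3 s hs).2⟩, rfl, rfl⟩, h4⟩
    obtain ⟨⟨a, ha⟩, h5⟩ := (h3 s hs).1
    refine ⟨not_isMin_of_lt (b := (a : Ordinal.{0})) ha, fun b hb => ?_⟩
    obtain ⟨c, h6, h7⟩ := h5 ⟨b, hb.1.trans s.2⟩ hb.1
    exact hb.2 h6 h7
  · left
    push Not at hfin
    obtain ⟨a, ha⟩ := hfin
    exact H.bip_minor hT.2.1 ha

end Pool.Agent.H80Z.Aro
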