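import Mathlib

/-! Algebra of the hypersurfaces `x y = z ^ 2 - 1`: primality, smoothness, and the Lie algebra
generated by overshear fields. -/

open MvPolynomial

noncomputable section

namespace Pool.Agent.H80Z.Dan

section abstract

variable {R : Type} [CommRing R] [Algebra ℂ R]

/-- locally nilpotent -/
def LND (Θ : Derivation ℂ R R) : Prop := ∀ g : R, ∃ k : ℕ, (⇑Θ)^[k] g = 0

/-- the Lie algebra generated by the overshear fields -/
def OS (R : Type) [CommRing R] [Algebra ℂ R] : LieSubalgebra ℂ (Derivation ℂ R R) :=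
  LieSubalgebra.lieSpan ℂ (Derivation ℂ R R)
    {V | ∃ Θ : Derivation ℂ R R, (∀ g : R, ∃ k : ℕ, (⇑Θ)^[k] g = 0) ∧
      ∃ f : R, Θ (Θ f) = 0 ∧ V = f • Θ}

lemma os_mem {Θ : Derivation ℂ R R} (h : LND Θ) {f : R} (hf : Θ (Θ f) = 0) : f • Θ ∈ OS R :=
  LieSubalgebra.subset_lieSpan ⟨Θ, h, f, hf, rfl⟩

lemma iter_mul (Θ : Derivation ℂ R R) : ∀ (n a b : ℕ) (f g : R), a + b = n →
    (⇑Θ)^[a] f = 0 → (⇑Θ)^[b] g = 0 → (⇑Θ)^[n] (f * g) = 0
  | _, 0, b, f, g, _, h, _ => by
    have : f = 0 := h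
    rw [this, zero_mul]; exact iterate_map_zero Θ _
  | _, a + 1, 0, f, g, _, _, h => by
    have : g = 0 := h
    rw [this, mul_zero]; exact iterate_map_zero Θ _
  | 0, a + 1, b + 1, _, _, h, _, _ => by omega
  | n + 1, a + 1, b + 1, f, g, h, h1, h2 => by
    rw [Function.iterate_succ_apply, Derivation.leibniz, iterate_map_add, smul_eq_mul, smul_eq_mul,
      iter_mul Θ n (a + 1) b f (Θ g) (by omega) h1 h2, mul_comm g,
      iter_mul Θ n a (b + 1) (Θ f) g (by omega) h1 h2, add_zero]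

lemma iter_mono (Θ : Derivation ℂ R R) {a : ℕ} {f : R} (h : (⇑Θ)^[a] f = 0) (b : ℕ) :
    (⇑Θ)^[b + a] f = 0 := by
  rw [Function.iterate_add_apply, h]; exact iterate_map_zero Θ _

lemma bracket (f g : R) (D E : Derivation ℂ R R) :
    ⁅f • D, g • E⁆ = (f * D g) • E - (g * E f) • D + (f * g) • ⁅D, E⁆ := by
  ext a
  simp [Derivation.commutator_apply]
  ring

lemma bracket' (g : R) (D E : Derivation ℂ R R) : ⁅D, g • E⁆ = (D g) • E + g • ⁅D, E⁆ := by
  ext a
  simp [Derivation.commutator_apply]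
  ring

lemma der_pow_zero (Θ : Derivation ℂ R R) {a : R} (h : Θ a = 0) (k : ℕ) : Θ (a ^ k) = 0 := by
  rw [Derivation.leibniz_pow, h]; simp

/-- the Andersen-Lempert trick -/
lemma trick {Θ Ξ : Derivation ℂ R R} (h1 : LND Θ) (h2 : LND Ξ) (hc : ⁅Θ, Ξ⁆ = 0) {a : R}
    (ha : Θ a = 1) (hb : Ξ a = 0) {f : R} (hf : Θ f = 0) (k : ℕ) : (f * a ^ k) • Ξ ∈ OS R := by
  have hk := der_pow_zero Ξ hb k
  have hk1 := der_pow_zero Ξ hb (k + 1)
  have m1 : (a * f) • Θ ∈ OS R := os_mem h1 (by simp [ha, hf])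
  have m2 : (a ^ k) • Ξ ∈ OS R := os_mem h2 (by rw [hk]; simp)
  have m3 : f • Θ ∈ OS R := os_mem h1 (by rw [hf]; simp)
  have m4 : (a ^ (k + 1)) • Ξ ∈ OS R := os_mem h2 (by rw [hk1]; simp)
  have := (OS R).sub_mem ((OS R).lie_mem m3 m4) ((OS R).lie_mem m1 m2)
  convert this using 1
  rw [bracket, bracket, hc, pow_succ]
  ext c
  simp only [Derivation.leibniz, ha, hb, smul_eq_mul, Derivation.smul_apply, Derivation.sub_apply,
    Derivation.add_apply, Derivation.zero_apply]
  ring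

lemma cancel {V : Derivation ℂ R R} {c : ℕ} (hc : c ≠ 0) (h : ((c : R)) • V ∈ OS R) :
    V ∈ OS R := by
  have h1 : ((c : ℂ)⁻¹) • ((c : R) • V) = V := by
    have : (c : R) • V = (c : ℂ) • V := by
      ext a
      simp [Algebra.smul_def]
    rw [this, smul_smul, inv_mul_cancel₀ (by exact_mod_cast hc), one_smul]
  rw [← h1]
  exact (OS R).smul_mem _ h

/-- the `sl 2` computation on the surface -/
theorem sl2 {x y z : R} {A B H : Derivation ℂ R R} (hrel : x * y = z ^ 2 - 1)
    (hA : LND A) (hB : LND B) (Ax : A x = 0) (Az : A z = x) (Bx : B x = 2 * z) (By : B y = 0)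
    (Bz : B z = y) (BA : ⁅B, A⁆ = -((2 : R) • H)) (BH : ⁅B, H⁆ = B)
    (syz : y • A - x • B + (2 * z) • H = 0) (a b c : ℕ) :
    (x ^ a * y ^ b * z ^ c) • A ∈ OS R ∧ (x ^ a * y ^ b * z ^ c) • B ∈ OS R ∧
      (x ^ a * y ^ b * z ^ c) • H ∈ OS R := by
  let S : R → Prop := fun f => f • A ∈ OS R ∧ f • B ∈ OS R ∧ f • H ∈ OS R
  have mB : B ∈ OS R := by simpa using os_mem hB (f := 1) (by simp)
  have Sadd : ∀ f g, S f → S g → S (f + g) := fun f g h1 h2 =>
    ⟨by rw [add_smul]; exact (OS R).add_mem h1.1 h2.1,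
     by rw [add_smul]; exact (OS R).add_mem h1.2.1 h2.2.1,
     by rw [add_smul]; exact (OS R).add_mem h1.2.2 h2.2.2⟩
  have Ssub : ∀ f g, S f → S g → S (f - g) := fun f g h1 h2 =>
    ⟨by rw [sub_smul]; exact (OS R).sub_mem h1.1 h2.1,
     by rw [sub_smul]; exact (OS R).sub_mem h1.2.1 h2.2.1,
     by rw [sub_smul]; exact (OS R).sub_mem h1.2.2 h2.2.2⟩
  have nsm : ∀ (n : ℕ) (W : Derivation ℂ R R), W ∈ OS R → (n : R) • W ∈ OS R := fun n W h => by
    rw [Nat.cast_smul_eq_nsmul]; exact nsmul_mem h n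
  have Smul : ∀ (n : ℕ) f, S f → S (n * f) := fun n f h =>
    ⟨by rw [mul_smul]; exact nsm _ _ h.1, by rw [mul_smul]; exact nsm _ _ h.2.1,
     by rw [mul_smul]; exact nsm _ _ h.2.2⟩
  have Scancel : ∀ (n : ℕ) f, n ≠ 0 → S (n * f) → S f := fun n f hn h =>
    ⟨cancel hn (by rw [← mul_smul]; exact h.1), cancel hn (by rw [← mul_smul]; exact h.2.1),
     cancel hn (by rw [← mul_smul]; exact h.2.2)⟩
  have SB : ∀ f, S f → S (B f) := fun f h => by
    refine ⟨?_, ?_, ?_⟩
    · have e : B f • A = ⁅B, f • A⁆ + ((2 : ℕ) : R) • (f • H) := by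
        rw [bracket', BA]; push_cast; module
      rw [e]; exact (OS R).add_mem ((OS R).lie_mem mB h.1) (nsm _ _ h.2.2)
    · have e : B f • B = ⁅B, f • B⁆ := by rw [bracket']; simp
      rw [e]; exact (OS R).lie_mem mB h.2.1
    · have e : B f • H = ⁅B, f • H⁆ - f • B := by rw [bracket', BH]; simp
      rw [e]; exact (OS R).sub_mem ((OS R).lie_mem mB h.2.2) h.2.1
  have Axk : ∀ k, A (x ^ k) = 0 := der_pow_zero A Ax
  have xA : ∀ k, x ^ k • A ∈ OS R := fun k => os_mem hA (by rw [Axk]; simp)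
  have xzA : ∀ k, (x ^ k * z) • A ∈ OS R := fun k => os_mem hA (by
    rw [Derivation.leibniz, Az, Axk, smul_zero, add_zero, smul_eq_mul, ← pow_succ, Axk])
  have Bxk : ∀ k, B (x ^ (k + 1)) = ((k + 1 : ℕ) : R) * (x ^ k * (2 * z)) := fun k => by
    rw [Derivation.leibniz_pow, Bx]; simp
  have xH : ∀ k, x ^ k • H ∈ OS R := fun k => by
    apply cancel (c := 2) (by norm_num)
    cases k with
    | zero =>
      have e : ((2 : ℕ) : R) • x ^ 0 • H = -⁅B, x ^ 0 • A⁆ := by
        simp [BA]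
      rw [e]; exact neg_mem ((OS R).lie_mem mB (xA 0))
    | succ k =>
      have e : ((2 : ℕ) : R) • x ^ (k + 1) • H =
          ((2 * (k + 1) : ℕ) : R) • (x ^ k * z) • A - ⁅B, x ^ (k + 1) • A⁆ := by
        rw [bracket', BA, Bxk]; push_cast; module
      rw [e]; exact (OS R).sub_mem (nsm _ _ (xzA k)) ((OS R).lie_mem mB (xA _))
  have zH : (2 * z) • H = x • B - y • A := by
    have := syz
    linear_combination (norm := module) this
  have xB : ∀ k, x ^ k • B ∈ OS R := fun k => by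
    cases k with
    | zero => simpa using mB
    | succ k =>
      have e1 : ⁅B, x ^ (k + 1) • H⁆ =
          ((k + 2 : ℕ) : R) • x ^ (k + 1) • B - ((k + 1 : ℕ) : R) • (x ^ k * y) • A := by
        rw [bracket', BH, Bxk, mul_smul, mul_smul, zH]; push_cast; module
      have m1 := (OS R).lie_mem mB (xH (k + 1))
      rw [e1] at m1
      have m2 : ((2 * (k + 1) : ℕ) : R) • (x ^ k * y) • A - x ^ (k + 1) • B ∈ OS R := by
        have m3 := (OS R).lie_mem mB (xzA k)
        cases k with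
        | zero =>
          have e2 : ⁅B, (x ^ 0 * z) • A⁆ =
              ((2 * (0 + 1) : ℕ) : R) • (x ^ 0 * y) • A - x ^ (0 + 1) • B := by
            rw [bracket', BA]
            simp only [pow_zero, one_mul, Bz]
            have : z • -((2 : R) • H) = -((2 * z) • H) := by module
            rw [this, zH]; push_cast; module
          rwa [e2] at m3
        | succ k =>
          have e2 : ⁅B, (x ^ (k + 1) * z) • A⁆ =
              (((2 * (k + 1 + 1) : ℕ) : R) • (x ^ (k + 1) * y) • A - x ^ (k + 1 + 1) • B) +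
                ((2 * (k + 1) : ℕ) : R) • x ^ k • A := by
            rw [bracket', BA, Derivation.leibniz, Bxk, Bz]
            have : (x ^ (k + 1) * z) • -((2 : R) • H) = -(x ^ (k + 1) • (2 * z) • H) := by module
            rw [this, zH]
            have hz : z • (((k + 1 : ℕ) : R) * (x ^ k * (2 * z))) =
                ((k + 1 : ℕ) : R) * (2 * x ^ k * (x * y + 1)) := by
              rw [hrel, smul_eq_mul]; ring
            rw [hz]; push_cast; module
          rw [e2] at m3
          have := (OS R).sub_mem m3 (nsm (2 * (k + 1)) _ (xA k))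
          rwa [add_sub_cancel_right] at this
      apply cancel (c := 2 * k + 3) (by omega)
      have := (OS R).add_mem (nsm 2 _ m1) m2
      convert this using 1
      push_cast; module
  have Sx : ∀ k, S (x ^ k) := fun k => ⟨xA k, xB k, xH k⟩
  have Sxz : ∀ j i, S (x ^ i * z ^ j) := by
    intro j
    induction j using Nat.strong_induction_on with
    | _ j ih =>
      intro i
      rcases j with _ | _ | j
      · simpa using Sx i
      · apply Scancel (2 * (i + 1)) _ (by omega)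
        have := SB _ (Sx (i + 1))
        rw [Bxk] at this
        convert this using 1
        push_cast; ring
      · apply Scancel (2 * (i + 1) + (j + 1)) _ (by omega)
        have h1 := SB _ (ih (j + 1) (by omega) (i + 1))
        have h2 := Smul (j + 1) _ (ih j (by omega) i)
        convert Sadd _ _ h1 h2 using 1
        rw [Derivation.leibniz, Bxk, Derivation.leibniz_pow, Bz]
        simp only [smul_eq_mul, nsmul_eq_mul, Nat.add_sub_cancel]
        push_cast
        linear_combination (-((j : R) + 1) * x ^ i * z ^ j) * hrel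
  have Syz : ∀ i j, S (y ^ i * z ^ j) := by
    intro i
    induction i with
    | zero => intro j; simpa using Sxz j 0
    | succ i ih =>
      intro j
      apply Scancel (j + 1) _ (by omega)
      have := SB _ (ih (j + 1))
      convert this using 1
      rw [Derivation.leibniz, der_pow_zero B By, Derivation.leibniz_pow, Bz]
      simp only [smul_eq_mul, nsmul_eq_mul, Nat.add_sub_cancel]
      ring
  induction a generalizing b c with
  | zero => simpa using Syz b c
  | succ a ih =>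
    cases b with
    | zero => simpa using Sxz c (a + 1)
    | succ b =>
      have := Ssub _ _ (ih b (c + 2)) (ih b c)
      have e : x ^ (a + 1) * y ^ (b + 1) * z ^ c =
          x ^ a * y ^ b * z ^ (c + 2) - x ^ a * y ^ b * z ^ c := by
        linear_combination (x ^ a * y ^ b * z ^ c) * hrel
      rw [e]; exact this

end abstract

section concrete

variable (n : ℕ)

/-- the defining polynomial, in `n + 3` variables -/
def pol : MvPolynomial (Fin (n + 3)) ℂ := X 0 * X 1 - X 2 ^ 2 + 1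

/-- its ideal -/
abbrev idl : Ideal (MvPolynomial (Fin (n + 3)) ℂ) := Ideal.span {pol n}

/-- the coordinate ring -/
abbrev Rg : Type := MvPolynomial (Fin (n + 3)) ℂ ⧸ idl n

lemma ne01 : (0 : Fin (n + 3)) ≠ 1 := by simp
lemma ne02 : (0 : Fin (n + 3)) ≠ 2 := by
  intro h; have := congrArg Fin.val h; simp at this
  rw [Nat.mod_eq_of_lt (by omega)] at this; omega
lemma ne12 : (1 : Fin (n + 3)) ≠ 2 := by
  intro h; have := congrArg Fin.val h; simp at this
  rw [Nat.mod_eq_of_lt (by omega)] at this; omega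

lemma pol_irred : Irreducible (pol n) := by
  have e : pol n = X 1 * X 0 + (1 - X 2 ^ 2) := by unfold pol; ring
  rw [e]
  refine irreducible_mul_X_add _ _ 0 (X_ne_zero _) (by simp) ?_ ?_
  · intro h
    have h1 := vars_sub_subset _ h
    rw [Finset.mem_union, vars_one] at h1
    rcases h1 with h1 | h1
    · simp at h1
    · have := vars_pow _ _ h1
      rw [vars_X, Finset.mem_singleton] at this
      exact ne02 n this
  · refine (X_prime.irreducible.isRelPrime_iff_not_dvd).2 fun h => ?_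
    have := map_dvd (eval (fun _ => (0 : ℂ))) h
    simp at this

lemma idl_prime : (idl n).IsPrime :=
  (Ideal.span_singleton_prime (pol_irred n).ne_zero).2 (pol_irred n).prime

lemma mem_zero (w : Fin (n + 3) → ℂ) :
    (∀ p ∈ idl n, eval w p = 0) ↔ w 0 * w 1 - w 2 ^ 2 + 1 = 0 := by
  constructor
  · intro h
    simpa [pol] using h _ (Ideal.mem_span_singleton_self _)
  · intro h p hp
    obtain ⟨q, rfl⟩ := Ideal.mem_span_singleton'.1 hp
    simp [pol, h]

lemma idl_not_max : ¬ (idl n).IsMaximal := by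
  intro h
  let w : Fin (n + 3) → ℂ := fun i => if i = 2 then 1 else 0
  let w' : Fin (n + 3) → ℂ := fun i => if i = 1 then 0 else 1
  have h1 : idl n ≤ RingHom.ker (eval w) := fun p hp =>
    (mem_zero n w).2 (by simp [w, ne02, ne12]) p hp
  have h2 := h.eq_of_le (RingHom.ker_ne_top _) h1
  have h3 : X 0 ∈ idl n := by rw [h2]; simp [w, ne02]
  have := (mem_zero n w').2 (by simp [w', (ne12 n).symm]) _ h3
  simp [w'] at this

lemma smooth : Algebra.Smooth ℂ (Rg n) := by
  refine { formallySmooth := ?_, finitePresentation := ?_ }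
  · refine .of_comp_surjective fun B _ _ J hJ f => ?_
    choose b hb using fun s : Fin (n + 3) =>
      Ideal.Quotient.mk_surjective (f (Ideal.Quotient.mk _ (X s)))
    have hmul : ∀ u ∈ J, ∀ v ∈ J, u * v = 0 := fun u hu v hv => by
      have := Ideal.mul_mem_mul hu hv
      rwa [← pow_two, hJ, Ideal.mem_bot] at this
    set ε : B := b 0 * b 1 - b 2 ^ 2 + 1 with hε
    have hεJ : ε ∈ J := by
      rw [← Ideal.Quotient.eq_zero_iff_mem]
      have : f (Ideal.Quotient.mk _ (pol n)) = 0 := by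
        rw [Ideal.Quotient.eq_zero_iff_mem.2 (Ideal.mem_span_singleton_self _), map_zero]
      simp only [pol, map_add, map_sub, map_mul, map_pow, map_one, ← hb] at this
      simpa [hε] using this
    set t : B := algebraMap ℂ B (1 / 2) * ε with ht
    have htJ : t ∈ J := J.mul_mem_left _ hεJ
    have h2 : 2 * t = ε := by
      have : (2 : B) * algebraMap ℂ B (1 / 2) = 1 := by
        rw [show (2 : B) = algebraMap ℂ B 2 from (map_ofNat _ 2).symm, ← map_mul]; simp
      rw [ht, ← mul_assoc, this, one_mul]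
    have hp : aeval (fun s => (1 + t) * b s) (pol n) = 0 := by
      simp only [pol, map_add, map_sub, map_mul, map_pow, map_one, aeval_X]
      linear_combination (-1) * h2 + (ε - 1) * hmul t htJ t htJ + 2 * hmul t htJ ε hεJ -
        (1 + t) ^ 2 * hε
    refine ⟨Ideal.Quotient.liftₐ _ (aeval fun s => (1 + t) * b s) fun p hp' => ?_, ?_⟩
    · obtain ⟨q, rfl⟩ := Ideal.mem_span_singleton'.1 hp'
      rw [map_mul, hp, mul_zero]
    · apply Ideal.Quotient.algHom_ext
      apply MvPolynomial.algHom_ext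
      intro s
      have : Ideal.Quotient.mk J t = 0 := Ideal.Quotient.eq_zero_iff_mem.2 htJ
      simp [this, hb]
  · exact Algebra.FinitePresentation.quotient ⟨{pol n}, by simp⟩

/-- the coordinate functions -/
def xx (s : Fin (n + 3)) : Rg n := Ideal.Quotient.mk _ (X s)

lemma rel : xx n 0 * xx n 1 = xx n 2 ^ 2 - 1 := by
  have : Ideal.Quotient.mk (idl n) (pol n) = 0 :=
    Ideal.Quotient.eq_zero_iff_mem.2 (Ideal.mem_span_singleton_self _)
  simp only [pol, map_add, map_sub, map_mul, map_pow, map_one] at this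
  unfold xx
  linear_combination this

/-- a derivation of the coordinate ring from its values on the coordinates -/
def desc (g : Fin (n + 3) → MvPolynomial (Fin (n + 3)) ℂ)
    (hg : X 0 * g 1 + X 1 * g 0 - 2 * X 2 * g 2 = 0) : Derivation ℂ (Rg n) (Rg n) :=
  Derivation.liftOfSurjective (f := Ideal.Quotient.mkₐ ℂ (idl n)) Ideal.Quotient.mk_surjective
    (d := mkDerivation ℂ g) fun p hp => by
      obtain ⟨q, rfl⟩ := Ideal.mem_span_singleton'.1 (Ideal.Quotient.eq_zero_iff_mem.1 hp)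
      have : mkDerivation ℂ g (pol n) = 0 := by
        simp only [pol, map_add, map_sub, Derivation.leibniz, Derivation.leibniz_pow,
          mkDerivation_X, Derivation.map_one_eq_zero, smul_eq_mul, nsmul_eq_mul]
        push_cast
        linear_combination hg
      rw [Derivation.leibniz, this, smul_zero, zero_add, smul_eq_mul]
      exact Ideal.Quotient.eq_zero_iff_mem.2
        (Ideal.mul_mem_right _ _ (Ideal.mem_span_singleton_self _))

lemma desc_xx (g : Fin (n + 3) → MvPolynomial (Fin (n + 3)) ℂ)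
    (hg : X 0 * g 1 + X 1 * g 0 - 2 * X 2 * g 2 = 0) (s : Fin (n + 3)) :
    desc n g hg (xx n s) = Ideal.Quotient.mk _ (g s) := by
  have := Derivation.liftOfSurjective_apply (f := Ideal.Quotient.mkₐ ℂ (idl n))
    Ideal.Quotient.mk_surjective (d := mkDerivation ℂ g)
  unfold desc xx
  erw [this]
  simp

lemma ind (P : Rg n → Prop) (h0 : ∀ c : ℂ, P (algebraMap ℂ _ c)) (h1 : ∀ f g, P f → P g → P (f + g))
    (h2 : ∀ f s, P f → P (f * xx n s)) (f : Rg n) : P f := by
  obtain ⟨p, rfl⟩ := Ideal.Quotient.mk_surjective f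
  induction p using MvPolynomial.induction_on with
  | C a => exact h0 a
  | add p q hp hq => rw [map_add]; exact h1 _ _ hp hq
  | mul_X p s hp => rw [map_mul]; exact h2 _ s hp

lemma der_ext {D E : Derivation ℂ (Rg n) (Rg n)} (h : ∀ s, D (xx n s) = E (xx n s)) : D = E := by
  ext f
  induction f using ind with
  | h0 c => simp
  | h1 f g hf hg => rw [map_add, map_add, hf, hg]
  | h2 f s hf => rw [Derivation.leibniz, Derivation.leibniz, hf, h]

lemma lnd_of {D : Derivation ℂ (Rg n) (Rg n)} (h : ∀ s, D (D (D (xx n s))) = 0) : LND D := by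
  intro f
  induction f using ind with
  | h0 c => exact ⟨1, by simp⟩
  | h1 f g hf hg =>
    obtain ⟨a, ha⟩ := hf
    obtain ⟨b, hb⟩ := hg
    refine ⟨a + b, ?_⟩
    rw [iterate_map_add, iter_mono D hb a, add_comm a b, iter_mono D ha b, add_zero]
  | h2 f s hf =>
    obtain ⟨a, ha⟩ := hf
    exact ⟨a + 3, iter_mul D _ a 3 _ _ rfl ha (h s)⟩

/-- the field `2 z ∂_y + x ∂_z` -/
def dA : Derivation ℂ (Rg n) (Rg n) :=
  desc n (fun s => if s = 1 then 2 * X 2 else if s = 2 then X 0 else 0)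
    (by simp [ne02, (ne12 n).symm]; ring)

/-- the field `2 z ∂_x + y ∂_z` -/
def dB : Derivation ℂ (Rg n) (Rg n) :=
  desc n (fun s => if s = 0 then 2 * X 2 else if s = 2 then X 1 else 0)
    (by simp [(ne02 n).symm, ne12]; ring)

/-- the field `x ∂_x - y ∂_y` -/
def dH : Derivation ℂ (Rg n) (Rg n) :=
  desc n (fun s => if s = 0 then X 0 else if s = 1 then -X 1 else 0)
    (by simp [(ne02 n).symm, (ne12 n).symm]; ring)

lemma dA_xx (s : Fin (n + 3)) :
    dA n (xx n s) = if s = 1 then 2 * xx n 2 else if s = 2 then xx n 0 else 0 := by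
  rw [dA, desc_xx]; split_ifs <;> simp [xx, map_ofNat]

lemma dB_xx (s : Fin (n + 3)) :
    dB n (xx n s) = if s = 0 then 2 * xx n 2 else if s = 2 then xx n 1 else 0 := by
  rw [dB, desc_xx]; split_ifs <;> simp [xx, map_ofNat]

lemma dH_xx (s : Fin (n + 3)) :
    dH n (xx n s) = if s = 0 then xx n 0 else if s = 1 then -xx n 1 else 0 := by
  rw [dH, desc_xx]; split_ifs <;> simp [xx]

lemma der_two (D : Derivation ℂ (Rg n) (Rg n)) : D 2 = 0 := by
  rw [← one_add_one_eq_two, map_add, Derivation.map_one_eq_zero, add_zero]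

lemma cases3 (s : Fin (n + 3)) : s = 0 ∨ s = 1 ∨ s = 2 ∨ (s ≠ 0 ∧ s ≠ 1 ∧ s ≠ 2) := by tauto

lemma lnd_A : LND (dA n) := lnd_of n fun s => by
  rcases cases3 n s with rfl | rfl | rfl | ⟨h0, h1, h2⟩ <;>
    simp [dA_xx, der_two, ne02, ne12, (ne12 n).symm, *]

lemma lnd_B : LND (dB n) := lnd_of n fun s => by
  rcases cases3 n s with rfl | rfl | rfl | ⟨h0, h1, h2⟩ <;>
    simp [dB_xx, der_two, ne12, (ne02 n).symm, *]

lemma BA : ⁅dB n, dA n⁆ = -((2 : Rg n) • dH n) := der_ext n fun s => by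
  rcases cases3 n s with rfl | rfl | rfl | ⟨h0, h1, h2⟩ <;>
    simp [Derivation.commutator_apply, dA_xx, dB_xx, dH_xx, der_two, ne02, ne12, (ne12 n).symm,
      (ne02 n).symm, *]
  ring

lemma BH : ⁅dB n, dH n⁆ = dB n := der_ext n fun s => by
  rcases cases3 n s with rfl | rfl | rfl | ⟨h0, h1, h2⟩ <;>
    simp [Derivation.commutator_apply, dB_xx, dH_xx, der_two, ne12, (ne12 n).symm,
      (ne02 n).symm, *]

lemma syz : xx n 1 • dA n - xx n 0 • dB n + (2 * xx n 2) • dH n = 0 := der_ext n fun s => by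
  rcases cases3 n s with rfl | rfl | rfl | ⟨h0, h1, h2⟩ <;>
    simp [dA_xx, dB_xx, dH_xx, ne02, ne12, (ne12 n).symm, (ne02 n).symm, *] <;> ring

/-- a half -/
def hf : Rg n := algebraMap ℂ _ (1 / 2)

lemma two_hf : 2 * hf n = 1 := by
  rw [hf, show (2 : Rg n) = algebraMap ℂ _ 2 from (map_ofNat _ 2).symm, ← map_mul]; simp

/-- the tangential part of a derivation -/
def tang (δ : Derivation ℂ (Rg n) (Rg n)) : Derivation ℂ (Rg n) (Rg n) :=
  (hf n * (xx n 2 * δ (xx n 1) - xx n 1 * δ (xx n 2))) • dA n +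
    (hf n * (xx n 2 * δ (xx n 0) - xx n 0 * δ (xx n 2))) • dB n +
    (hf n * hf n * (xx n 0 * δ (xx n 1) - xx n 1 * δ (xx n 0)) * 2) • dH n

lemma tang_xx (δ : Derivation ℂ (Rg n) (Rg n)) (s : Fin (n + 3)) :
    tang n δ (xx n s) = if s = 0 ∨ s = 1 ∨ s = 2 then δ (xx n s) else 0 := by
  have h1 := congrArg δ (rel n)
  simp only [Derivation.leibniz, Derivation.leibniz_pow, map_sub, Derivation.map_one_eq_zero,
    smul_eq_mul, nsmul_eq_mul] at h1
  push_cast at h1
  have h2 := rel n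
  have h3 := two_hf n
  rcases cases3 n s with rfl | rfl | rfl | ⟨h0, h1, h2⟩ <;>
    simp [tang, dA_xx, dB_xx, dH_xx, ne02, ne12, (ne12 n).symm, (ne02 n).symm, *]
  · linear_combination (hf n * xx n 0) * h1 - δ (xx n 0) * h2 +
      (xx n 2 ^ 2 * δ (xx n 0) - xx n 0 * xx n 1 * δ (xx n 0) +
        hf n * xx n 0 * (xx n 0 * δ (xx n 1) - xx n 1 * δ (xx n 0))) * h3
  · linear_combination (hf n * xx n 1) * h1 - δ (xx n 1) * h2 +
      (xx n 2 ^ 2 * δ (xx n 1) - xx n 0 * xx n 1 * δ (xx n 1) -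
        hf n * xx n 1 * (xx n 0 * δ (xx n 1) - xx n 1 * δ (xx n 0))) * h3
  · linear_combination (hf n * xx n 2) * h1 - δ (xx n 2) * h2 +
      (xx n 2 ^ 2 * δ (xx n 2) - xx n 0 * xx n 1 * δ (xx n 2)) * h3

lemma span_mon (P : Rg n → Prop) (h0 : ∀ (c : ℂ) f, P f → P (algebraMap ℂ _ c * f))
    (h1 : ∀ f g, P f → P g → P (f + g))
    (h2 : ∀ d : Fin (n + 3) → ℕ, P (∏ s, xx n s ^ d s)) (f : Rg n) : P f := by
  obtain ⟨p, rfl⟩ := Ideal.Quotient.mk_surjective f
  induction p using MvPolynomial.induction_on' with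
  | monomial d c =>
    rw [monomial_eq, Finsupp.prod_fintype _ _ (by simp), map_mul, map_prod]
    simp only [map_pow]
    exact h0 c _ (h2 d)
  | add p q hp hq => rw [map_add]; exact h1 _ _ hp hq

lemma all_of_mon (W : Derivation ℂ (Rg n) (Rg n))
    (h : ∀ d : Fin (n + 3) → ℕ, (∏ s, xx n s ^ d s) • W ∈ OS (Rg n)) (f : Rg n) :
    f • W ∈ OS (Rg n) := by
  induction f using span_mon with
  | h0 c f hf =>
    have e : (algebraMap ℂ (Rg n) c * f) • W = c • f • W := by
      ext a; simp [mul_assoc]; exact (Algebra.smul_def c (f * W a)).symm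
    rw [e]; exact (OS _).smul_mem c hf
  | h1 f g hf hg => rw [add_smul]; exact (OS _).add_mem hf hg
  | h2 d => exact h d

/-- the surface has the algebraic overshear density property -/
theorem os_zero : OS (Rg 0) = ⊤ := by
  have key := sl2 (rel 0) (lnd_A 0) (lnd_B 0) (H := dH 0) (by simp [dA_xx]) (by simp [dA_xx])
    (by simp [dB_xx]) (by simp [dB_xx]) (by simp [dB_xx]) (BA 0) (BH 0) (syz 0)
  rw [eq_top_iff]
  intro δ _
  have e : δ = tang 0 δ := der_ext 0 fun s => by
    rw [tang_xx, if_pos]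
    fin_cases s <;> simp
  rw [e, tang]
  refine (OS _).add_mem ((OS _).add_mem (all_of_mon 0 _ (fun d => ?_) _)
    (all_of_mon 0 _ (fun d => ?_) _)) (all_of_mon 0 _ (fun d => ?_) _)
  · rw [Fin.prod_univ_three]; exact (key _ _ _).1
  · rw [Fin.prod_univ_three]; exact (key _ _ _).2.1
  · rw [Fin.prod_univ_three]; exact (key _ _ _).2.2

/-- the partial derivative in one of the further directions -/
def dP (l : Fin (n + 3)) (h : l ≠ 0 ∧ l ≠ 1 ∧ l ≠ 2) : Derivation ℂ (Rg n) (Rg n) :=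
  desc n (fun s => if s = l then 1 else 0) (by simp [h.1.symm, h.2.1.symm, h.2.2.symm])

lemma dP_xx (l : Fin (n + 3)) (h : l ≠ 0 ∧ l ≠ 1 ∧ l ≠ 2) (s : Fin (n + 3)) :
    dP n l h (xx n s) = if s = l then 1 else 0 := by
  rw [dP, desc_xx]; split_ifs <;> simp

lemma lnd_P (l : Fin (n + 3)) (h : l ≠ 0 ∧ l ≠ 1 ∧ l ≠ 2) : LND (dP n l h) :=
  lnd_of n fun s => by rw [dP_xx]; split_ifs <;> simp

lemma all_of_comm (l : Fin (n + 3)) (h : l ≠ 0 ∧ l ≠ 1 ∧ l ≠ 2) {W : Derivation ℂ (Rg n) (Rg n)}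
    (hW : LND W) (hc : ⁅dP n l h, W⁆ = 0) (h0 : W (xx n l) = 0) (f : Rg n) :
    f • W ∈ OS (Rg n) := by
  refine all_of_mon n W (fun d => ?_) f
  rw [← Finset.prod_erase_mul _ _ (Finset.mem_univ l)]
  refine trick (lnd_P n l h) hW hc (by simp [dP_xx]) h0 ?_ _
  refine Finset.prod_induction _ (fun g => dP n l h g = 0) (fun a b ha hb => ?_) (by simp)
    fun s hs => der_pow_zero _ ?_ _
  · rw [Derivation.leibniz, ha, hb]; simp
  · rw [dP_xx, if_neg (Finset.ne_of_mem_erase hs)]

/-- the product with three-space has the algebraic overshear density property -/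
theorem os_three : OS (Rg 3) = ⊤ := by
  have h3 : (3 : Fin 6) ≠ 0 ∧ (3 : Fin 6) ≠ 1 ∧ (3 : Fin 6) ≠ 2 := by decide
  have h4 : (4 : Fin 6) ≠ 0 ∧ (4 : Fin 6) ≠ 1 ∧ (4 : Fin 6) ≠ 2 := by decide
  have h5 : (5 : Fin 6) ≠ 0 ∧ (5 : Fin 6) ≠ 1 ∧ (5 : Fin 6) ≠ 2 := by decide
  have mA : ∀ f : Rg 3, f • dA 3 ∈ OS (Rg 3) :=
    all_of_comm 3 3 h3 (lnd_A 3) (der_ext 3 fun s => by
      fin_cases s <;> simp [Derivation.commutator_apply, dA_xx, dP_xx, der_two]) (by simp [dA_xx])
  have mB : ∀ f : Rg 3, f • dB 3 ∈ OS (Rg 3) :=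
    all_of_comm 3 3 h3 (lnd_B 3) (der_ext 3 fun s => by
      fin_cases s <;> simp [Derivation.commutator_apply, dB_xx, dP_xx, der_two]) (by simp [dB_xx])
  have cP : ∀ l h l' h', ⁅dP 3 l h, dP 3 l' h'⁆ = 0 := fun l h l' h' => der_ext 3 fun s => by
    rw [Derivation.commutator_apply, dP_xx, dP_xx]
    split_ifs <;> simp
  have m3 := all_of_comm 3 4 h4 (lnd_P 3 3 h3) (cP _ _ _ _) (by simp [dP_xx])
  have m4 := all_of_comm 3 3 h3 (lnd_P 3 4 h4) (cP _ _ _ _) (by simp [dP_xx])
  have m5 := all_of_comm 3 3 h3 (lnd_P 3 5 h5) (cP _ _ _ _) (by simp [dP_xx])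
  have mH : ∀ f : Rg 3, f • dH 3 ∈ OS (Rg 3) := fun f => by
    apply cancel (c := 2) (by norm_num)
    have e : ((2 : ℕ) : Rg 3) • f • dH 3 = dB 3 f • dA 3 - ⁅dB 3, f • dA 3⁆ := by
      rw [bracket', BA]; push_cast; module
    rw [e]
    exact (OS _).sub_mem (mA _) ((OS _).lie_mem (by simpa using mB 1) (mA _))
  rw [eq_top_iff]
  intro δ _
  have e : δ = tang 3 δ + δ (xx 3 3) • dP 3 3 h3 + δ (xx 3 4) • dP 3 4 h4 +
      δ (xx 3 5) • dP 3 5 h5 := der_ext 3 fun s => by
    fin_cases s <;> simp [tang_xx, dP_xx]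
  rw [e, tang]
  exact (OS _).add_mem ((OS _).add_mem ((OS _).add_mem ((OS _).add_mem ((OS _).add_mem (mA _)
    (mB _)) (mH _)) (m3 _)) (m4 _)) (m5 _)

end concrete

end Pool.Agent.H80Z.Dan
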