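import Mathlib

namespace Pool.Agent.H80Z.DanExt

open MvPolynomial

/-- The ideal of `Z`, generated by `x₀ x₁ - x₂ ^ 2 + 1` in six variables. -/
noncomputable def idealZ : Ideal (MvPolynomial (Fin 6) ℂ) :=
  Ideal.span {X 0 * X 1 - X 2 ^ 2 + 1}

/-- The variety `Z = D × ℂ³`, where `D` is the surface `x y = z ^ 2 - 1`. -/
def setZ : Set (Fin 6 → ℂ) := {w | ∀ p ∈ idealZ, eval w p = 0}

/-- The subvariety `X = D × {0}`. -/
def setX : Set (Fin 6 → ℂ) := {w | w 0 * w 1 - w 2 ^ 2 + 1 = 0 ∧ w 3 = 0 ∧ w 4 = 0 ∧ w 5 = 0}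

/-- The subvariety `Y = {(0, 0, 1)} × D`. -/
def setY : Set (Fin 6 → ℂ) := {w | w 0 = 0 ∧ w 1 = 0 ∧ w 2 = 1 ∧ w 3 * w 4 - w 5 ^ 2 + 1 = 0}

/-- The polynomial map that carries `X` to `Y`. -/
def phi (w : Fin 6 → ℂ) : Fin 6 → ℂ := ![0, 0, 1, w 0, w 1, w 2]

/-- The polynomial map that carries `Y` back to `X`. -/
def psi (w : Fin 6 → ℂ) : Fin 6 → ℂ := ![w 3, w 4, w 5, 0, 0, 0]

/-- The algebraic overshear density property of a complex algebra `R`: the fields `f • Θ`, with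
`Θ` a locally nilpotent derivation and `Θ (Θ f) = 0`, generate the Lie algebra of all
derivations. -/
def OvershearDensity (R : Type) [CommRing R] [Algebra ℂ R] : Prop :=
  LieSubalgebra.lieSpan ℂ (Derivation ℂ R R)
    {V | ∃ Θ : Derivation ℂ R R, (∀ g : R, ∃ k : ℕ, (⇑Θ)^[k] g = 0) ∧
      ∃ f : R, Θ (Θ f) = 0 ∧ V = f • Θ} = ⊤

end Pool.Agent.H80Z.DanExt
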