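import Mathlib
import Pool.Agent.Helper104.HairyBall

/-! Topology of the quadric `x y = z ^ 2 - 1`: consequences of the hairy ball theorem. -/

open Metric
open scoped RealInnerProductSpace

noncomputable section

namespace Pool.Agent.H80Z.Dan

/-- Euclidean three-space -/
abbrev E3 := EuclideanSpace ℝ (Fin 3)

/-- the two-sphere -/
abbrev S2 := sphere (0 : E3) 1

lemma section_step (n n' w : S2 → E3) (hn' : Continuous n') (hw : Continuous w)
    (h1 : ∀ p, ‖n' p‖ = 1) (hd : ∀ p, ‖n' p - n p‖ < 1) (hne : ∀ p, w p ≠ 0)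
    (ho : ∀ p, ⟪n p, w p⟫ = 0) :
    ∃ w' : S2 → E3, Continuous w' ∧ (∀ p, w' p ≠ 0) ∧ ∀ p, ⟪n' p, w' p⟫ = 0 := by
  refine ⟨fun p => w p - ⟪n' p, w p⟫ • n' p, by fun_prop, fun p h => ?_, fun p => ?_⟩
  · have h2 : w p = ⟪n' p, w p⟫ • n' p := sub_eq_zero.1 h
    have h3 : ‖w p‖ = |⟪n' p, w p⟫| := by
      conv_lhs => rw [h2]
      rw [norm_smul, h1, mul_one, Real.norm_eq_abs]
    have h4 : ⟪n' p, w p⟫ = ⟪n' p - n p, w p⟫ := by rw [inner_sub_left, ho, sub_zero]
    have h5 := abs_real_inner_le_norm (n' p - n p) (w p)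
    have h6 : 0 < ‖w p‖ := norm_pos_iff.2 (hne p)
    rw [← h4, ← h3] at h5
    nlinarith [hd p]
  · rw [inner_sub_right, real_inner_smul_right, real_inner_self_eq_norm_sq, h1]; ring

/-- a nowhere vanishing section cannot be carried along a homotopy that ends at the identity -/
theorem no_section (u : ℝ × S2 → E3) (hu : Continuous u) (hu0 : ∀ q, u q ≠ 0)
    (h1 : ∀ p : S2, u (1, p) = p) (w : S2 → E3) (hw : Continuous w) (hne : ∀ p, w p ≠ 0)
    (ho : ∀ p, ⟪u (0, p), w p⟫ = 0) : False := by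
  let n : ℝ × S2 → E3 := fun q => ‖u q‖⁻¹ • u q
  have hn : Continuous n := (hu.norm.inv₀ fun q => norm_ne_zero_iff.2 (hu0 q)).smul hu
  have hn1 : ∀ q, ‖n q‖ = 1 := fun q => by
    simp only [n]
    rw [norm_smul, norm_inv, norm_norm, inv_mul_cancel₀ (norm_ne_zero_iff.2 (hu0 q))]
  have hK : IsCompact (Set.Icc (0 : ℝ) 1 ×ˢ (Set.univ : Set S2)) := isCompact_Icc.prod isCompact_univ
  obtain ⟨δ, hδ, hU⟩ := Metric.uniformContinuousOn_iff.1
    (hK.uniformContinuousOn_of_continuous hn.continuousOn) 1 one_pos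
  obtain ⟨N, hN⟩ := exists_nat_one_div_lt hδ
  have hNp : (0 : ℝ) < (N : ℝ) + 1 := by positivity
  have key : ∀ k : ℕ, k ≤ N + 1 → ∃ w' : S2 → E3, Continuous w' ∧ (∀ p, w' p ≠ 0) ∧
      ∀ p, ⟪n ((k : ℝ) / ((N : ℝ) + 1), p), w' p⟫ = 0 := by
    intro k
    induction k with
    | zero =>
      intro _
      refine ⟨w, hw, hne, fun p => ?_⟩
      simp only [n, Nat.cast_zero, zero_div]
      rw [real_inner_smul_left, ho, mul_zero]
    | succ k ih =>
      intro hk
      obtain ⟨w', a1, a2, a3⟩ := ih (by omega)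
      have hk' : (k : ℝ) + 1 ≤ (N : ℝ) + 1 := by exact_mod_cast hk
      have hk0 : (0 : ℝ) ≤ k := Nat.cast_nonneg k
      refine section_step (fun p => n ((k : ℝ) / ((N : ℝ) + 1), p)) _ w'
        (hn.comp (by fun_prop)) a1 (fun p => hn1 _) (fun p => ?_) a2 a3
      rw [← dist_eq_norm]
      apply hU
      · refine ⟨⟨by positivity, ?_⟩, trivial⟩
        rw [div_le_one hNp]; push_cast; exact hk'
      · refine ⟨⟨by positivity, ?_⟩, trivial⟩
        rw [div_le_one hNp]; linarith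
      · rw [Prod.dist_eq, dist_self, Real.dist_eq]
        have : (((k + 1 : ℕ) : ℝ)) / ((N : ℝ) + 1) - (k : ℝ) / ((N : ℝ) + 1) = 1 / ((N : ℝ) + 1) := by
          push_cast; field_simp; ring
        rw [this, abs_of_pos (by positivity)]
        exact max_lt hN hδ
  obtain ⟨w', a1, a2, a3⟩ := key (N + 1) le_rfl
  refine Pool.Agent.Helper775.Hairy.hairy w' a1 a2 fun p => ?_
  have := a3 p
  have e : (((N + 1 : ℕ) : ℝ)) / ((N : ℝ) + 1) = 1 := by push_cast; exact div_self hNp.ne'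
  rw [e] at this
  simp only [n, h1] at this
  rwa [mem_sphere_zero_iff_norm.1 p.2, inv_one, one_smul] at this

/-- real part in the coordinates in which the quadric is the complex sphere -/
def U (T : Fin 3 → ℂ) : E3 := !₂[((T 0).re - (T 1).re) / 2, ((T 0).im + (T 1).im) / 2, (T 2).re]

/-- imaginary part -/
def V (T : Fin 3 → ℂ) : E3 := !₂[((T 0).im - (T 1).im) / 2, -((T 0).re + (T 1).re) / 2, (T 2).im]

/-- the point with given real and imaginary parts -/
def mk (u v : E3) : Fin 3 → ℂ :=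
  ![((u 0 - v 1 : ℝ) : ℂ) + ((v 0 + u 1 : ℝ) : ℂ) * Complex.I,
    ((-u 0 - v 1 : ℝ) : ℂ) + ((-v 0 + u 1 : ℝ) : ℂ) * Complex.I,
    ((u 2 : ℝ) : ℂ) + ((v 2 : ℝ) : ℂ) * Complex.I]

lemma continuous_U : Continuous U := by
  unfold U
  refine (PiLp.continuous_toLp 2 _).comp (continuous_pi fun i => ?_)
  fin_cases i <;> simp <;> fun_prop

lemma continuous_V : Continuous V := by
  unfold V
  refine (PiLp.continuous_toLp 2 _).comp (continuous_pi fun i => ?_)
  fin_cases i <;> simp <;> fun_prop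

lemma continuous_mk : Continuous fun q : E3 × E3 => mk q.1 q.2 := by
  unfold mk
  refine continuous_pi fun i => ?_
  fin_cases i <;> simp <;> fun_prop

lemma U_mk (u v : E3) : U (mk u v) = u := by
  ext i; fin_cases i <;> simp [U, mk]
  ring

lemma V_mk (u v : E3) : V (mk u v) = v := by
  ext i; fin_cases i <;> simp [V, mk]

lemma mk_UV (T : Fin 3 → ℂ) : mk (U T) (V T) = T := by
  ext i
  fin_cases i <;> apply Complex.ext <;> simp [U, V, mk] <;> ring

/-- the quadric -/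
def D : Set (Fin 3 → ℂ) := {T | T 0 * T 1 - T 2 ^ 2 + 1 = 0}

lemma mem_D (T : Fin 3 → ℂ) : T ∈ D ↔ ‖U T‖ ^ 2 = 1 + ‖V T‖ ^ 2 ∧ ⟪U T, V T⟫ = 0 := by
  rw [EuclideanSpace.real_norm_sq_eq, EuclideanSpace.real_norm_sq_eq, PiLp.inner_apply]
  simp only [Fin.sum_univ_three, D, Set.mem_ofPred_eq, Complex.ext_iff]
  simp [U, V, pow_two]
  constructor
  · rintro ⟨h1, h2⟩; constructor <;> linarith
  · rintro ⟨h1, h2⟩; constructor <;> linarith

lemma U_ne {T : Fin 3 → ℂ} (h : T ∈ D) : U T ≠ 0 := by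
  intro h0
  have := ((mem_D T).1 h).1
  rw [h0, norm_zero] at this
  nlinarith [sq_nonneg ‖V T‖]

/-- the real sphere inside the quadric -/
def io (p : S2) : Fin 3 → ℂ := mk p 0

lemma continuous_io : Continuous io :=
  continuous_mk.comp (continuous_subtype_val.prodMk continuous_const)

lemma io_mem (p : S2) : io p ∈ D := by
  rw [mem_D, io, U_mk, V_mk, mem_sphere_zero_iff_norm.1 p.2]; simp

lemma mem_range_io {T : Fin 3 → ℂ} (h : T ∈ D) (hV : V T = 0) : T ∈ Set.range io := by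
  have h1 := ((mem_D T).1 h).1
  rw [hV, norm_zero] at h1
  have h2 : ‖U T‖ = 1 := by nlinarith [norm_nonneg (U T)]
  refine ⟨⟨U T, mem_sphere_zero_iff_norm.2 h2⟩, ?_⟩
  have := mk_UV T
  rwa [hV] at this

/-- the deformation retraction of the quadric onto the real sphere -/
def retr (t : ℝ) (T : Fin 3 → ℂ) : Fin 3 → ℂ :=
  mk ((Real.sqrt (1 + t ^ 2 * ‖V T‖ ^ 2) / ‖U T‖) • U T) (t • V T)

lemma retr_mem (t : ℝ) {T : Fin 3 → ℂ} (h : T ∈ D) : retr t T ∈ D := by
  have h0 : ‖U T‖ ≠ 0 := norm_ne_zero_iff.2 (U_ne h)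
  obtain ⟨_, h2⟩ := (mem_D T).1 h
  rw [mem_D, retr, U_mk, V_mk, real_inner_smul_left, real_inner_smul_right, h2, norm_smul,
    norm_smul, Real.norm_eq_abs, Real.norm_eq_abs, mul_pow, mul_pow, sq_abs, sq_abs, div_pow,
    Real.sq_sqrt (by positivity)]
  refine ⟨by field_simp, by simp⟩

lemma retr_one {T : Fin 3 → ℂ} (h : T ∈ D) : retr 1 T = T := by
  have h0 : ‖U T‖ ≠ 0 := norm_ne_zero_iff.2 (U_ne h)
  obtain ⟨h1, _⟩ := (mem_D T).1 h
  rw [retr, one_pow, one_mul, ← h1, Real.sqrt_sq (norm_nonneg _), div_self h0, one_smul, one_smul,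
    mk_UV]

lemma V_retr_zero (T : Fin 3 → ℂ) : V (retr 0 T) = 0 := by rw [retr, V_mk, zero_smul]

/-- no homeomorphism of the quadric moves the real sphere off itself -/
theorem not_displaced (τ σ : (Fin 3 → ℂ) → (Fin 3 → ℂ)) (hτ : Continuous τ) (hσ : Continuous σ)
    (h1 : ∀ T ∈ D, τ T ∈ D) (h2 : ∀ T ∈ D, σ T ∈ D) (h3 : ∀ T ∈ D, τ (σ T) = T) :
    (τ '' Set.range io) ∩ Set.range io ≠ ∅ := by
  intro h
  let H : ℝ × S2 → (Fin 3 → ℂ) := fun q => τ (retr q.1 (σ (io q.2)))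
  have hm : ∀ p, σ (io p) ∈ D := fun p => h2 _ (io_mem p)
  have hH : Continuous H := by
    have a1 : Continuous fun q : ℝ × S2 => U (σ (io q.2)) :=
      continuous_U.comp (hσ.comp (continuous_io.comp continuous_snd))
    have a2 : Continuous fun q : ℝ × S2 => V (σ (io q.2)) :=
      continuous_V.comp (hσ.comp (continuous_io.comp continuous_snd))
    have a3 : Continuous fun q : ℝ × S2 =>
        Real.sqrt (1 + q.1 ^ 2 * ‖V (σ (io q.2))‖ ^ 2) / ‖U (σ (io q.2))‖ :=
      Continuous.div (by fun_prop) a1.norm fun q => norm_ne_zero_iff.2 (U_ne (hm q.2))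
    have a4 := continuous_mk.comp (Continuous.prodMk (a3.smul a1) (continuous_fst.smul a2))
    exact hτ.comp a4
  have hD : ∀ q, H q ∈ D := fun q => h1 _ (retr_mem _ (hm _))
  refine no_section (fun q => U (H q)) (continuous_U.comp hH) (fun q => U_ne (hD q))
    (fun p => ?_) (fun p => V (H (0, p))) (continuous_V.comp (hH.comp (by fun_prop)))
    (fun p hp => ?_) (fun p => ((mem_D _).1 (hD _)).2)
  · simp only [H]
    rw [retr_one (hm p), h3 _ (io_mem p), io, U_mk]
  · have a1 : H (0, p) ∈ Set.range io := mem_range_io (hD _) hp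
    have a2 : H (0, p) ∈ τ '' Set.range io :=
      ⟨_, mem_range_io (retr_mem 0 (hm p)) (V_retr_zero _), rfl⟩
    have : H (0, p) ∈ (τ '' Set.range io) ∩ Set.range io := ⟨a2, a1⟩
    rw [h] at this
    exact this

/-- the quadric is not a retract of the ambient space -/
theorem not_retract (r : (Fin 3 → ℂ) → (Fin 3 → ℂ)) (hr : Continuous r) (h1 : ∀ T, r T ∈ D)
    (h2 : ∀ T ∈ D, r T = T) : False := by
  let H : ℝ × S2 → (Fin 3 → ℂ) := fun q => r ((q.1 : ℂ) • io q.2)
  have hH : Continuous H := hr.comp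
    ((Complex.continuous_ofReal.comp continuous_fst).smul (continuous_io.comp continuous_snd))
  obtain ⟨w, hw0, hw⟩ : ∃ w : E3, w ≠ 0 ∧ ⟪U (r 0), w⟫ = 0 := by
    by_cases h : U (r 0) 0 = 0
    · refine ⟨!₂[1, 0, 0], fun hh => ?_, ?_⟩
      · simpa using congrArg (fun x : E3 => x 0) hh
      · simp [PiLp.inner_apply, Fin.sum_univ_three, h]
    · refine ⟨!₂[-U (r 0) 1, U (r 0) 0, 0], fun hh => h ?_, ?_⟩
      · simpa using congrArg (fun x : E3 => x 1) hh
      · simp [PiLp.inner_apply, Fin.sum_univ_three]; ring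
  refine no_section (fun q => U (H q)) (continuous_U.comp hH) (fun q => U_ne (h1 _))
    (fun p => ?_) (fun _ => w) continuous_const (fun _ => hw0) (fun p => ?_)
  · simp only [H, Complex.ofReal_one, one_smul]
    rw [h2 _ (io_mem p), io, U_mk]
  · simpa [H] using hw

/-- the real sphere is holomorphically convex -/
theorem convex_sphere (T : Fin 3 → ℂ) (hT : T ∈ D)
    (h : ∀ f : (Fin 3 → ℂ) → ℂ, Differentiable ℂ f →
      ∀ c : ℝ, (∀ y ∈ Set.range io, ‖f y‖ ≤ c) → ‖f T‖ ≤ c) : T ∈ Set.range io := by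
  have key : ∀ l : (Fin 3 → ℂ) → ℂ, Differentiable ℂ l → (∀ p, (l (io p)).re = 0) →
      (l T).re = 0 := by
    intro l hl h0
    have a1 := h (fun y => Complex.exp (l y)) hl.cexp 1 (by
      rintro _ ⟨p, rfl⟩; rw [Complex.norm_exp, h0]; simp)
    have a2 := h (fun y => Complex.exp (-l y)) hl.neg.cexp 1 (by
      rintro _ ⟨p, rfl⟩; rw [Complex.norm_exp, Complex.neg_re, h0]; simp)
    rw [Complex.norm_exp, Real.exp_le_one_iff] at a1 a2
    rw [Complex.neg_re] at a2
    linarith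
  have b1 := key (fun y => (y 0 - y 1) * Complex.I) (by fun_prop) (fun p => by simp [io, mk])
  have b2 := key (fun y => y 0 + y 1) (by fun_prop) (fun p => by simp [io, mk])
  have b3 := key (fun y => y 2 * Complex.I) (by fun_prop) (fun p => by simp [io, mk])
  simp at b1 b2 b3
  refine mem_range_io hT ?_
  ext i
  fin_cases i <;> simp [V] <;> linarith

end Pool.Agent.H80Z.Dan
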