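import Mathlib
import Pool.Agent.H80Z.DanAlg
import Pool.Agent.H80Z.DanTop
import Pool.Agent.H80Z.DanExtDefs

namespace Pool.Agent.H80Z.DanExt

open Pool.Agent.H80Z.Dan

lemma mem_setZ (w : Fin 6 → ℂ) : w ∈ setZ ↔ w 0 * w 1 - w 2 ^ 2 + 1 = 0 := mem_zero 3 w

lemma X_sub : setX ⊆ setZ := fun w hw => (mem_setZ w).2 hw.1

lemma Y_sub : setY ⊆ setZ := fun w hw => (mem_setZ w).2 (by rw [hw.1, hw.2.2.1]; simp)

lemma maps_phi : Set.MapsTo phi setX setY := fun w hw => by simpa [phi, setY] using hw.1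

lemma maps_psi : Set.MapsTo psi setY setX := fun w hw => by simpa [psi, setX] using hw.2.2.2

lemma inv_on : Set.InvOn psi phi setX setY := by
  constructor
  · rintro w ⟨-, h3, h4, h5⟩
    ext i; fin_cases i <;> simp [phi, psi, h3, h4, h5]
  · rintro w ⟨h0, h1, h2, -⟩
    ext i; fin_cases i <;> simp [phi, psi, h0, h1, h2]

theorem no_ext : ¬ ∃ Φ : setZ ≃ₜ setZ, ∀ w : setZ, (w : Fin 6 → ℂ) ∈ setX →
    (Φ w : Fin 6 → ℂ) = phi w := by
  rintro ⟨Φ, hΦ⟩
  let j : (Fin 3 → ℂ) → setZ := fun T => ⟨![0, 0, 1, T 0, T 1, T 2], (mem_setZ _).2 (by simp)⟩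
  have hj : Continuous j := by
    refine Continuous.subtype_mk (continuous_pi fun i => ?_) _
    fin_cases i <;> simp <;> fun_prop
  let pr : (Fin 6 → ℂ) → (Fin 3 → ℂ) := fun w => ![w 0, w 1, w 2]
  have hpr : Continuous pr := by
    refine continuous_pi fun i => ?_
    fin_cases i <;> simp [pr] <;> fun_prop
  refine not_retract (fun T => pr (Φ.symm (j T)))
    (hpr.comp (continuous_subtype_val.comp (Φ.symm.continuous.comp hj))) (fun T => ?_)
    (fun T hT => ?_)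
  · simpa [D, pr] using (mem_setZ _).1 (Φ.symm (j T)).2
  · have hT' : T 0 * T 1 - T 2 ^ 2 + 1 = 0 := hT
    let w : setZ := ⟨![T 0, T 1, T 2, 0, 0, 0], (mem_setZ _).2 (by simpa using hT')⟩
    have h1 : Φ w = j T := Subtype.ext (by
      rw [hΦ w (by simpa [w, setX] using hT')]; simp [phi, w, j])
    rw [← h1, Homeomorph.symm_apply_apply]
    ext i; fin_cases i <;> simp [pr, w]

end Pool.Agent.H80Z.DanExt
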