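import Pool.Agent.H800Z.Erg.St2

/-! The local Calderón–Zygmund decomposition `S_cz`. -/

set_option autoImplicit false
set_option linter.unusedSectionVars false

open MeasureTheory Filter Topology
open scoped ENNReal NNReal

namespace Pool.Agent.H80Z.ErgCZ

open Pool.Agent.H800Z.Erg

variable [MeasurableSpace G] [BorelSpace G] (m : Measure G) [m.IsHaarMeasure]
  {X : Type} [MeasurableSpace X] [MulAction G X] {μ : Measure X} [IsProbabilityMeasure μ]

/-- local averages -/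
noncomputable def M (R : ℝ) (φ : X → ℝ≥0∞) (x : X) : ℝ≥0∞ := ∫⁻ γ in B R, φ (γ • x) ∂m

lemma M_mono (R : ℝ) {φ ψ : X → ℝ≥0∞} (h : ∀ x, φ x ≤ ψ x) (x : X) : M m R φ x ≤ M m R ψ x :=
  lintegral_mono fun _ => h _

lemma M_shift {R S : ℝ} (φ : X → ℝ≥0∞) {h : G} (hh : h ∈ B S) (z : X) :
    M m R φ (h • z) ≤ M m (R * S) φ z := by
  have := isMulRightInvariant m
  unfold M
  rw [← lintegral_indicator (measurableSet_B _), ← lintegral_indicator (measurableSet_B _),
    ← lintegral_mul_right_eq_self (fun γ => (B (R * S)).indicator (fun γ => φ (γ • z)) γ) h]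
  refine lintegral_mono fun γ => ?_
  by_cases hγ : γ ∈ B R
  · simp only [Set.indicator_of_mem hγ, Set.indicator_of_mem (mul_mem_B hγ hh), mul_smul, le_refl]
  · simp [Set.indicator_of_notMem hγ]

lemma M_shift9 (φ : X → ℝ≥0∞) {h : G} (hh : h ∈ B 9) (z : X) :
    M m 9 φ z ≤ M m 81 φ (h • z) := by
  have := M_shift m (R := 9) φ (inv_mem_B.2 hh) (h • z)
  rw [inv_smul_smul] at this
  norm_num at this
  exact this

lemma M_shift81 (φ : X → ℝ≥0∞) {h : G} (hh : h ∈ B 9) (z : X) :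
    M m 81 φ (h • z) ≤ M m 729 φ z := by
  have := M_shift m (R := 81) φ hh z
  norm_num at this
  exact this

lemma meas_smul (hA : Act X μ) (x : X) : Measurable fun γ : G => γ • x :=
  hA.meas.comp (measurable_id.prodMk measurable_const)

lemma M_meas (hA : Act X μ) (R : ℝ) {φ : X → ℝ≥0∞} (hφ : Measurable φ) :
    Measurable (M m R φ) :=
  Measurable.lintegral_prod_left' (f := fun p : G × X => φ (p.1 • p.2)) (hφ.comp hA.meas)

lemma M_int (hA : Act X μ) (R : ℝ) {φ : X → ℝ≥0∞} (hφ : Measurable φ) :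
    ∫⁻ x, M m R φ x ∂μ = m (B R) * ∫⁻ x, φ x ∂μ := by
  unfold M
  rw [lintegral_lintegral_swap (f := fun (x : X) (γ : G) => φ (γ • x))
    ((hφ.comp (hA.meas.comp measurable_swap)).aemeasurable)]
  have : ∀ γ : G, ∫⁻ x, φ (γ • x) ∂μ = ∫⁻ x, φ x ∂μ := fun γ =>
    (hA.pres γ).lintegral_comp hφ
  simp only [this, lintegral_const, Measure.restrict_apply_univ, mul_comm]

lemma M_cmul (hA : Act X μ) (R : ℝ) (c : ℝ≥0∞) {φ : X → ℝ≥0∞} (hφ : Measurable φ) (x : X) :
    M m R (fun y => c * φ y) x = c * M m R φ x :=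
  lintegral_const_mul c (hφ.comp (meas_smul hA x))

lemma M_congr {φ ψ : X → ℝ≥0∞} {R : ℝ} {z : X} (h : ∀ γ ∈ B R, φ (γ • z) = ψ (γ • z)) :
    M m R φ z = M m R ψ z :=
  setLIntegral_congr_fun (measurableSet_B R) h

lemma steps (hA : Act X μ) {f : X → ℝ≥0∞} (hf : Measurable f) (k j : ℕ) :
    ∃ (g : X → ℝ≥0∞) (A : Set X), Measurable g ∧ MeasurableSet A ∧
      (∀ x, g x ≤ 2 ^ j * 2⁻¹ ^ k * f x) ∧ (∀ x ∈ A, g x = 2 ^ j * 2⁻¹ ^ k * f x) ∧
      (∀ z, M m 9 g z ≤ 2) ∧ ∀ y ∉ A, 2 ^ k < M m 81 f y ∨ 1 < M m 81 g y := by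
  have hk : (2⁻¹ : ℝ≥0∞) ^ k * 2 ^ k = 1 := by
    rw [← mul_pow, ENNReal.inv_mul_cancel (by simp) (by simp), one_pow]
  induction j with
  | zero =>
    have hA0 : MeasurableSet {y | M m 81 f y ≤ 2 ^ k} :=
      measurableSet_le (M_meas m hA 81 hf) measurable_const
    refine ⟨{y | M m 81 f y ≤ 2 ^ k}.indicator (fun x => 2⁻¹ ^ k * f x), _,
      (hf.const_mul _).indicator hA0, hA0, fun x => ?_, fun x hx => ?_, fun z => ?_,
      fun y hy => Or.inl (not_le.1 hy)⟩
    · rw [pow_zero, one_mul]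
      exact Set.indicator_le_self _ _ x
    · rw [pow_zero, one_mul, Set.indicator_of_mem hx]
    · by_cases h : ∃ γ ∈ B 9, γ • z ∈ {y | M m 81 f y ≤ 2 ^ k}
      · obtain ⟨γ, hγ, h⟩ := h
        refine (M_mono m 9 (fun x => Set.indicator_le_self _ _ x) z).trans ?_
        rw [M_cmul m hA 9 _ hf]
        calc _ ≤ (2⁻¹ : ℝ≥0∞) ^ k * 2 ^ k := by
              gcongr
              exact (M_shift9 m f hγ z).trans h
          _ ≤ 2 := by rw [hk]; exact one_le_two
      · push Not at h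
        rw [M_congr m (ψ := fun _ => 0) (fun γ hγ => Set.indicator_of_notMem (h γ hγ) _)]
        simp [M]
  | succ j ih =>
    obtain ⟨g, A, hg, hAm, h1, h2, h3, h4⟩ := ih
    have hA' : MeasurableSet (A ∩ {y | M m 81 g y ≤ 1}) :=
      hAm.inter (measurableSet_le (M_meas m hA 81 hg) measurable_const)
    have hle : ∀ x, g x + (A ∩ {y | M m 81 g y ≤ 1}).indicator g x ≤ 2 * g x := by
      intro x
      rw [two_mul]
      gcongr
      exact Set.indicator_le_self _ _ x
    refine ⟨fun x => g x + (A ∩ {y | M m 81 g y ≤ 1}).indicator g x, _,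
      hg.add (hg.indicator hA'), hA', fun x => ?_, fun x hx => ?_, fun z => ?_, fun y hy => ?_⟩
    · refine (hle x).trans ?_
      calc 2 * g x ≤ 2 * (2 ^ j * 2⁻¹ ^ k * f x) := by gcongr; exact h1 x
        _ = _ := by ring
    · beta_reduce
      rw [Set.indicator_of_mem hx, h2 x hx.1]
      ring
    · by_cases h : ∃ γ ∈ B 9, γ • z ∈ A ∩ {y | M m 81 g y ≤ 1}
      · obtain ⟨γ, hγ, h⟩ := h
        refine (M_mono m 9 hle z).trans ?_
        rw [M_cmul m hA 9 _ hg]
        calc _ ≤ (2 : ℝ≥0∞) * 1 := by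
              gcongr
              exact (M_shift9 m g hγ z).trans h.2
          _ = 2 := mul_one _
      · push Not at h
        rw [M_congr m (ψ := g) (fun γ hγ => by
          simp only [Set.indicator_of_notMem (h γ hγ), add_zero])]
        exact h3 z
    · have hm : M m 81 g y ≤ M m 81 (fun x => g x + (A ∩ {y | M m 81 g y ≤ 1}).indicator g x) y :=
        M_mono m 81 (fun x => le_self_add) y
      by_cases hyA : y ∈ A
      · exact Or.inr ((not_le.1 (fun h => hy ⟨hyA, h⟩)).trans_le hm)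
      · exact (h4 y hyA).imp id (fun h => h.trans_le hm)

theorem thm_cz : S_cz := by
  intro _ _ m _ X _ _ μ _ hA f hf k
  obtain ⟨g, A, hg, -, h1, h2, h3, h4⟩ := steps m hA hf k k
  have hk : (2 : ℝ≥0∞) ^ k * 2⁻¹ ^ k = 1 := by
    rw [← mul_pow, ENNReal.mul_inv_cancel (by simp) (by simp), one_pow]
  rw [hk] at h1 h2
  simp only [one_mul] at h1 h2
  refine ⟨g, fun x => f x - g x, hg, hf.sub hg, fun x => add_tsub_cancel_of_le (h1 x), h3, ?_⟩
  have hsub : {x | ∫⁻ γ in B 9, (f (γ • x) - g (γ • x)) ∂m ≠ 0} ⊆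
      {x | 2 ^ k ≤ M m 729 f x} ∪ {x | 1 ≤ M m 729 g x} := by
    intro z hz
    have : ∃ γ ∈ B 9, γ • z ∉ A := by
      by_contra h
      push Not at h
      apply hz
      have := M_congr m (φ := fun x => f x - g x) (ψ := fun _ => 0) (R := 9) (z := z)
        (fun γ hγ => by rw [h2 _ (h γ hγ), tsub_self])
      simpa [M] using this
    obtain ⟨γ, hγ, h⟩ := this
    rcases h4 _ h with h | h
    · exact Or.inl (h.le.trans (M_shift81 m f hγ z))
    · exact Or.inr (h.le.trans (M_shift81 m g hγ z))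
  refine (measure_mono hsub).trans ((measure_union_le _ _).trans ?_)
  rw [mul_add]
  refine add_le_add ?_ ?_
  · have := mul_meas_ge_le_lintegral (μ := μ) (M_meas m hA 729 hf) (2 ^ k)
    rw [M_int m hA 729 hf] at this
    calc _ = (2⁻¹ : ℝ≥0∞) ^ k * (2 ^ k * μ {x | 2 ^ k ≤ M m 729 f x}) := by
          rw [← mul_assoc, mul_comm (_ ^ k), hk, one_mul]
      _ ≤ 2⁻¹ ^ k * (m (B 729) * ∫⁻ x, f x ∂μ) := by gcongr
      _ = _ := by ring
  · have := mul_meas_ge_le_lintegral (μ := μ) (M_meas m hA 729 hg) 1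
    rwa [M_int m hA 729 hg, one_mul] at this

end Pool.Agent.H80Z.ErgCZ
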