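import Mathlib

/-!
A commutative unital Banach algebra with linearly dense idempotents whose multiplication is not
an open map.  It is the unitization (sum norm) of the `c₀`-sum of two-dimensional blocks
with basis `x, z` and products `x x = z / 2`, `x z = τ x`, `z z = τ z`, where `τ = 16⁻ⁿ / 2`
in the block number `n`.
-/

open scoped ZeroAtInfty Topology
open Filter

namespace Pool.Agent.H80Z.OpenMul

noncomputable section

/-- a null sequence as an element of `c₀` -/
def mk0 (f : ℕ → ℂ) (hf : Tendsto f atTop (𝓝 0)) : C₀(ℕ, ℂ) where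
  toFun := f
  continuous_toFun := continuous_of_discreteTopology
  zero_at_infty' := by
    rw [Filter.cocompact_eq_cofinite, Nat.cofinite_eq_atTop]; exact hf

@[simp] lemma mk0_apply (f : ℕ → ℂ) (hf : Tendsto f atTop (𝓝 0)) (n : ℕ) : mk0 f hf n = f n := rfl

lemma c0_apply_le (p : C₀(ℕ, ℂ)) (n : ℕ) : ‖p n‖ ≤ ‖p‖ := by
  rw [← ZeroAtInftyContinuousMap.norm_toBCF_eq_norm]
  exact p.toBCF.norm_coe_le_norm n

lemma c0_norm_le (p : C₀(ℕ, ℂ)) (C : ℝ) (hC : 0 ≤ C) (h : ∀ n, ‖p n‖ ≤ C) : ‖p‖ ≤ C := by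
  rw [← ZeroAtInftyContinuousMap.norm_toBCF_eq_norm]
  exact (BoundedContinuousFunction.norm_le hC).2 h

/-- the real sequence `2⁻ⁿ` -/
def a (n : ℕ) : ℝ := (1 / 2 : ℝ) ^ n

lemma a_pos (n : ℕ) : 0 < a n := by unfold a; positivity

lemma a_le_one (n : ℕ) : a n ≤ 1 := by
  unfold a; exact pow_le_one₀ (by norm_num) (by norm_num)

lemma a_tendsto : Tendsto a atTop (𝓝 0) :=
  tendsto_pow_atTop_nhds_zero_of_lt_one (by norm_num) (by norm_num)

/-- the sequence `2⁻ⁿ` in `c₀` -/
def eps : C₀(ℕ, ℂ) := mk0 (fun n => (a n : ℂ)) (by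
  have := (Complex.continuous_ofReal.tendsto 0).comp a_tendsto
  simpa [Function.comp_def] using this)

@[simp] lemma eps_apply (n : ℕ) : eps n = (a n : ℂ) := rfl

/-- the sequence `16⁻ⁿ / 2` in `c₀` -/
def tau : C₀(ℕ, ℂ) := (1 / 2 : ℂ) • (eps * eps * eps * eps)

lemma tau_apply (n : ℕ) : tau n = (a n : ℂ) ^ 4 / 2 := by
  simp [tau]; ring

lemma norm_tau_apply (n : ℕ) : ‖tau n‖ = a n ^ 4 / 2 := by
  rw [tau_apply]; simp [abs_of_pos (a_pos n)]

lemma norm_tau_le (n : ℕ) : ‖tau n‖ ≤ 1 / 2 := by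
  rw [norm_tau_apply]
  have := pow_le_one₀ (n := 4) (a_pos n).le (a_le_one n)
  linarith

/-- the unit vectors of `c₀` -/
def dl (m : ℕ) : C₀(ℕ, ℂ) := mk0 (fun n => if n = m then 1 else 0) (by
  refine tendsto_const_nhds.congr' ?_
  filter_upwards [eventually_gt_atTop m] with n hn
  simp [hn.ne'])

lemma dl_apply (m n : ℕ) : dl m n = if n = m then 1 else 0 := rfl

/-- a closed subspace of `c₀` that holds all unit vectors is everything -/
lemma c0_dense (S : Submodule ℂ C₀(ℕ, ℂ)) (hS : IsClosed (S : Set C₀(ℕ, ℂ)))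
    (h : ∀ m, dl m ∈ S) (p : C₀(ℕ, ℂ)) : p ∈ S := by
  have hp : Tendsto p atTop (𝓝 0) := by
    have := p.zero_at_infty'
    rwa [Filter.cocompact_eq_cofinite, Nat.cofinite_eq_atTop] at this
  have : p ∈ closure (S : Set C₀(ℕ, ℂ)) := by
    rw [Metric.mem_closure_iff]
    intro ε hε
    obtain ⟨N, hN⟩ := (Metric.tendsto_atTop.1 hp) (ε / 2) (by linarith)
    refine ⟨∑ m ∈ Finset.range N, p m • dl m, S.sum_mem fun m _ => S.smul_mem _ (h m), ?_⟩
    rw [dist_eq_norm]
    refine lt_of_le_of_lt (c0_norm_le _ (ε / 2) (by linarith) fun n => ?_) (by linarith)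
    have hsum : (∑ m ∈ Finset.range N, p m • dl m) n = ∑ m ∈ Finset.range N, p m * dl m n := by
      induction N with
      | zero => simp
      | succ k _ =>
        have : ∀ s : Finset ℕ, (∑ m ∈ s, p m • dl m) n = ∑ m ∈ s, p m * dl m n := by
          intro s
          induction s using Finset.induction_on with
          | empty => simp
          | insert x s hx ih => simp [Finset.sum_insert hx, ih]
        exact this _
    rw [ZeroAtInftyContinuousMap.sub_apply, hsum]
    simp only [dl_apply, mul_ite, mul_one, mul_zero, Finset.sum_ite_eq, Finset.mem_range]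
    split_ifs with hn
    · simp; linarith
    · have := hN n (by omega)
      rw [dist_zero_right] at this
      simpa using this.le
  rwa [hS.closure_eq] at this

/-- the non-unital algebra -/
def B : Type := C₀(ℕ, ℂ) × C₀(ℕ, ℂ)

instance : NormedAddCommGroup B := inferInstanceAs (NormedAddCommGroup (C₀(ℕ, ℂ) × C₀(ℕ, ℂ)))
instance : NormedSpace ℂ B := inferInstanceAs (NormedSpace ℂ (C₀(ℕ, ℂ) × C₀(ℕ, ℂ)))
instance : CompleteSpace B := inferInstanceAs (CompleteSpace (C₀(ℕ, ℂ) × C₀(ℕ, ℂ)))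

/-- pairing -/
def B.mk (p q : C₀(ℕ, ℂ)) : B := (p, q)
/-- first coordinate -/
def B.x (b : B) : C₀(ℕ, ℂ) := Prod.fst b
/-- second coordinate -/
def B.z (b : B) : C₀(ℕ, ℂ) := Prod.snd b

@[simp] lemma B.mk_x (p q : C₀(ℕ, ℂ)) : (B.mk p q).x = p := rfl
@[simp] lemma B.mk_z (p q : C₀(ℕ, ℂ)) : (B.mk p q).z = q := rfl
@[simp] lemma B.add_x (b c : B) : (b + c).x = b.x + c.x := rfl
@[simp] lemma B.add_z (b c : B) : (b + c).z = b.z + c.z := rfl
@[simp] lemma B.sub_x (b c : B) : (b - c).x = b.x - c.x := rfl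
@[simp] lemma B.sub_z (b c : B) : (b - c).z = b.z - c.z := rfl
@[simp] lemma B.zero_x : (0 : B).x = 0 := rfl
@[simp] lemma B.zero_z : (0 : B).z = 0 := rfl
@[simp] lemma B.smul_x (r : ℂ) (b : B) : (r • b).x = r • b.x := rfl
@[simp] lemma B.smul_z (r : ℂ) (b : B) : (r • b).z = r • b.z := rfl

lemma B.ext {b c : B} (h1 : ∀ n, b.x n = c.x n) (h2 : ∀ n, b.z n = c.z n) : b = c :=
  Prod.ext (ZeroAtInftyContinuousMap.ext h1) (ZeroAtInftyContinuousMap.ext h2)

lemma B.norm_def (b : B) : ‖b‖ = max ‖b.x‖ ‖b.z‖ := rfl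

lemma B.x_le (b : B) (n : ℕ) : ‖b.x n‖ ≤ ‖b‖ :=
  (c0_apply_le _ n).trans (by rw [B.norm_def]; exact le_max_left _ _)

lemma B.z_le (b : B) (n : ℕ) : ‖b.z n‖ ≤ ‖b‖ :=
  (c0_apply_le _ n).trans (by rw [B.norm_def]; exact le_max_right _ _)

lemma B.norm_le (b : B) (C : ℝ) (hC : 0 ≤ C) (h1 : ∀ n, ‖b.x n‖ ≤ C) (h2 : ∀ n, ‖b.z n‖ ≤ C) :
    ‖b‖ ≤ C := by
  rw [B.norm_def]; exact max_le (c0_norm_le _ C hC h1) (c0_norm_le _ C hC h2)

instance : Mul B :=
  ⟨fun b c => B.mk (tau * (b.x * c.z + b.z * c.x)) ((1 / 2 : ℂ) • (b.x * c.x) + tau * (b.z * c.z))⟩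

lemma B.mul_x (b c : B) (n : ℕ) : (b * c).x n = tau n * (b.x n * c.z n + b.z n * c.x n) := rfl

lemma B.mul_z (b c : B) (n : ℕ) :
    (b * c).z n = (1 / 2 : ℂ) * (b.x n * c.x n) + tau n * (b.z n * c.z n) := rfl

instance : NonUnitalNormedCommRing B :=
  { (inferInstance : NormedAddCommGroup B), (inferInstance : Mul B) with
    left_distrib := fun b c d => B.ext (fun n => by simp [B.mul_x]; ring)
      (fun n => by simp [B.mul_z]; ring)
    right_distrib := fun b c d => B.ext (fun n => by simp [B.mul_x]; ring)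
      (fun n => by simp [B.mul_z]; ring)
    zero_mul := fun b => B.ext (fun n => by simp [B.mul_x]) (fun n => by simp [B.mul_z])
    mul_zero := fun b => B.ext (fun n => by simp [B.mul_x]) (fun n => by simp [B.mul_z])
    mul_assoc := fun b c d => B.ext (fun n => by simp only [B.mul_x, B.mul_z]; ring)
      (fun n => by simp only [B.mul_x, B.mul_z]; ring)
    mul_comm := fun b c => B.ext (fun n => by simp only [B.mul_x]; ring)
      (fun n => by simp only [B.mul_z]; ring)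
    norm_mul_le := fun b c => by
      have hb := norm_nonneg b
      have hc := norm_nonneg c
      refine B.norm_le _ _ (by positivity) (fun n => ?_) (fun n => ?_)
      · rw [B.mul_x, norm_mul]
        have h1 : ‖b.x n * c.z n + b.z n * c.x n‖ ≤ 2 * (‖b‖ * ‖c‖) := by
          refine (norm_add_le _ _).trans ?_
          rw [norm_mul, norm_mul]
          have := mul_le_mul (b.x_le n) (c.z_le n) (norm_nonneg _) hb
          have := mul_le_mul (b.z_le n) (c.x_le n) (norm_nonneg _) hb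
          linarith
        have := mul_le_mul (norm_tau_le n) h1 (norm_nonneg _) (by norm_num)
        linarith
      · rw [B.mul_z]
        refine (norm_add_le _ _).trans ?_
        rw [norm_mul, norm_mul, norm_mul, norm_mul]
        have h1 := mul_le_mul (b.x_le n) (c.x_le n) (norm_nonneg _) hb
        have h2 := mul_le_mul (b.z_le n) (c.z_le n) (norm_nonneg _) hb
        have h3 := mul_le_mul (norm_tau_le n) h2 (by positivity) (by norm_num)
        have h4 : ‖(1 / 2 : ℂ)‖ = 1 / 2 := by simp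
        rw [h4]
        linarith }

instance : IsScalarTower ℂ B B :=
  ⟨fun r b c => B.ext (fun n => by simp [B.mul_x]; ring) (fun n => by simp [B.mul_z]; ring)⟩

instance : SMulCommClass ℂ B B :=
  ⟨fun r b c => B.ext (fun n => by simp [B.mul_x]; ring) (fun n => by simp [B.mul_z]; ring)⟩

/-- the unital algebra -/
def A : Type := WithLp 1 (Unitization ℂ B)

instance : NormedRing A := inferInstanceAs (NormedRing (WithLp 1 (Unitization ℂ B)))

/-- scalar part -/
def A.s (f : A) : ℂ := (WithLp.ofLp f : Unitization ℂ B).fst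
/-- part in the non-unital algebra -/
def A.b (f : A) : B := (WithLp.ofLp f : Unitization ℂ B).snd
/-- constructor -/
def A.mk (s : ℂ) (b : B) : A := WithLp.toLp 1 (Unitization.inl s + (b : Unitization ℂ B))

@[simp] lemma A.mk_s (s : ℂ) (b : B) : (A.mk s b).s = s := by simp [A.mk, A.s]
@[simp] lemma A.mk_b (s : ℂ) (b : B) : (A.mk s b).b = b := by simp [A.mk, A.b]

lemma A.ext {f g : A} (h1 : f.s = g.s) (h2 : f.b = g.b) : f = g := by
  apply (WithLp.equiv 1 (Unitization ℂ B)).injective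
  exact Unitization.ext h1 h2

lemma A.mul_s (f g : A) : (f * g).s = f.s * g.s := rfl
lemma A.mul_b (f g : A) : (f * g).b = f.s • g.b + g.s • f.b + f.b * g.b := rfl
lemma A.norm_def (f : A) : ‖f‖ = ‖f.s‖ + ‖f.b‖ := WithLp.unitization_norm_def f
@[simp] lemma A.add_s (f g : A) : (f + g).s = f.s + g.s := rfl
@[simp] lemma A.add_b (f g : A) : (f + g).b = f.b + g.b := rfl
@[simp] lemma A.one_s : (1 : A).s = 1 := rfl
@[simp] lemma A.one_b : (1 : A).b = 0 := rfl
@[simp] lemma A.neg_s (f : A) : (-f).s = -f.s := rfl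
@[simp] lemma A.neg_b (f : A) : (-f).b = -f.b := rfl
@[simp] lemma A.sub_s (f g : A) : (f - g).s = f.s - g.s := by simp [sub_eq_add_neg]
@[simp] lemma A.sub_b (f g : A) : (f - g).b = f.b - g.b := by simp [sub_eq_add_neg]

instance : NormedCommRing A :=
  { (inferInstance : NormedRing A) with
    mul_comm := fun f g => A.ext (by rw [A.mul_s, A.mul_s, mul_comm])
      (by rw [A.mul_b, A.mul_b, mul_comm f.b, add_comm (f.s • g.b)]) }

instance : NormedAlgebra ℂ A := inferInstanceAs (NormedAlgebra ℂ (WithLp 1 (Unitization ℂ B)))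
instance : CompleteSpace A := inferInstanceAs (CompleteSpace (WithLp 1 (Unitization ℂ B)))

@[simp] lemma A.smul_s (r : ℂ) (f : A) : (r • f).s = r * f.s := rfl
@[simp] lemma A.smul_b (r : ℂ) (f : A) : (r • f).b = r • f.b := rfl

instance : NormOneClass A := ⟨by rw [A.norm_def]; simp⟩

/-- the inclusion of the first copy of `c₀` -/
def ix : C₀(ℕ, ℂ) →L[ℂ] A := LinearMap.mkContinuous
  { toFun := fun p => A.mk 0 (B.mk p 0)
    map_add' := fun p q => A.ext (by simp) (B.ext (by simp) (by simp))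
    map_smul' := fun r p => A.ext (by simp) (B.ext (by simp) (by simp)) } 1
  (fun p => by simp [A.norm_def, B.norm_def])

/-- the inclusion of the second copy of `c₀` -/
def iz : C₀(ℕ, ℂ) →L[ℂ] A := LinearMap.mkContinuous
  { toFun := fun p => A.mk 0 (B.mk 0 p)
    map_add' := fun p q => A.ext (by simp) (B.ext (by simp) (by simp))
    map_smul' := fun r p => A.ext (by simp) (B.ext (by simp) (by simp)) } 1
  (fun p => by simp [A.norm_def, B.norm_def])

lemma ix_apply (p : C₀(ℕ, ℂ)) : ix p = A.mk 0 (B.mk p 0) := rfl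
lemma iz_apply (p : C₀(ℕ, ℂ)) : iz p = A.mk 0 (B.mk 0 p) := rfl

lemma idem_one (m : ℕ) : IsIdempotentElem ((2 / (a m : ℂ) ^ 4) • iz (dl m)) := by
  have ha : (a m : ℂ) ≠ 0 := by exact_mod_cast (a_pos m).ne'
  unfold IsIdempotentElem
  refine A.ext (by simp [A.mul_s, iz_apply]) (B.ext (fun n => ?_) (fun n => ?_))
  · simp [A.mul_b, iz_apply, B.mul_x]
  · simp only [A.mul_b, iz_apply, A.smul_s, A.mk_s, mul_zero, A.smul_b, A.mk_b, zero_smul, zero_add,
      B.mul_z, B.smul_x, B.mk_x, B.smul_z, B.mk_z, ZeroAtInftyContinuousMap.smul_apply,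
      ZeroAtInftyContinuousMap.zero_apply, smul_eq_mul, dl_apply, tau_apply]
    split_ifs with h
    · subst h; field_simp
    · simp

lemma idem_plus (m : ℕ) :
    IsIdempotentElem ((1 / (a m : ℂ) ^ 2) • ix (dl m) + (1 / (a m : ℂ) ^ 4) • iz (dl m)) := by
  have ha : (a m : ℂ) ≠ 0 := by exact_mod_cast (a_pos m).ne'
  unfold IsIdempotentElem
  refine A.ext (by simp [A.mul_s, iz_apply, ix_apply]) (B.ext (fun n => ?_) (fun n => ?_))
  · simp only [A.mul_b, iz_apply, ix_apply, A.smul_s, A.mk_s, mul_zero, A.smul_b, A.mk_b, zero_smul,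
      zero_add, add_zero, A.add_s, A.add_b, B.add_x, B.add_z, ZeroAtInftyContinuousMap.add_apply,
      B.mul_x, B.smul_x, B.mk_x, B.smul_z, B.mk_z, ZeroAtInftyContinuousMap.smul_apply,
      ZeroAtInftyContinuousMap.zero_apply, smul_eq_mul, dl_apply, tau_apply]
    split_ifs with h
    · subst h; field_simp; ring
    · simp
  · simp only [A.mul_b, iz_apply, ix_apply, A.smul_s, A.mk_s, mul_zero, A.smul_b, A.mk_b, zero_smul,
      zero_add, add_zero, A.add_s, A.add_b, B.add_x, B.add_z, ZeroAtInftyContinuousMap.add_apply,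
      B.mul_z, B.smul_x, B.mk_x, B.smul_z, B.mk_z, ZeroAtInftyContinuousMap.smul_apply,
      ZeroAtInftyContinuousMap.zero_apply, smul_eq_mul, dl_apply, tau_apply]
    split_ifs with h
    · subst h; field_simp; ring
    · simp

theorem dense_idem :
    Dense ((Submodule.span ℂ {e : A | IsIdempotentElem e} : Submodule ℂ A) : Set A) := by
  set S : Submodule ℂ A := Submodule.span ℂ {e : A | IsIdempotentElem e} with hS
  have hz : ∀ m, iz (dl m) ∈ S := fun m => by
    have ha : (a m : ℂ) ≠ 0 := by exact_mod_cast (a_pos m).ne'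
    have h1 : (2 / (a m : ℂ) ^ 4) • iz (dl m) ∈ S := Submodule.subset_span (idem_one m)
    have h2 := S.smul_mem ((a m : ℂ) ^ 4 / 2) h1
    rwa [smul_smul, show (a m : ℂ) ^ 4 / 2 * (2 / (a m : ℂ) ^ 4) = 1 by field_simp, one_smul] at h2
  have hx : ∀ m, ix (dl m) ∈ S := fun m => by
    have ha : (a m : ℂ) ≠ 0 := by exact_mod_cast (a_pos m).ne'
    have h1 : (1 / (a m : ℂ) ^ 2) • ix (dl m) + (1 / (a m : ℂ) ^ 4) • iz (dl m) ∈ S :=
      Submodule.subset_span (idem_plus m)
    have h2 := S.sub_mem h1 (S.smul_mem (1 / (a m : ℂ) ^ 4) (hz m))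
    rw [add_sub_cancel_right] at h2
    have h3 := S.smul_mem ((a m : ℂ) ^ 2) h2
    rwa [smul_smul, show (a m : ℂ) ^ 2 * (1 / (a m : ℂ) ^ 2) = 1 by field_simp, one_smul] at h3
  have hcl : IsClosed (S.topologicalClosure : Set A) := S.isClosed_topologicalClosure
  have hX : ∀ p, ix p ∈ S.topologicalClosure := fun p =>
    c0_dense (S.topologicalClosure.comap (ix : C₀(ℕ, ℂ) →ₗ[ℂ] A)) (hcl.preimage ix.continuous)
      (fun m => S.le_topologicalClosure (hx m)) p
  have hZ : ∀ p, iz p ∈ S.topologicalClosure := fun p =>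
    c0_dense (S.topologicalClosure.comap (iz : C₀(ℕ, ℂ) →ₗ[ℂ] A)) (hcl.preimage iz.continuous)
      (fun m => S.le_topologicalClosure (hz m)) p
  have h1 : (1 : A) ∈ S.topologicalClosure :=
    S.le_topologicalClosure (Submodule.subset_span IsIdempotentElem.one)
  intro f
  have hf : f = f.s • (1 : A) + ix f.b.x + iz f.b.z :=
    A.ext (by simp [ix_apply, iz_apply]) (B.ext (by simp [ix_apply, iz_apply])
      (by simp [ix_apply, iz_apply]))
  have : f ∈ S.topologicalClosure := by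
    rw [hf]
    exact Submodule.add_mem _ (Submodule.add_mem _ (Submodule.smul_mem _ _ h1) (hX _)) (hZ _)
  exact this

/-- dense idempotents give a zero-dimensional character space -/
theorem zero_dim {R : Type*} [NormedCommRing R] [NormedAlgebra ℂ R] [CompleteSpace R]
    (h : Dense ((Submodule.span ℂ {e : R | IsIdempotentElem e} : Submodule ℂ R) : Set R)) :
    TopologicalSpace.IsTopologicalBasis {s : Set (WeakDual.characterSpace ℂ R) | IsClopen s} := by
  have hval : ∀ (φ : WeakDual.characterSpace ℂ R) (e : R), IsIdempotentElem e →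
      φ e = 0 ∨ φ e = 1 := fun φ e he => by
    have h1 : φ e * φ e = φ e := by rw [← map_mul, he]
    exact IsIdempotentElem.iff_eq_zero_or_one.1 h1
  have hcont : ∀ e : R, Continuous fun φ : WeakDual.characterSpace ℂ R => φ e := fun e =>
    (WeakDual.eval_continuous e).comp continuous_subtype_val
  have hclopen : ∀ e : R, IsIdempotentElem e →
      IsClopen {φ : WeakDual.characterSpace ℂ R | φ e = 1} := fun e he => by
    refine ⟨isClosed_eq (hcont e) continuous_const, ?_⟩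
    have : {φ : WeakDual.characterSpace ℂ R | φ e = 1} = {φ | φ e = 0}ᶜ := by
      ext φ
      rcases hval φ e he with h | h <;> simp [h]
    rw [this]
    exact (isClosed_eq (hcont e) continuous_const).isOpen_compl
  have : TotallySeparatedSpace (WeakDual.characterSpace ℂ R) := by
    rw [totallySeparatedSpace_iff_exists_isClopen]
    intro φ ψ hne
    have : ∃ e : R, IsIdempotentElem e ∧ φ e ≠ ψ e := by
      by_contra hcon
      push Not at hcon
      apply hne
      have heq : ∀ y ∈ (Submodule.span ℂ {e : R | IsIdempotentElem e} : Submodule ℂ R),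
          φ y = ψ y := by
        intro y hy
        induction hy using Submodule.span_induction with
        | mem y hy => exact hcon y hy
        | zero => simp
        | add y z _ _ h1 h2 => simp [h1, h2]
        | smul r y _ h1 => simp [h1]
      have := Continuous.ext_on h (map_continuous φ) (map_continuous ψ) heq
      exact WeakDual.CharacterSpace.ext (congrFun this)
    obtain ⟨e, he, hne⟩ := this
    rcases hval φ e he with h1 | h1
    · refine ⟨_, (hclopen e he).compl, by simp [h1], ?_⟩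
      rcases hval ψ e he with h2 | h2
      · exact absurd (h1.trans h2.symm) hne
      · simp [h2]
    · refine ⟨_, hclopen e he, by simp [h1], ?_⟩
      rcases hval ψ e he with h2 | h2
      · simp [h2]
      · exact absurd (h1.trans h2.symm) hne
  exact isTopologicalBasis_isClopen

/-- the estimate in one block -/
lemma block (t : ℝ) (β f1 f2 g1 g2 : ℂ) (ht : 0 < t) (ht1 : t ≤ 1) (hb1 : t ^ 2 / 16 < ‖β‖)
    (hb2 : ‖β‖ ≤ t ^ 2) (hf1 : ‖f1‖ ≤ 101 / 100) (hg1 : ‖g1‖ ≤ 101 / 100)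
    (hf2 : ‖f2‖ ≤ 1 / 100) (hg2 : ‖g2‖ ≤ 1 / 100)
    (e1 : β * f1 + (t : ℂ) ^ 4 / 2 * (f1 * g2 + f2 * g1) = 0)
    (e2 : β * f2 + (1 / 2 * (f1 * g1) + (t : ℂ) ^ 4 / 2 * (f2 * g2)) = (t : ℂ) ^ 2 / 2) :
    False := by
  have ht2 : 0 < t ^ 2 := by positivity
  have ht21 : t ^ 2 ≤ 1 := pow_le_one₀ ht.le ht1
  have hn4 : ‖(t : ℂ) ^ 4 / 2‖ = t ^ 2 * t ^ 2 / 2 := by
    simp [abs_of_pos ht]; ring
  have hn2 : ‖(t : ℂ) ^ 2 / 2‖ = t ^ 2 / 2 := by simp [abs_of_pos ht]
  have h1 : ‖f1 * g2 + f2 * g1‖ ≤ 202 / 10000 := by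
    refine (norm_add_le _ _).trans ?_
    rw [norm_mul, norm_mul]
    have := mul_le_mul hf1 hg2 (norm_nonneg _) (by norm_num)
    have := mul_le_mul hf2 hg1 (norm_nonneg _) (by norm_num)
    linarith
  have h2 : ‖β‖ * ‖f1‖ ≤ t ^ 2 * t ^ 2 / 2 * (202 / 10000) := by
    have : β * f1 = -((t : ℂ) ^ 4 / 2 * (f1 * g2 + f2 * g1)) := by linear_combination e1
    rw [← norm_mul, this, norm_neg, norm_mul, hn4]
    exact mul_le_mul_of_nonneg_left h1 (by positivity)
  have h3 : ‖f1‖ ≤ 1616 / 10000 * t ^ 2 := by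
    have h4 : t ^ 2 / 16 * ‖f1‖ ≤ ‖β‖ * ‖f1‖ := mul_le_mul_of_nonneg_right hb1.le (norm_nonneg _)
    have h5 : t ^ 2 * ‖f1‖ ≤ t ^ 2 * (1616 / 10000 * t ^ 2) := by linarith
    exact le_of_mul_le_mul_left h5 ht2
  have h6 : t ^ 2 / 2 ≤ ‖β‖ * ‖f2‖ + (1 / 2 * (‖f1‖ * ‖g1‖) + t ^ 2 * t ^ 2 / 2 * (‖f2‖ * ‖g2‖)) := by
    rw [← hn2, ← e2]
    refine (norm_add_le _ _).trans ?_
    rw [norm_mul]
    gcongr
    refine (norm_add_le _ _).trans ?_
    rw [norm_mul, norm_mul, norm_mul, norm_mul, hn4]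
    simp
  have h7 := mul_le_mul hb2 hf2 (norm_nonneg _) ht2.le
  have h8 := mul_le_mul h3 hg1 (norm_nonneg _) (by positivity)
  have h9 := mul_le_mul hf2 hg2 (norm_nonneg _) (by norm_num)
  have h10 : t ^ 2 * t ^ 2 / 2 * (‖f2‖ * ‖g2‖) ≤ t ^ 2 / 2 * (1 / 100 * (1 / 100)) := by
    apply mul_le_mul _ h9 (by positivity) (by positivity)
    nlinarith
  nlinarith

/-- the point at which the multiplication is not open -/
def u : A := ix eps

lemma norm_u : ‖u‖ ≤ 1 := by
  rw [u, ix_apply, A.norm_def]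
  simp only [A.mk_s, norm_zero, A.mk_b, zero_add]
  refine B.norm_le _ _ zero_le_one (fun n => ?_) (fun n => by simp)
  simp [abs_of_pos (a_pos n), a_le_one]

lemma near (f : A) (hf : ‖f - u‖ < 1 / 100) :
    ‖f.s‖ ≤ 1 / 100 ∧ ∀ n, ‖f.b.x n‖ ≤ 101 / 100 ∧ ‖f.b.z n‖ ≤ 1 / 100 := by
  rw [A.norm_def] at hf
  have h0 := norm_nonneg (f - u).s
  have h1 := norm_nonneg (f - u).b
  have hs : (f - u).s = f.s := by simp [u, ix_apply]
  refine ⟨by rw [← hs]; linarith, fun n => ⟨?_, ?_⟩⟩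
  · have h2 := (f - u).b.x_le n
    have h3 : (f - u).b.x n = f.b.x n - a n := by simp [u, ix_apply]
    have h4 : f.b.x n = (f - u).b.x n + a n := by rw [h3]; ring
    rw [h4]
    refine (norm_add_le _ _).trans ?_
    have h5 : ‖(a n : ℂ)‖ ≤ 1 := by simp [abs_of_pos (a_pos n), a_le_one]
    linarith
  · have h2 := (f - u).b.z_le n
    have h3 : (f - u).b.z n = f.b.z n := by simp [u, ix_apply]
    rw [← h3]; linarith

lemma not_hit_aux (δ : ℝ) (hδ : 0 < δ) (m : ℕ) (hm : a m < δ) (f g : A) (hf : ‖f - u‖ < 1 / 100)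
    (hg : ‖g - u‖ < 1 / 100) (hs : f.s = 0) : f * g ≠ u * u + (δ : ℂ) • ix (dl m) := by
  intro h
  obtain ⟨-, hf'⟩ := near f hf
  obtain ⟨hβ, hg'⟩ := near g hg
  have e1 : ∀ n, g.s * f.b.x n + (a n : ℂ) ^ 4 / 2 * (f.b.x n * g.b.z n + f.b.z n * g.b.x n) =
      δ * dl m n := fun n => by
    have := congrArg (fun w : A => w.b.x n) h
    simp only [A.mul_b, hs, B.mul_x, u, ix_apply, tau_apply, zero_smul, zero_add, B.add_x,
      B.smul_x, ZeroAtInftyContinuousMap.add_apply, ZeroAtInftyContinuousMap.smul_apply,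
      smul_eq_mul, A.add_b, A.mk_s, A.mk_b, A.smul_b, B.mk_x, B.mk_z, eps_apply,
      ZeroAtInftyContinuousMap.zero_apply] at this
    rw [this]; ring
  have e2 : ∀ n, g.s * f.b.z n + (1 / 2 * (f.b.x n * g.b.x n) +
      (a n : ℂ) ^ 4 / 2 * (f.b.z n * g.b.z n)) = (a n : ℂ) ^ 2 / 2 := fun n => by
    have := congrArg (fun w : A => w.b.z n) h
    simp only [A.mul_b, hs, B.mul_z, u, ix_apply, tau_apply, zero_smul, zero_add, B.add_z,
      B.smul_z, ZeroAtInftyContinuousMap.add_apply, ZeroAtInftyContinuousMap.smul_apply,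
      smul_eq_mul, A.add_b, A.mk_s, A.mk_b, A.smul_b, B.mk_x, B.mk_z, eps_apply,
      ZeroAtInftyContinuousMap.zero_apply] at this
    rw [this]; ring
  have hne : g.s ≠ 0 := by
    intro h0
    have h1 := e1 m
    rw [h0, dl_apply, if_pos rfl, zero_mul, zero_add, mul_one] at h1
    have h2 := congrArg norm h1
    have h3 : ‖(a m : ℂ) ^ 4 / 2‖ = a m ^ 4 / 2 := by simp [abs_of_pos (a_pos m)]
    have h4 : ‖(δ : ℂ)‖ = δ := by simp [abs_of_pos hδ]
    rw [norm_mul, h3, h4] at h2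
    have h5 : ‖f.b.x m * g.b.z m + f.b.z m * g.b.x m‖ ≤ 1 := by
      refine (norm_add_le _ _).trans ?_
      rw [norm_mul, norm_mul]
      have := mul_le_mul (hf' m).1 (hg' m).2 (norm_nonneg _) (by norm_num)
      have := mul_le_mul (hf' m).2 (hg' m).1 (norm_nonneg _) (by norm_num)
      linarith
    have h6 : a m ^ 4 ≤ a m := pow_le_of_le_one (a_pos m).le (a_le_one m) (by norm_num)
    have h7 : a m ^ 4 / 2 * ‖f.b.x m * g.b.z m + f.b.z m * g.b.x m‖ ≤ a m ^ 4 / 2 * 1 :=
      mul_le_mul_of_nonneg_left h5 (by have := a_pos m; positivity)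
    have := a_pos m
    linarith
  obtain ⟨n, hn1, hn2⟩ := exists_nat_pow_near_of_lt_one (x := ‖g.s‖) (y := (1 / 4 : ℝ))
    (norm_pos_iff.2 hne) (by linarith) (by norm_num) (by norm_num)
  have hsq : ∀ k, a k ^ 2 = (1 / 4 : ℝ) ^ k := fun k => by
    unfold a; rw [← pow_mul, mul_comm, pow_mul]; norm_num
  obtain ⟨k, rfl⟩ : ∃ k, n = k + 1 := by
    cases n with
    | zero => norm_num at hn1; linarith
    | succ k => exact ⟨k, rfl⟩
  have hp : 0 < (1 / 4 : ℝ) ^ k := by positivity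
  rw [pow_succ, pow_succ] at hn1
  rw [pow_succ] at hn2
  have key : ∀ j, j ≠ m → a j ^ 2 / 16 < ‖g.s‖ → ‖g.s‖ ≤ a j ^ 2 → False := fun j hj h1 h2 => by
    refine block (a j) g.s (f.b.x j) (f.b.z j) (g.b.x j) (g.b.z j) (a_pos j) (a_le_one j) h1 h2
      (hf' j).1 (hg' j).1 (hf' j).2 (hg' j).2 ?_ (e2 j)
    rw [e1 j, dl_apply, if_neg hj, mul_zero]
  by_cases hk : k = m
  · refine key (k + 1) (by omega) ?_ ?_
    · rw [hsq, pow_succ]; linarith
    · rw [hsq, pow_succ]; linarith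
  · refine key k hk ?_ ?_
    · rw [hsq]; linarith
    · rw [hsq]; linarith

/-- arbitrarily close to `u * u` there are points that are no product of two elements of the ball
of radius `1 / 100` about `u` -/
theorem not_hit (δ : ℝ) (hδ : 0 < δ) : ∃ w ∈ Metric.ball (u * u) δ,
    ∀ f ∈ Metric.ball u (1 / 100), ∀ g ∈ Metric.ball u (1 / 100), f * g ≠ w := by
  obtain ⟨m, hm⟩ := (a_tendsto.eventually (gt_mem_nhds (half_pos hδ))).exists
  refine ⟨u * u + ((δ / 2 : ℝ) : ℂ) • ix (dl m), ?_, fun f hf g hg h => ?_⟩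
  · rw [mem_ball_iff_norm, add_sub_cancel_left, norm_smul]
    have h1 : ‖ix (dl m)‖ ≤ 1 := by
      rw [ix_apply, A.norm_def]
      simp only [A.mk_s, norm_zero, A.mk_b, zero_add]
      refine B.norm_le _ _ zero_le_one (fun n => ?_) (fun n => by simp)
      simp only [B.mk_x, dl_apply]
      split_ifs <;> simp
    have h2 : ‖((δ / 2 : ℝ) : ℂ)‖ = δ / 2 := by
      rw [Complex.norm_real, Real.norm_eq_abs, abs_of_pos (half_pos hδ)]
    rw [h2]
    nlinarith
  · rw [mem_ball_iff_norm] at hf hg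
    have hs : f.s * g.s = 0 := by
      have := congrArg A.s h
      simpa [A.mul_s, u, ix_apply] using this
    rcases mul_eq_zero.1 hs with h0 | h0
    · exact not_hit_aux _ (half_pos hδ) m hm f g hf hg h0 h
    · exact not_hit_aux _ (half_pos hδ) m hm g f hg hf h0 (by rw [mul_comm]; exact h)

theorem not_open : ¬ IsOpenMap (fun p : A × A => p.1 * p.2) := by
  intro h
  have h1 := h _ ((Metric.isOpen_ball (x := u) (ε := 1 / 100)).prod
    (Metric.isOpen_ball (x := u) (ε := 1 / 100)))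
  have h2 : u * u ∈ (fun p : A × A => p.1 * p.2) ''
      (Metric.ball u (1 / 100) ×ˢ Metric.ball u (1 / 100)) :=
    ⟨(u, u), ⟨Metric.mem_ball_self (by norm_num), Metric.mem_ball_self (by norm_num)⟩, rfl⟩
  obtain ⟨δ, hδ, h3⟩ := Metric.isOpen_iff.1 h1 _ h2
  obtain ⟨w, hw, hw'⟩ := not_hit δ hδ
  obtain ⟨⟨f, g⟩, ⟨hf, hg⟩, hfg⟩ := h3 hw
  exact hw' f hf g hg hfg

theorem not_unif : ¬ ∀ ε : ℝ, 0 < ε → ∃ δ : ℝ, 0 < δ ∧ ∀ p q : A, ‖p‖ ≤ 1 → ‖q‖ ≤ 1 →
    ∀ w ∈ Metric.ball (p * q) δ, ∃ f ∈ Metric.ball p ε, ∃ g ∈ Metric.ball q ε, f * g = w := by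
  intro h
  obtain ⟨δ, hδ, h1⟩ := h (1 / 100) (by norm_num)
  obtain ⟨w, hw, hw'⟩ := not_hit δ hδ
  obtain ⟨f, hf, g, hg, hfg⟩ := h1 u u norm_u norm_u w hw
  exact hw' f hf g hg hfg

end

end Pool.Agent.H80Z.OpenMul
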